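import Mathlib
set_option autoImplicit false
namespace Pool.Agent.Helper682.Coax.K1

open MeasureTheory Filter Topology Set Metric

theorem exists_log {H : ℂ → ℂ} (hH : Continuous H) (h0 : ∀ z, H z ≠ 0) (y : ℂ) {R : ℝ} (hR : 0 < R) :
    ∃ L : ℂ → ℂ, ContinuousOn L (closedBall y R) ∧ ∀ z ∈ closedBall y R, Complex.exp (L z) = H z := by
  have hcomp : IsCompact (closedBall y R) := isCompact_closedBall y R
  have hne : (closedBall y R).Nonempty := ⟨y, mem_closedBall_self hR.le⟩
  obtain ⟨z0, hz0, hmin⟩ := hcomp.exists_isMinOn hne (hH.norm.continuousOn)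
  set m := ‖H z0‖ with hm
  have hmpos : 0 < m := norm_pos_iff.2 (h0 z0)
  have huc := hcomp.uniformContinuousOn_of_continuous hH.continuousOn
  rw [Metric.uniformContinuousOn_iff] at huc
  obtain ⟨δ, hδ, huc⟩ := huc m hmpos
  obtain ⟨N, hN⟩ := exists_nat_gt (R / δ)
  have hNpos : (0 : ℝ) < N := lt_of_le_of_lt (by positivity) hN
  set p : ℕ → ℂ → ℂ := fun j z => y + ((j / N : ℝ) : ℂ) * (z - y) with hp
  have hpc : ∀ j, Continuous (p j) := fun j => by simp only [hp]; fun_prop
  have hpmem : ∀ j ≤ N, ∀ z ∈ closedBall y R, p j z ∈ closedBall y R := by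
    intro j hj z hz
    rw [mem_closedBall, dist_eq_norm] at hz ⊢
    simp only [hp]
    rw [add_sub_cancel_left, norm_mul, Complex.norm_real, Real.norm_eq_abs,
      abs_of_nonneg (by positivity)]
    have : (j : ℝ) / N ≤ 1 := by
      rw [div_le_one hNpos]; exact_mod_cast hj
    calc (j : ℝ) / N * ‖z - y‖ ≤ 1 * ‖z - y‖ := mul_le_mul_of_nonneg_right this (norm_nonneg _)
      _ ≤ R := by linarith
  have hslit : ∀ j < N, ∀ z ∈ closedBall y R, H (p (j + 1) z) / H (p j z) ∈ Complex.slitPlane := by
    intro j hj z hz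
    have h1 := huc _ (hpmem (j + 1) hj z hz) _ (hpmem j hj.le z hz) (by
      rw [dist_eq_norm]
      have e : p (j + 1) z - p j z = ((1 / N : ℝ) : ℂ) * (z - y) := by
        simp only [hp]; push_cast; ring
      rw [e, norm_mul, Complex.norm_real, Real.norm_eq_abs, abs_of_nonneg (by positivity)]
      rw [mem_closedBall, dist_eq_norm] at hz
      rw [div_lt_iff₀ hδ] at hN
      calc 1 / (N : ℝ) * ‖z - y‖ ≤ 1 / N * R := mul_le_mul_of_nonneg_left hz (by positivity)
        _ < δ := by rw [one_div, inv_mul_lt_iff₀ hNpos]; linarith)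
    have h2 : m ≤ ‖H (p j z)‖ := hmin (hpmem j hj.le z hz)
    rw [dist_eq_norm] at h1
    have h3 : ‖H (p (j + 1) z) / H (p j z) - 1‖ < 1 := by
      have h4 : H (p (j + 1) z) / H (p j z) - 1 = (H (p (j + 1) z) - H (p j z)) / H (p j z) := by
        have := h0 (p j z)
        field_simp
      rw [h4, norm_div, div_lt_one (by linarith)]
      linarith
    left
    have h5 := Complex.abs_re_le_norm (H (p (j + 1) z) / H (p j z) - 1)
    rw [Complex.sub_re, Complex.one_re] at h5
    have h6 := abs_lt.1 (lt_of_le_of_lt h5 h3)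
    linarith [h6.1]
  refine ⟨fun z => Complex.log (H y) + ∑ j ∈ Finset.range N,
    Complex.log (H (p (j + 1) z) / H (p j z)), ?_, ?_⟩
  · apply ContinuousOn.add continuousOn_const
    apply continuousOn_finsetSum
    intro j hj
    apply ContinuousOn.clog
    · exact ((hH.comp (hpc _)).div (hH.comp (hpc _)) fun z => h0 _).continuousOn
    · exact fun z hz => hslit j (Finset.mem_range.1 hj) z hz
  · intro z hz
    rw [Complex.exp_add, Complex.exp_log (h0 y), Complex.exp_sum]
    have h1 : ∀ j ∈ Finset.range N, Complex.exp (Complex.log (H (p (j + 1) z) / H (p j z))) =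
        H (p (j + 1) z) / H (p j z) := fun j _ =>
      Complex.exp_log (div_ne_zero (h0 _) (h0 _))
    rw [Finset.prod_congr rfl h1]
    have h2 : ∀ M : ℕ, H (p 0 z) * ∏ j ∈ Finset.range M, (H (p (j + 1) z) / H (p j z)) = H (p M z) := by
      intro M
      induction M with
      | zero => simp
      | succ M ih =>
        rw [Finset.prod_range_succ, ← mul_assoc, ih]
        have := h0 (p M z)
        field_simp
    have h3 : p 0 z = y := by simp [hp]
    have h4 : p N z = z := by
      simp only [hp]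
      rw [div_self hNpos.ne']
      simp
    rw [← h3, h2 N, h4]

theorem const_of_exp (φ : ℝ → ℂ) (hφ : ContinuousOn φ (Icc 0 1)) (c : ℂ)
    (hc : ∀ t ∈ Icc (0 : ℝ) 1, Complex.exp (φ t) = c) : φ 1 = φ 0 := by
  have h0 : (0 : ℝ) ∈ Icc (0 : ℝ) 1 := by simp
  have h1 : (1 : ℝ) ∈ Icc (0 : ℝ) 1 := by simp
  have key : ∀ t ∈ Icc (0 : ℝ) 1, ∃ n : ℤ, φ t = φ 0 + n * (2 * Real.pi * Complex.I) := by
    intro t ht
    exact Complex.exp_eq_exp_iff_exists_int.1 ((hc t ht).trans (hc 0 h0).symm)
  set r : ℝ → ℝ := fun t => (φ t - φ 0).im / (2 * Real.pi) with hr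
  have hrc : ContinuousOn r (Icc 0 1) := by
    apply ContinuousOn.div_const
    exact Complex.continuous_im.comp_continuousOn (hφ.sub continuousOn_const)
  have hrint : ∀ t ∈ Icc (0 : ℝ) 1, ∃ n : ℤ, r t = n ∧ φ t = φ 0 + n * (2 * Real.pi * Complex.I) := by
    intro t ht
    obtain ⟨n, hn⟩ := key t ht
    refine ⟨n, ?_, hn⟩
    simp only [hr]
    rw [hn]
    simp
  obtain ⟨n, hn1, hn2⟩ := hrint 1 h1
  have hr0 : r 0 = 0 := by simp [hr]
  have hn0 : n = 0 := by
    by_contra hne
    rcases lt_or_gt_of_ne hne with hlt | hgt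
    · have hn' : (n : ℝ) ≤ -1 := by exact_mod_cast (by omega : n ≤ -1)
      have hmem : (-(1/2) : ℝ) ∈ Icc (r 1) (r 0) := by
        rw [hn1, hr0]; constructor <;> linarith
      obtain ⟨t, ht, htr⟩ := intermediate_value_Icc' (by norm_num) hrc hmem
      obtain ⟨m, hm, -⟩ := hrint t ht
      rw [hm] at htr
      have h2 : (2 * m : ℤ) = -1 := by
        have : (2 * m : ℝ) = -1 := by linarith
        exact_mod_cast this
      omega
    · have hn' : (1 : ℝ) ≤ n := by exact_mod_cast (by omega : 1 ≤ n)
      have hmem : ((1/2) : ℝ) ∈ Icc (r 0) (r 1) := by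
        rw [hn1, hr0]; constructor <;> linarith
      obtain ⟨t, ht, htr⟩ := intermediate_value_Icc (by norm_num) hrc hmem
      obtain ⟨m, hm, -⟩ := hrint t ht
      rw [hm] at htr
      have h2 : (2 * m : ℤ) = 1 := by
        have : (2 * m : ℝ) = 1 := by linarith
        exact_mod_cast this
      omega
  rw [hn2, hn0]
  simp

theorem slit_of_re {z : ℂ} (hz : z ≠ 0) (h : 0 ≤ z.re) : z ∈ Complex.slitPlane := by
  rw [Complex.mem_slitPlane_iff]
  rcases h.lt_or_eq with h1 | h1
  · exact Or.inl h1
  · right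
    intro h2
    exact hz (Complex.ext h1.symm h2)

section
variable (γ : ℝ → ℂ)

/-- averaged derivative -/
noncomputable def DD (s t : ℝ) : ℂ := ∫ x in (0:ℝ)..1, deriv γ (s + x * (t - s))

/-- secant map -/
noncomputable def BB (s t : ℝ) : ℂ := DD γ s t - DD γ (t - 1) s

variable {γ}

theorem DD_cont (hc : Continuous (deriv γ)) : Continuous fun p : ℝ × ℝ => DD γ p.1 p.2 := by
  unfold DD
  apply intervalIntegral.continuous_parametric_intervalIntegral_of_continuous'
  apply hc.comp
  fun_prop

theorem BB_cont (hc : Continuous (deriv γ)) : Continuous fun p : ℝ × ℝ => BB γ p.1 p.2 := by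
  unfold BB
  apply (DD_cont hc).sub
  have h : Continuous fun p : ℝ × ℝ => ((p.2 - 1, p.1) : ℝ × ℝ) := by fun_prop
  exact (DD_cont hc).comp h

theorem DD_eq (hd : Differentiable ℝ γ) (hc : Continuous (deriv γ)) (s t : ℝ) :
    ((t - s : ℝ) : ℂ) * DD γ s t = γ t - γ s := by
  have h1 := intervalIntegral.smul_integral_comp_add_mul (f := deriv γ) (a := 0) (b := 1)
    (t - s) s
  have h2 : DD γ s t = ∫ x in (0:ℝ)..1, deriv γ (s + (t - s) * x) := by
    unfold DD
    congr 1
    ext x
    rw [mul_comm]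
  rw [h2]
  rw [Complex.real_smul] at h1
  rw [h1]
  have h3 : s + (t - s) * 0 = s := by ring
  have h4 : s + (t - s) * 1 = t := by ring
  rw [h3, h4]
  exact intervalIntegral.integral_deriv_eq_sub (fun x _ => hd x) (hc.intervalIntegrable _ _)

theorem DD_self (s : ℝ) : DD γ s s = deriv γ s := by
  unfold DD
  simp

end

theorem umlauf0 (γ : ℝ → ℂ) (hγ : ContDiff ℝ 2 γ) (hper : Function.Periodic γ 1)
    (hinj : Set.InjOn γ (Set.Ico 0 1)) (hreg : ∀ t, deriv γ t ≠ 0)
    (hmax : ∀ t, (γ t).re ≤ (γ 0).re) (hup : 0 < (deriv γ 0).im) :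
    ∫ t in (0:ℝ)..1, (deriv (deriv γ) t / deriv γ t).im = 2 * Real.pi := by
  have hd : Differentiable ℝ γ := hγ.differentiable (by norm_num)
  have hγ1 : ContDiff ℝ 1 (deriv γ) := by
    have : ContDiff ℝ (1 + 1) γ := by
      convert hγ using 1
      norm_num
    exact (contDiff_succ_iff_deriv.1 this).2.2
  have hd1 : Differentiable ℝ (deriv γ) := hγ1.differentiable (by norm_num)
  have hc : Continuous (deriv γ) := hγ1.continuous
  have hc2 : Continuous (deriv (deriv γ)) := hγ1.continuous_deriv (by norm_num)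
  have hperd : Function.Periodic (deriv γ) 1 := by
    intro t
    have h1 : (fun x => γ (x + 1)) = γ := by
      funext x; exact hper x
    have h2 := deriv_comp_add_const γ 1 t
    rw [h1] at h2
    exact h2.symm
  -- facts on BB
  have hBss : ∀ s, BB γ s s = deriv γ s := by
    intro s
    have h1 := DD_eq hd hc (s - 1) s
    have h2 : γ s - γ (s - 1) = 0 := by
      have := hper (s - 1)
      rw [sub_add_cancel] at this
      rw [this, sub_self]
    rw [h2] at h1
    have h3 : ((s - (s - 1) : ℝ) : ℂ) = 1 := by norm_num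
    rw [h3, one_mul] at h1
    rw [BB, DD_self, h1, sub_zero]
  have hBw : ∀ s t, ((t - s : ℝ) : ℂ) * ((1 - (t - s) : ℝ) : ℂ) * BB γ s t = γ t - γ s := by
    intro s t
    have h1 := DD_eq hd hc s t
    have h2 := DD_eq hd hc (t - 1) s
    have h3 : γ (t - 1) = γ t := by
      have := hper (t - 1)
      rw [sub_add_cancel] at this
      exact this.symm
    rw [h3] at h2
    rw [BB]
    push_cast at h1 h2 ⊢
    linear_combination (1 - ((t:ℂ) - s)) * h1 - ((t : ℂ) - s) * h2
  have hB1 : ∀ s, BB γ s 1 = - BB γ 0 s := by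
    intro s
    have h1 : DD γ s 1 = DD γ (s - 1) 0 := by
      unfold DD
      congr 1
      ext x
      rw [← hperd (s - 1 + x * (0 - (s - 1)))]
      congr 1
      ring
    rw [BB, BB, h1]
    have h2 : (1 : ℝ) - 1 = 0 := by norm_num
    rw [h2]
    ring
  have hBne : ∀ s t, 0 ≤ s → s ≤ t → t ≤ 1 → BB γ s t ≠ 0 := by
    intro s t hs hst ht
    rcases hst.eq_or_lt with h | h
    · rw [← h, hBss]; exact hreg s
    · by_cases h01 : t - s < 1
      · intro h0
        have h1 := hBw s t
        rw [h0, mul_zero] at h1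
        have h2 : γ t = γ s := (sub_eq_zero.1 h1.symm)
        rcases ht.eq_or_lt with h3 | h3
        · subst h3
          have h4 : γ 1 = γ 0 := by simpa using hper 0
          rw [h4] at h2
          have h5 := hinj (by simp) ⟨hs, h⟩ h2
          rw [← h5] at h01
          norm_num at h01
        · have h5 := hinj ⟨by linarith, h3⟩ ⟨hs, by linarith⟩ h2
          linarith
      · have h1 : s = 0 := by linarith
        have h2 : t = 1 := by linarith
        subst h1 h2
        rw [hB1, hBss, neg_ne_zero]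
        exact hreg 0
  -- extension
  set H : ℂ → ℂ := fun z => BB γ (max 0 (min 1 z.re)) (max (max 0 (min 1 z.re)) (min 1 z.im)) with hH
  have hHc : Continuous H := by
    have h : Continuous fun z : ℂ =>
        ((max 0 (min 1 z.re), max (max 0 (min 1 z.re)) (min 1 z.im)) : ℝ × ℝ) := by fun_prop
    exact (BB_cont hc).comp h
  have hHne : ∀ z, H z ≠ 0 := by
    intro z
    apply hBne
    · exact le_max_left _ _
    · exact le_max_left _ _
    · apply max_le
      · exact max_le (by norm_num) (min_le_left _ _)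
      · exact min_le_left _ _
  have hHB : ∀ s t : ℝ, 0 ≤ s → s ≤ t → t ≤ 1 → H ⟨s, t⟩ = BB γ s t := by
    intro s t hs hst ht
    simp only [hH]
    rw [min_eq_right (hst.trans ht), max_eq_right hs, min_eq_right ht, max_eq_right hst]
  obtain ⟨L, hLc, hL⟩ := exists_log hHc hHne 0 (R := 2) (by norm_num)
  have hmem : ∀ s t : ℝ, 0 ≤ s → s ≤ t → t ≤ 1 → (⟨s, t⟩ : ℂ) ∈ closedBall (0 : ℂ) 2 := by
    intro s t hs hst ht
    rw [mem_closedBall, dist_zero_right]
    have := Complex.norm_le_abs_re_add_abs_im (⟨s, t⟩ : ℂ)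
    simp only at this
    rw [abs_of_nonneg hs, abs_of_nonneg (hs.trans hst)] at this
    linarith
  have hexp : ∀ s t : ℝ, 0 ≤ s → s ≤ t → t ≤ 1 → Complex.exp (L ⟨s, t⟩) = BB γ s t := by
    intro s t hs hst ht
    rw [hL _ (hmem s t hs hst ht), hHB s t hs hst ht]
  have hpath : ∀ p q : ℝ → ℝ, Continuous p → Continuous q →
      (∀ x ∈ Icc (0:ℝ) 1, 0 ≤ p x ∧ p x ≤ q x ∧ q x ≤ 1) →
      ContinuousOn (fun x => L ⟨p x, q x⟩) (Icc 0 1) := by
    intro p q hp hq hpq
    have h1 : Continuous fun x => (⟨p x, q x⟩ : ℂ) := by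
      have : (fun x => (⟨p x, q x⟩ : ℂ)) = fun x => (p x : ℂ) + (q x : ℂ) * Complex.I := by
        funext x
        apply Complex.ext <;> simp
      rw [this]
      fun_prop
    exact hLc.comp h1.continuousOn fun x hx => hmem _ _ (hpq x hx).1 (hpq x hx).2.1 (hpq x hx).2.2
  -- real part of deriv at 0
  have hre0 : (deriv γ 0).re = 0 := by
    have h1 : HasDerivAt (fun t => (γ t).re) (deriv γ 0).re 0 := by
      have := (hd 0).hasDerivAt
      exact (Complex.reCLM.hasFDerivAt.comp_hasDerivAt (0:ℝ) this)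
    have h2 : IsLocalMax (fun t => (γ t).re) 0 := Filter.Eventually.of_forall hmax
    exact h2.hasDerivAt_eq_zero h1
  have hB0re : ∀ t ∈ Icc (0:ℝ) 1, (BB γ 0 t).re ≤ 0 := by
    intro t ht
    rcases ht.1.eq_or_lt with h | h
    · rw [← h, hBss, hre0]
    · rcases ht.2.eq_or_lt with h' | h'
      · rw [h', hB1, hBss, Complex.neg_re, hre0, neg_zero]
      · have h1 := congrArg Complex.re (hBw 0 t)
        rw [← Complex.ofReal_mul, Complex.re_ofReal_mul, Complex.sub_re] at h1
        have h2 := hmax t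
        by_contra h3
        push Not at h3
        have h4 : 0 < (t - 0) * (1 - (t - 0)) * (BB γ 0 t).re := by
          apply mul_pos _ h3
          apply mul_pos <;> linarith
        linarith
  have hslit : ∀ t ∈ Icc (0:ℝ) 1, - BB γ 0 t ∈ Complex.slitPlane := by
    intro t ht
    apply slit_of_re
    · rw [neg_ne_zero]
      exact hBne 0 t le_rfl ht.1 ht.2
    · rw [Complex.neg_re]
      linarith [hB0re t ht]
  have hlogc : ContinuousOn (fun t => Complex.log (- BB γ 0 t)) (Icc 0 1) := by
    apply ContinuousOn.clog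
    · have h : Continuous fun t : ℝ => ((0, t) : ℝ × ℝ) := by fun_prop
      exact ((BB_cont hc).comp h).neg.continuousOn
    · exact hslit
  -- second side
  have e2 : L ⟨0, 1⟩ - Complex.log (- BB γ 0 1) = L ⟨0, 0⟩ - Complex.log (- BB γ 0 0) := by
    apply const_of_exp (fun t => L ⟨0, t⟩ - Complex.log (- BB γ 0 t)) _ (-1)
    · intro t ht
      have hne := hBne 0 t le_rfl ht.1 ht.2
      rw [Complex.exp_sub, hexp 0 t le_rfl ht.1 ht.2, Complex.exp_log (neg_ne_zero.2 hne)]
      field_simp
    · apply ContinuousOn.sub _ hlogc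
      exact hpath (fun _ => 0) (fun t => t) continuous_const continuous_id
        (fun x hx => ⟨le_rfl, hx.1, hx.2⟩)
  have e3 : L ⟨1, 1⟩ - Complex.log (- BB γ 0 1) = L ⟨0, 1⟩ - Complex.log (- BB γ 0 0) := by
    apply const_of_exp (fun t => L ⟨t, 1⟩ - Complex.log (- BB γ 0 t)) _ 1
    · intro t ht
      have hne := hBne 0 t le_rfl ht.1 ht.2
      rw [Complex.exp_sub, hexp t 1 ht.1 ht.2 le_rfl, Complex.exp_log (neg_ne_zero.2 hne), hB1]
      exact div_self (neg_ne_zero.2 hne)
    · apply ContinuousOn.sub _ hlogc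
      exact hpath (fun t => t) (fun _ => 1) continuous_id continuous_const
        (fun x hx => ⟨hx.1, hx.2, le_rfl⟩)
  -- diagonal
  set g : ℝ → ℂ := fun s => ∫ x in (0:ℝ)..s, deriv (deriv γ) x / deriv γ x with hg
  have hqc : Continuous fun x => deriv (deriv γ) x / deriv γ x := hc2.div hc hreg
  have hgd : ∀ s, HasDerivAt g (deriv (deriv γ) s / deriv γ s) s := by
    intro s
    exact intervalIntegral.integral_hasDerivAt_right (hqc.intervalIntegrable _ _)
      hqc.stronglyMeasurable.stronglyMeasurableAtFilter hqc.continuousAt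
  have hconst : ∀ s, Complex.exp (- g s) * deriv γ s = Complex.exp (- g 0) * deriv γ 0 := by
    have h1 : ∀ s, HasDerivAt (fun s => Complex.exp (- g s) * deriv γ s) 0 s := by
      intro s
      have h2 := ((hgd s).neg.cexp).mul (hd1 s).hasDerivAt
      refine h2.congr_deriv ?_
      have := hreg s
      field_simp
      ring
    intro s
    exact is_const_of_deriv_eq_zero (fun s => (h1 s).differentiableAt) (fun s => (h1 s).deriv) s 0
  have e1 : L ⟨1, 1⟩ - g 1 = L ⟨0, 0⟩ - g 0 := by
    apply const_of_exp (fun t => L ⟨t, t⟩ - g t) _ (Complex.exp (- g 0) * deriv γ 0)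
    · intro t ht
      rw [sub_eq_add_neg, Complex.exp_add, hexp t t ht.1 le_rfl ht.2, hBss, mul_comm, hconst t]
    · apply ContinuousOn.sub
      · exact hpath (fun t => t) (fun t => t) continuous_id continuous_id
          (fun x hx => ⟨hx.1, le_rfl, hx.2⟩)
      · exact (continuous_iff_continuousAt.2 fun s => (hgd s).continuousAt).continuousOn
  have hg0 : g 0 = 0 := by simp [hg]
  have harg1 : (Complex.log (- BB γ 0 1)).im = Real.pi / 2 := by
    rw [Complex.log_im, hB1, hBss, neg_neg, Complex.arg_eq_pi_div_two_iff]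
    exact ⟨hre0, hup⟩
  have harg0 : (Complex.log (- BB γ 0 0)).im = - (Real.pi / 2) := by
    rw [Complex.log_im, hBss, Complex.arg_eq_neg_pi_div_two_iff]
    constructor
    · rw [Complex.neg_re, hre0, neg_zero]
    · rw [Complex.neg_im]; linarith
  have hfin : (g 1).im = 2 * Real.pi := by
    have h1 : g 1 = 2 * (Complex.log (- BB γ 0 1)) - 2 * (Complex.log (- BB γ 0 0)) := by
      rw [hg0] at e1
      linear_combination (-1) * e1 + e2 + e3
    rw [h1]
    have h2 : (2 * (Complex.log (- BB γ 0 1)) - 2 * (Complex.log (- BB γ 0 0))).im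
        = 2 * (Complex.log (- BB γ 0 1)).im - 2 * (Complex.log (- BB γ 0 0)).im := by
      simp
    rw [h2, harg1, harg0]
    ring
  have him : ∫ t in (0:ℝ)..1, (deriv (deriv γ) t / deriv γ t).im = (g 1).im := by
    have := Complex.imCLM.intervalIntegral_comp_comm (hqc.intervalIntegrable (μ := volume) 0 1)
    simpa [hg] using this
  rw [him, hfin]

/-- Hopf's Umlaufsatz for a simple closed C^2 regular plane curve, with the sign fixed at a
rightmost point where the curve moves upwards. -/
theorem umlauf (γ : ℝ → ℂ) (hγ : ContDiff ℝ 2 γ) (hper : Function.Periodic γ 1)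
    (hinj : Set.InjOn γ (Set.Ico 0 1)) (hreg : ∀ t, deriv γ t ≠ 0) (t0 : ℝ)
    (hmax : ∀ t, (γ t).re ≤ (γ t0).re) (hup : 0 < (deriv γ t0).im) :
    ∫ t in (0:ℝ)..1, (deriv (deriv γ) t / deriv γ t).im = 2 * Real.pi := by
  have hperd : Function.Periodic (deriv γ) 1 := by
    intro t
    have h1 : (fun x => γ (x + 1)) = γ := by
      funext x; exact hper x
    have h2 := deriv_comp_add_const γ 1 t
    rw [h1] at h2
    exact h2.symm
  have hperdd : Function.Periodic (deriv (deriv γ)) 1 := by
    intro t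
    have h1 : (fun x => deriv γ (x + 1)) = deriv γ := by
      funext x; exact hperd x
    have h2 := deriv_comp_add_const (deriv γ) 1 t
    rw [h1] at h2
    exact h2.symm
  set δ : ℝ → ℂ := fun t => γ (t + t0) with hδ
  have hdδ : deriv δ = fun t => deriv γ (t + t0) := by
    funext t
    exact deriv_comp_add_const γ t0 t
  have hddδ : deriv (deriv δ) = fun t => deriv (deriv γ) (t + t0) := by
    rw [hdδ]
    funext t
    exact deriv_comp_add_const (deriv γ) t0 t
  have hfr : ∀ x, γ x = γ (Int.fract x) := by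
    intro x
    have := hper.sub_zsmul_eq (x := x) ⌊x⌋
    rw [← this]
    congr 1
    rw [zsmul_one]
    exact (Int.self_sub_floor x).symm
  have hmain := umlauf0 δ (by
      apply hγ.comp
      fun_prop) (by
      intro t
      simp only [hδ]
      rw [show t + 1 + t0 = (t + t0) + 1 by ring]
      exact hper _) (by
      intro s hs t ht hst
      simp only [hδ] at hst
      rw [hfr (s + t0), hfr (t + t0)] at hst
      have h1 := hinj ⟨Int.fract_nonneg _, Int.fract_lt_one _⟩
        ⟨Int.fract_nonneg _, Int.fract_lt_one _⟩ hst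
      rw [Int.fract_eq_fract] at h1
      obtain ⟨z, hz⟩ := h1
      have h2 : s - t = z := by linarith
      have h3 : (z : ℝ) < 1 := by rw [← h2]; linarith [hs.2, ht.1]
      have h4 : (-1 : ℝ) < z := by rw [← h2]; linarith [hs.1, ht.2]
      have h5 : z < 1 := by exact_mod_cast h3
      have h6 : -1 < z := by exact_mod_cast h4
      have h7 : z = 0 := by omega
      rw [h7] at h2
      push_cast at h2
      linarith) (by
      intro t
      rw [hdδ]
      exact hreg _) (by
      intro t
      simp only [hδ, zero_add]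
      exact hmax _) (by
      rw [hdδ]
      simpa using hup)
  rw [hddδ, hdδ] at hmain
  rw [← hmain]
  have hf : Function.Periodic (fun t => (deriv (deriv γ) t / deriv γ t).im) 1 := by
    intro t
    simp only [hperd t, hperdd t]
  have h1 := hf.intervalIntegral_add_eq t0 0
  have h2 := intervalIntegral.integral_comp_add_right
    (fun t => (deriv (deriv γ) t / deriv γ t).im) t0 (a := 0) (b := 1)
  simp only [zero_add] at h1 h2
  rw [h2, add_comm 1 t0, h1]

end Pool.Agent.Helper682.Coax.K1
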