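import Mathlib
set_option autoImplicit false
namespace Pool.Agent.Helper682.Coax.K2
open MeasureTheory

namespace HC
open Set

lemma meas_img {γ : ℝ → ℂ} (hc : Continuous γ) (hinj : InjOn γ (Ico 0 1)) {x y : ℝ}
    (hx : 0 ≤ x) (hy : y ≤ 1) : MeasurableSet (γ '' Ico x y) :=
  measurableSet_Ico.image_of_continuousOn_injOn hc.continuousOn
    (hinj.mono (Ico_subset_Ico hx hy))

lemma lower {γ : ℝ → ℂ} (hc : Continuous γ) {x y : ℝ} (hxy : x ≤ y) :
    ENNReal.ofReal ‖γ y - γ x‖ ≤ Measure.hausdorffMeasure 1 (γ '' Ico x y) := by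
  set u : ℝ := ‖γ y - γ x‖ with hu
  rcases eq_or_lt_of_le (norm_nonneg (γ y - γ x)) with h0 | hpos
  · rw [hu, ← h0]; simp
  · set e : ℂ := (γ y - γ x) / u with he
    have hen : ‖e‖ = 1 := by
      rw [he, norm_div, Complex.norm_real, Real.norm_of_nonneg hpos.le, ← hu]
      exact div_self hpos.ne'
    let L : ℂ → ℝ := fun z => ((starRingEnd ℂ) e * z).re
    have hL : LipschitzWith 1 L := by
      apply LipschitzWith.of_dist_le_mul
      intro a b
      rw [NNReal.coe_one, one_mul, Real.dist_eq, dist_eq_norm]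
      have : L a - L b = ((starRingEnd ℂ) e * (a - b)).re := by
        simp only [L]; rw [mul_sub, Complex.sub_re]
      rw [this]
      refine (Complex.abs_re_le_norm _).trans ?_
      rw [norm_mul, RCLike.norm_conj, hen, one_mul]
    have hdiff : L (γ y) - L (γ x) = u := by
      have h1 : L (γ y) - L (γ x) = ((starRingEnd ℂ) e * (γ y - γ x)).re := by
        simp only [L]; rw [mul_sub, Complex.sub_re]
      have h2 : γ y - γ x = e * u := by
        rw [he, div_mul_cancel₀]
        exact_mod_cast hpos.ne'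
      rw [h1, h2, ← mul_assoc, mul_comm ((starRingEnd ℂ) e) e, Complex.mul_conj, Complex.normSq_eq_norm_sq,
        hen]
      simp
    have hsub : Ico (L (γ x)) (L (γ y)) ⊆ L '' (γ '' Ico x y) := by
      intro v hv
      have hcont : ContinuousOn (fun t => L (γ t)) (Icc x y) := (hL.continuous.comp hc).continuousOn
      have := intermediate_value_Ico hxy hcont hv
      obtain ⟨t, ht, htv⟩ := this
      exact ⟨γ t, ⟨t, ht, rfl⟩, htv⟩
    calc ENNReal.ofReal u = volume (Ico (L (γ x)) (L (γ y))) := by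
          rw [Real.volume_Ico, hdiff]
      _ ≤ volume (L '' (γ '' Ico x y)) := measure_mono hsub
      _ = Measure.hausdorffMeasure 1 (L '' (γ '' Ico x y)) := by rw [hausdorffMeasure_real]
      _ ≤ (1 : NNReal) ^ (1 : ℝ) * Measure.hausdorffMeasure 1 (γ '' Ico x y) :=
          hL.hausdorffMeasure_image_le zero_le_one _
      _ = Measure.hausdorffMeasure 1 (γ '' Ico x y) := by simp

lemma range_eq {γ : ℝ → ℂ} (hper : Function.Periodic γ 1) : range γ = γ '' Ico 0 1 := by
  apply Subset.antisymm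
  · rintro _ ⟨x, rfl⟩
    obtain ⟨y, hy, hxy⟩ := hper.exists_mem_Ico₀ one_pos x
    exact ⟨y, hy, hxy.symm⟩
  · exact image_subset_range _ _

lemma finite_meas {γ : ℝ → ℂ} (hγ : ContDiff ℝ 1 γ) (hper : Function.Periodic γ 1) :
    Measure.hausdorffMeasure 1 (range γ) < ⊤ := by
  have h1 : LocallyLipschitzOn (Icc (0 : ℝ) 1) γ := hγ.locallyLipschitz.locallyLipschitzOn
  obtain ⟨K, hK⟩ := h1.exists_lipschitzOnWith_of_compact isCompact_Icc
  rw [range_eq hper]
  refine (measure_mono (image_mono Ico_subset_Icc_self)).trans_lt ?_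
  refine (hK.hausdorffMeasure_image_le zero_le_one).trans_lt ?_
  rw [hausdorffMeasure_real, Real.volume_Icc]
  simp

lemma integrable {γ : ℝ → ℂ} (hγ : ContDiff ℝ 1 γ) (hper : Function.Periodic γ 1)
    {f : ℂ → ℝ} (hf : Continuous f) :
    IntegrableOn f (range γ) (Measure.hausdorffMeasure 1) := by
  have hcomp : IsCompact (range γ) := by
    have : range γ = γ '' Icc 0 1 := by
      apply Subset.antisymm
      · rw [range_eq hper]; exact image_mono Ico_subset_Icc_self
      · exact image_subset_range _ _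
    rw [this]; exact isCompact_Icc.image hγ.continuous
  obtain ⟨B, hB⟩ := (hcomp.image hf).isBounded.exists_norm_le
  refine Measure.integrableOn_of_bounded (finite_meas hγ hper).ne hf.aestronglyMeasurable (M := B) ?_
  rw [ae_restrict_iff' hcomp.measurableSet]
  exact Filter.Eventually.of_forall fun z hz => hB _ ⟨z, hz, rfl⟩


/-- lower bound on one piece -/
lemma piece {γ : ℝ → ℂ} (hγ : ContDiff ℝ 1 γ) (hper : Function.Periodic γ 1)
    (hinj : InjOn γ (Ico 0 1)) {f : ℂ → ℝ} (hf : Continuous f) {x y m : ℝ}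
    (hx : 0 ≤ x) (hxy : x ≤ y) (hy : y ≤ 1) (hm0 : 0 ≤ m) (hm : ∀ t ∈ Ico x y, m ≤ f (γ t)) :
    m * ‖γ y - γ x‖ ≤ ∫ z in γ '' Ico x y, f z ∂(Measure.hausdorffMeasure 1) := by
  have hI := (integrable hγ hper hf).mono_set (image_subset_range γ (Ico x y))
  have hfin : Measure.hausdorffMeasure 1 (γ '' Ico x y) < ⊤ :=
    (measure_mono (image_subset_range γ (Ico x y))).trans_lt (finite_meas hγ hper)
  have h1 : m * (Measure.hausdorffMeasure 1).real (γ '' Ico x y) ≤
      ∫ z in γ '' Ico x y, f z ∂(Measure.hausdorffMeasure 1) := by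
    apply setIntegral_ge_of_const_le_real (meas_img hγ.continuous hinj hx hy) hfin.ne _ hI
    rintro _ ⟨t, ht, rfl⟩
    exact hm t ht
  refine le_trans (mul_le_mul_of_nonneg_left ?_ hm0) h1
  have h2 := lower hγ.continuous hxy
  rw [Measure.real]
  exact (ENNReal.ofReal_le_iff_le_toReal hfin.ne).mp h2

lemma additive {γ : ℝ → ℂ} (hγ : ContDiff ℝ 1 γ) (hper : Function.Periodic γ 1)
    (hinj : InjOn γ (Ico 0 1)) {f : ℂ → ℝ} (hf : Continuous f) {x y : ℝ}
    (hx : 0 ≤ x) (hxy : x ≤ y) (hy : y ≤ 1) :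
    ∫ z in γ '' Ico 0 y, f z ∂(Measure.hausdorffMeasure 1) =
      ∫ z in γ '' Ico 0 x, f z ∂(Measure.hausdorffMeasure 1) +
      ∫ z in γ '' Ico x y, f z ∂(Measure.hausdorffMeasure 1) := by
  have hI := integrable hγ hper hf
  have hun : γ '' Ico 0 y = γ '' Ico 0 x ∪ γ '' Ico x y := by
    rw [← image_union, Ico_union_Ico_eq_Ico hx hxy]
  rw [hun]
  refine setIntegral_union ?_ (meas_img hγ.continuous hinj hx hy)
    (hI.mono_set (image_subset_range _ _)) (hI.mono_set (image_subset_range _ _))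
  rw [Set.disjoint_left]
  rintro _ ⟨s, hs, rfl⟩ ⟨t, ht, hts⟩
  have := hinj ⟨hx.trans ht.1, ht.2.trans_le hy⟩ ⟨hs.1, hs.2.trans_le (hxy.trans hy)⟩ hts
  rw [this] at ht
  exact absurd ht.1 (not_le.mpr hs.2)

lemma prod_ineq {a b ε B : ℝ} (hε : 0 ≤ ε) (ha : 0 ≤ a) (hb : 0 ≤ b) (haB : a ≤ B) (hbB : b ≤ B) :
    a * b - 2 * B * ε ≤ max (a - ε) 0 * max (b - ε) 0 := by
  rcases le_total (a - ε) 0 with h1 | h1
  · rw [max_eq_right h1, zero_mul]
    nlinarith
  · rcases le_total (b - ε) 0 with h2 | h2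
    · rw [max_eq_right h2, mul_zero]
      nlinarith
    · rw [max_eq_left h1, max_eq_left h2]
      nlinarith

lemma main {γ : ℝ → ℂ} (hγ : ContDiff ℝ 1 γ) (hper : Function.Periodic γ 1)
    (hinj : InjOn γ (Ico 0 1)) {f : ℂ → ℝ} (hf : Continuous f) (hf0 : ∀ z, 0 ≤ f z) {B : ℝ}
    (hB1 : ∀ t ∈ Icc (0 : ℝ) 1, f (γ t) ≤ B) (hB2 : ∀ t ∈ Icc (0 : ℝ) 1, ‖deriv γ t‖ ≤ B)
    {ε : ℝ} (hε : 0 < ε) :
    ∫ t in (0:ℝ)..1, f (γ t) * ‖deriv γ t‖ ≤
      (∫ z in range γ, f z ∂(Measure.hausdorffMeasure 1)) + (2 * B + 1) * ε := by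
  have hdc : Continuous (deriv γ) := hγ.continuous_deriv le_rfl
  have hfc : Continuous (fun t => f (γ t)) := hf.comp hγ.continuous
  have hgc : Continuous (fun t => f (γ t) * ‖deriv γ t‖) := hfc.mul hdc.norm
  have u1 := isCompact_Icc.uniformContinuousOn_of_continuous (s := Icc (0 : ℝ) 1) hfc.continuousOn
  have u2 := isCompact_Icc.uniformContinuousOn_of_continuous (s := Icc (0 : ℝ) 1) hdc.continuousOn
  have u3 := isCompact_Icc.uniformContinuousOn_of_continuous (s := Icc (0 : ℝ) 1) hgc.continuousOn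
  rw [Metric.uniformContinuousOn_iff] at u1 u2 u3
  obtain ⟨δ1, hδ1, v1⟩ := u1 ε hε
  obtain ⟨δ2, hδ2, v2⟩ := u2 ε hε
  obtain ⟨δ3, hδ3, v3⟩ := u3 ε hε
  obtain ⟨n, hn⟩ := exists_nat_one_div_lt (show 0 < min δ1 (min δ2 δ3) by positivity)
  have hB0 : 0 ≤ B := (hf0 _).trans (hB1 0 (by simp))
  set h : ℝ := 1 / ((n : ℝ) + 1) with hh
  have hpos : 0 < h := by positivity
  have hnh : ((n : ℝ) + 1) * h = 1 := by rw [hh]; field_simp
  -- induction
  have key : ∀ k : ℕ, k ≤ n + 1 →
      ∫ t in (0:ℝ)..(k * h), f (γ t) * ‖deriv γ t‖ ≤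
      (∫ z in γ '' Ico 0 (k * h), f z ∂(Measure.hausdorffMeasure 1)) + (2 * B + 1) * ε * (k * h) := by
    intro k
    induction k with
    | zero => intro _; simp
    | succ k ih =>
      intro hk
      have ihk := ih (by omega)
      have hk' : (k : ℝ) + 1 ≤ n + 1 := by exact_mod_cast hk
      set x : ℝ := k * h with hx
      have hy : (((k + 1 : ℕ) : ℝ)) * h = x + h := by push_cast; rw [hx]; ring
      rw [hy]
      have hx0 : 0 ≤ x := by positivity
      have hxy : x ≤ x + h := by linarith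
      have hy1 : x + h ≤ 1 := by
        rw [← hnh, hx]
        nlinarith
      have hxI : x ∈ Icc (0 : ℝ) 1 := ⟨hx0, by linarith⟩
      have hclose : ∀ t ∈ Icc x (x + h), t ∈ Icc (0 : ℝ) 1 ∧ dist t x < min δ1 (min δ2 δ3) := by
        intro t ht
        refine ⟨⟨hx0.trans ht.1, ht.2.trans hy1⟩, ?_⟩
        rw [Real.dist_eq, abs_of_nonneg (by linarith [ht.1])]
        linarith [ht.2]
      have w1 : ∀ t ∈ Icc x (x + h), |f (γ t) - f (γ x)| < ε := fun t ht =>
        v1 t (hclose t ht).1 x hxI ((hclose t ht).2.trans_le (min_le_left _ _))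
      have w2 : ∀ t ∈ Icc x (x + h), ‖deriv γ t - deriv γ x‖ < ε := fun t ht => by
        rw [← dist_eq_norm]
        exact v2 t (hclose t ht).1 x hxI ((hclose t ht).2.trans_le
          ((min_le_right _ _).trans (min_le_left _ _)))
      have w3 : ∀ t ∈ Icc x (x + h), f (γ t) * ‖deriv γ t‖ ≤ f (γ x) * ‖deriv γ x‖ + ε :=
        fun t ht => by
        have := v3 t (hclose t ht).1 x hxI ((hclose t ht).2.trans_le
          ((min_le_right _ _).trans (min_le_right _ _)))
        rw [Real.dist_eq, abs_lt] at this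
        linarith [this.2]
      -- integral splitting
      have i1 : ∫ t in (0:ℝ)..(x + h), f (γ t) * ‖deriv γ t‖ =
          (∫ t in (0:ℝ)..x, f (γ t) * ‖deriv γ t‖) + ∫ t in x..(x + h), f (γ t) * ‖deriv γ t‖ :=
        (intervalIntegral.integral_add_adjacent_intervals (hgc.intervalIntegrable _ _)
          (hgc.intervalIntegrable _ _)).symm
      have i2 : ∫ t in x..(x + h), f (γ t) * ‖deriv γ t‖ ≤ (f (γ x) * ‖deriv γ x‖ + ε) * h := by
        have := intervalIntegral.integral_mono_on (μ := volume) hxy (hgc.intervalIntegrable _ _)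
          ((continuous_const (y := f (γ x) * ‖deriv γ x‖ + ε)).intervalIntegrable _ _) w3
        rw [intervalIntegral.integral_const] at this
        simpa [mul_comm] using this
      -- increment of γ
      have i3 : (‖deriv γ x‖ - ε) * h ≤ ‖γ (x + h) - γ x‖ := by
        have e1 : γ (x + h) - γ x = ∫ t in x..(x + h), deriv γ t := by
          rw [intervalIntegral.integral_deriv_eq_sub (fun t _ => (hγ.differentiable one_ne_zero) t)
            (hdc.intervalIntegrable _ _)]
        have e2 : ∫ t in x..(x + h), deriv γ t =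
            (∫ t in x..(x + h), (deriv γ t - deriv γ x)) + h • deriv γ x := by
          rw [intervalIntegral.integral_sub (hdc.intervalIntegrable _ _) (by simp),
            intervalIntegral.integral_const]
          simp
        have e3 : ‖∫ t in x..(x + h), (deriv γ t - deriv γ x)‖ ≤ ε * |x + h - x| := by
          apply intervalIntegral.norm_integral_le_of_norm_le_const
          intro t ht
          rw [uIoc_of_le hxy] at ht
          exact (w2 t ⟨ht.1.le, ht.2⟩).le
        rw [add_sub_cancel_left, abs_of_pos hpos] at e3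
        have e4 : ‖h • deriv γ x‖ = h * ‖deriv γ x‖ := by
          rw [norm_smul, Real.norm_of_nonneg hpos.le]
        have e5 : ‖h • deriv γ x‖ ≤ ‖γ (x + h) - γ x‖ +
            ‖∫ t in x..(x + h), (deriv γ t - deriv γ x)‖ := by
          have : h • deriv γ x = (γ (x + h) - γ x) - ∫ t in x..(x + h), (deriv γ t - deriv γ x) := by
            rw [e1, e2]; abel
          rw [this]; exact norm_sub_le _ _
        rw [e4] at e5
        nlinarith
      have i4 : max (‖deriv γ x‖ - ε) 0 * h ≤ ‖γ (x + h) - γ x‖ := by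
        rcases le_total (‖deriv γ x‖ - ε) 0 with h1 | h1
        · rw [max_eq_right h1, zero_mul]; exact norm_nonneg _
        · rw [max_eq_left h1]; exact i3
      have i5 := piece hγ hper hinj hf (m := max (f (γ x) - ε) 0) hx0 hxy hy1 (le_max_right _ _)
        (fun t ht => by
          have := w1 t ⟨ht.1, ht.2.le⟩
          rw [abs_lt] at this
          apply max_le
          · linarith [this.1]
          · exact hf0 _)
      have i6 := prod_ineq hε.le (hf0 (γ x)) (norm_nonneg (deriv γ x)) (hB1 x hxI) (hB2 x hxI)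
      have i7 : (f (γ x) * ‖deriv γ x‖ - 2 * B * ε) * h ≤
          ∫ z in γ '' Ico x (x + h), f z ∂(Measure.hausdorffMeasure 1) := by
        refine le_trans (mul_le_mul_of_nonneg_right i6 hpos.le) ?_
        rw [mul_assoc]
        exact le_trans (mul_le_mul_of_nonneg_left i4 (le_max_right _ _)) i5
      rw [i1, additive hγ hper hinj hf hx0 hxy hy1]
      nlinarith
  have hfinal := key (n + 1) le_rfl
  have h1 : (((n + 1 : ℕ) : ℝ)) * h = 1 := by push_cast; exact hnh
  rw [h1, mul_one] at hfinal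
  rw [range_eq hper]
  exact hfinal

end HC

/-- length integral against Hausdorff measure on a simple closed C^1 curve -/
theorem hausdorff_curve (γ : ℝ → ℂ) (hγ : ContDiff ℝ 1 γ) (hper : Function.Periodic γ 1)
    (hinj : Set.InjOn γ (Set.Ico 0 1)) (f : ℂ → ℝ) (hf : Continuous f) (hf0 : ∀ z, 0 ≤ f z) :
    IntegrableOn f (Set.range γ) (Measure.hausdorffMeasure 1) ∧
    ∫ t in (0:ℝ)..1, f (γ t) * ‖deriv γ t‖ ≤
      ∫ z in Set.range γ, f z ∂(Measure.hausdorffMeasure 1) := by
  refine ⟨HC.integrable hγ hper hf, ?_⟩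
  have hdc : Continuous (deriv γ) := hγ.continuous_deriv le_rfl
  obtain ⟨B1, hB1⟩ := (isCompact_Icc (a := (0 : ℝ)) (b := 1)).exists_bound_of_continuousOn
    (f := fun t => f (γ t)) (hf.comp hγ.continuous).continuousOn
  obtain ⟨B2, hB2⟩ := (isCompact_Icc (a := (0 : ℝ)) (b := 1)).exists_bound_of_continuousOn
    (f := deriv γ) hdc.continuousOn
  set B := max B1 B2 with hB
  have hB1' : ∀ t ∈ Set.Icc (0 : ℝ) 1, f (γ t) ≤ B := fun t ht =>
    (le_abs_self _).trans ((hB1 t ht).trans (le_max_left _ _))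
  have hB2' : ∀ t ∈ Set.Icc (0 : ℝ) 1, ‖deriv γ t‖ ≤ B := fun t ht =>
    (hB2 t ht).trans (le_max_right _ _)
  have hB0 : 0 ≤ B := (hf0 _).trans (hB1' 0 (by simp))
  apply le_of_forall_pos_le_add
  intro ε hε
  have h1 := HC.main hγ hper hinj hf hf0 hB1' hB2' (ε := ε / (2 * B + 1)) (by positivity)
  rw [mul_div_cancel₀ _ (by positivity)] at h1
  exact h1

end Pool.Agent.Helper682.Coax.K2
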