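import Mathlib
set_option autoImplicit false
namespace Pool.Agent.Helper682.Coax.K3
open MeasureTheory

namespace FlatStokes

open Filter Topology Metric Set ContinuousLinearMap
open scoped Convolution ContDiff

lemma halfplane_eq : {p : ℝ × ℝ | 0 < p.2} = (univ : Set ℝ) ×ˢ (Ioi (0 : ℝ)) := by
  ext p; simp

lemma hasDeriv_snd {P : ℝ × ℝ → ℝ} (hP : ContDiff ℝ 1 P) (x y : ℝ) :
    HasDerivAt (fun y => P (x, y)) (fderiv ℝ P (x, y) (0, 1)) y := by
  have h1 : HasFDerivAt P (fderiv ℝ P (x, y)) (x, y) :=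
    (hP.differentiable one_ne_zero _).hasFDerivAt
  have h2 : HasDerivAt (fun y : ℝ => (x, y)) ((0 : ℝ), (1 : ℝ)) y :=
    (hasDerivAt_const y x).prodMk (hasDerivAt_id y)
  exact h1.comp_hasDerivAt y h2

lemma hasDeriv_fst {P : ℝ × ℝ → ℝ} (hP : ContDiff ℝ 1 P) (x y : ℝ) :
    HasDerivAt (fun x => P (x, y)) (fderiv ℝ P (x, y) (1, 0)) x := by
  have h1 : HasFDerivAt P (fderiv ℝ P (x, y)) (x, y) :=
    (hP.differentiable one_ne_zero _).hasFDerivAt
  have h2 : HasDerivAt (fun x : ℝ => (x, y)) ((1 : ℝ), (0 : ℝ)) x :=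
    (hasDerivAt_id x).prodMk (hasDerivAt_const x y)
  exact h1.comp_hasDerivAt x h2

lemma cs_snd {P : ℝ × ℝ → ℝ} (hc : HasCompactSupport P) (x : ℝ) :
    HasCompactSupport (fun y => P (x, y)) := by
  have h : IsClosedEmbedding (fun y : ℝ => (x, y)) :=
    (Isometry.of_dist_eq (fun a b => by simp [Prod.dist_eq])).isClosedEmbedding
  exact hc.comp_isClosedEmbedding h

lemma cs_fst {P : ℝ × ℝ → ℝ} (hc : HasCompactSupport P) (y : ℝ) :
    HasCompactSupport (fun x => P (x, y)) := by
  have h : IsClosedEmbedding (fun x : ℝ => (x, y)) :=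
    (Isometry.of_dist_eq (fun a b => by simp [Prod.dist_eq])).isClosedEmbedding
  exact hc.comp_isClosedEmbedding h

lemma integrable_dir {P : ℝ × ℝ → ℝ} (hP : ContDiff ℝ 1 P) (hc : HasCompactSupport P)
    (e : ℝ × ℝ) : Integrable (fun p => fderiv ℝ P p e) := by
  have hcont : Continuous (fun p => fderiv ℝ P p e) :=
    (hP.continuous_fderiv one_ne_zero).clm_apply continuous_const
  exact hcont.integrable_of_hasCompactSupport (hc.fderiv_apply ℝ e)

lemma int_snd {P : ℝ × ℝ → ℝ} (hP : ContDiff ℝ 1 P) (hc : HasCompactSupport P) :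
    ∫ p in {p : ℝ × ℝ | 0 < p.2}, fderiv ℝ P p (0, 1) = - ∫ t : ℝ, P (t, 0) := by
  have hint := integrable_dir hP hc (0, 1)
  rw [halfplane_eq, Measure.volume_eq_prod] at *
  rw [setIntegral_prod _ hint.integrableOn, Measure.restrict_univ, ← integral_neg]
  congr 1
  ext x
  have hf : ContDiff ℝ 1 (fun y => P (x, y)) := hP.comp (contDiff_const.prodMk contDiff_id)
  rw [← (cs_snd hc x).integral_Ioi_deriv_eq hf 0]
  apply integral_congr_ae
  exact Eventually.of_forall (fun y => ((hasDeriv_snd hP x y).deriv).symm)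

lemma integral_deriv_zero {f : ℝ → ℝ} (hf : ContDiff ℝ 1 f) (hc : HasCompactSupport f) :
    ∫ x, deriv f x = 0 := by
  have h1 : Integrable (deriv f) :=
    (hf.continuous_deriv le_rfl).integrable_of_hasCompactSupport hc.deriv
  have h2 : Integrable f := hf.continuous.integrable_of_hasCompactSupport hc
  exact integral_eq_zero_of_hasDerivAt_of_integrable
    (fun x => (hf.differentiable one_ne_zero x).hasDerivAt) h1 h2

lemma int_fst {P : ℝ × ℝ → ℝ} (hP : ContDiff ℝ 1 P) (hc : HasCompactSupport P) :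
    ∫ p in {p : ℝ × ℝ | 0 < p.2}, fderiv ℝ P p (1, 0) = 0 := by
  have hint := integrable_dir hP hc (1, 0)
  rw [halfplane_eq, Measure.volume_eq_prod] at *
  have hint' : IntegrableOn (fun p => fderiv ℝ P p (1, 0)) ((univ : Set ℝ) ×ˢ (Ioi (0 : ℝ)))
    (volume.prod volume) := hint.integrableOn
  rw [IntegrableOn, ← Measure.prod_restrict] at hint'
  rw [← Measure.prod_restrict, integral_prod_symm _ hint', Measure.restrict_univ]
  have : ∀ y : ℝ, ∫ x : ℝ, fderiv ℝ P (x, y) (1, 0) = 0 := by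
    intro y
    have hf : ContDiff ℝ 1 (fun x => P (x, y)) := hP.comp (contDiff_id.prodMk contDiff_const)
    have h0 := integral_deriv_zero hf (cs_fst hc y)
    refine Eq.trans ?_ h0
    apply integral_congr_ae
    refine Eventually.of_forall (fun x => ?_)
    show fderiv ℝ P (x, y) (1, 0) = deriv (fun x => P (x, y)) x
    exact ((hasDeriv_fst hP x y).deriv).symm
  simp only [this]
  simp

lemma smooth_case (u v : ℝ × ℝ → ℝ) (hu : ContDiff ℝ 2 u) (hv : ContDiff ℝ 1 v)
    (hsupp : HasCompactSupport u) :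
    ∫ p in {p : ℝ × ℝ | 0 < p.2},
      (fderiv ℝ u p (1, 0) * fderiv ℝ v p (0, 1) - fderiv ℝ u p (0, 1) * fderiv ℝ v p (1, 0)) =
    ∫ t : ℝ, u (t, 0) * fderiv ℝ v (t, 0) (1, 0) := by
  have hu1 : ContDiff ℝ 1 u := hu.of_le (by norm_num)
  have hfd : ContDiff ℝ 1 (fderiv ℝ u) := hu.fderiv_right (m := 1) (by norm_num)
  have hd : ∀ e : ℝ × ℝ, ContDiff ℝ 1 (fun p => fderiv ℝ u p e) := fun e =>
    hfd.clm_apply contDiff_const
  set P : ℝ × ℝ → ℝ := fun p => fderiv ℝ u p (1, 0) * v p with hPd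
  set Q : ℝ × ℝ → ℝ := fun p => fderiv ℝ u p (0, 1) * v p with hQd
  have hP : ContDiff ℝ 1 P := (hd _).mul hv
  have hQ : ContDiff ℝ 1 Q := (hd _).mul hv
  have hPc : HasCompactSupport P := (hsupp.fderiv_apply ℝ (1, 0)).mul_right
  have hQc : HasCompactSupport Q := (hsupp.fderiv_apply ℝ (0, 1)).mul_right
  have hder : ∀ (e e' p : ℝ × ℝ), fderiv ℝ (fun p => fderiv ℝ u p e * v p) p e' =
      fderiv ℝ (fderiv ℝ u) p e' e * v p + fderiv ℝ u p e * fderiv ℝ v p e' := by
    intro e e' p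
    have h1 : HasFDerivAt (fun p => fderiv ℝ u p e)
        ((fderiv ℝ (fderiv ℝ u) p).flip e) p := by
      have h0 : HasFDerivAt (fderiv ℝ u) (fderiv ℝ (fderiv ℝ u) p) p :=
        (hfd.differentiable one_ne_zero p).hasFDerivAt
      have := h0.clm_apply (hasFDerivAt_const e p)
      simpa using this
    have h2 : HasFDerivAt v (fderiv ℝ v p) p := (hv.differentiable one_ne_zero p).hasFDerivAt
    have h3 : HasFDerivAt (fun p => fderiv ℝ u p e * v p) _ p := h1.mul h2
    rw [h3.fderiv]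
    simp
    ring
  have hsymm : ∀ p : ℝ × ℝ, fderiv ℝ (fderiv ℝ u) p (0, 1) (1, 0) =
      fderiv ℝ (fderiv ℝ u) p (1, 0) (0, 1) := by
    intro p
    have : IsSymmSndFDerivAt ℝ u p :=
      hu.contDiffAt.isSymmSndFDerivAt (by simp)
    exact this (0, 1) (1, 0)
  have hint : ∀ p : ℝ × ℝ, fderiv ℝ u p (1, 0) * fderiv ℝ v p (0, 1) -
      fderiv ℝ u p (0, 1) * fderiv ℝ v p (1, 0) = fderiv ℝ P p (0, 1) - fderiv ℝ Q p (1, 0) := by
    intro p
    simp only [hPd, hQd]
    rw [hder, hder, hsymm p]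
    ring
  simp only [hint]
  rw [integral_sub (integrable_dir hP hPc _).integrableOn (integrable_dir hQ hQc _).integrableOn,
    int_snd hP hPc, int_fst hQ hQc, sub_zero]
  -- one-dimensional integration by parts
  set f : ℝ → ℝ := fun t => u (t, 0) * v (t, 0) with hf
  have hemb : ContDiff ℝ 1 (fun t : ℝ => (t, (0 : ℝ))) := contDiff_id.prodMk contDiff_const
  have hfc : ContDiff ℝ 1 f := (hu1.comp hemb).mul (hv.comp hemb)
  have hfs : HasCompactSupport f := (cs_fst hsupp 0).mul_right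
  have hdf : ∀ t, deriv f t = fderiv ℝ u (t, 0) (1, 0) * v (t, 0) +
      u (t, 0) * fderiv ℝ v (t, 0) (1, 0) := by
    intro t
    exact ((hasDeriv_fst hu1 t 0).mul (hasDeriv_fst hv t 0)).deriv
  have h0 := integral_deriv_zero hfc hfs
  simp only [hdf] at h0
  have c1 : Continuous (fun t : ℝ => (t, (0 : ℝ))) := hemb.continuous
  have i1 : Integrable (fun t : ℝ => fderiv ℝ u (t, 0) (1, 0) * v (t, 0)) := by
    apply Continuous.integrable_of_hasCompactSupport
    · exact hP.continuous.comp c1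
    · exact cs_fst hPc 0
  have i2 : Integrable (fun t : ℝ => u (t, 0) * fderiv ℝ v (t, 0) (1, 0)) := by
    apply Continuous.integrable_of_hasCompactSupport
    · exact (hu1.continuous.comp c1).mul
        (((hv.continuous_fderiv one_ne_zero).clm_apply continuous_const).comp c1)
    · exact (cs_fst hsupp 0).mul_right
  rw [integral_add i1 i2] at h0
  simp only [hPd]
  linarith

/-- bump functions -/
noncomputable def phi (n : ℕ) : ContDiffBump (0 : ℝ × ℝ) where
  rIn := 1 / ((n : ℝ) + 2)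
  rOut := 1 / ((n : ℝ) + 1)
  rIn_pos := by positivity
  rIn_lt_rOut := by
    apply one_div_lt_one_div_of_lt (by positivity)
    linarith

lemma phi_tendsto : Tendsto (fun n => (phi n).rOut) atTop (𝓝 0) :=
  tendsto_one_div_add_atTop_nhds_zero_nat

lemma phi_le (n : ℕ) : (phi n).rOut ≤ 1 := by
  show 1 / ((n : ℝ) + 1) ≤ 1
  rw [div_le_one (by positivity)]
  linarith [(Nat.cast_nonneg n : (0 : ℝ) ≤ n)]

/-- the smoothing -/
noncomputable def sm (n : ℕ) (g : ℝ × ℝ → ℝ) : ℝ × ℝ → ℝ :=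
  (phi n).normed volume ⋆[lsmul ℝ ℝ, volume] g

lemma sm_contDiff (n : ℕ) {g : ℝ × ℝ → ℝ} (hg : Continuous g) : ContDiff ℝ ∞ (sm n g) :=
  (phi n).hasCompactSupport_normed.contDiff_convolution_left _ (phi n).contDiff_normed
    hg.locallyIntegrable

lemma sm_cs (n : ℕ) {g : ℝ × ℝ → ℝ} (hg : HasCompactSupport g) : HasCompactSupport (sm n g) :=
  (phi n).hasCompactSupport_normed.convolution _ hg

lemma sm_fderiv (n : ℕ) {g : ℝ × ℝ → ℝ} (hg : ContDiff ℝ 1 g) (hc : HasCompactSupport g)
    (e p : ℝ × ℝ) : fderiv ℝ (sm n g) p e = sm n (fun a => fderiv ℝ g a e) p := by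
  have hli : LocallyIntegrable ((phi n).normed (volume : Measure (ℝ × ℝ))) :=
    (phi n).continuous_normed.locallyIntegrable
  have h := hc.hasFDerivAt_convolution_right (lsmul ℝ ℝ) hli hg p
  unfold sm
  rw [h.fderiv]
  exact convolution_precompR_apply (lsmul ℝ ℝ) hli (hc.fderiv ℝ)
    (hg.continuous_fderiv one_ne_zero) p e

lemma sm_bound {g : ℝ × ℝ → ℝ} (hg : Continuous g) (hc : HasCompactSupport g) :
    ∃ A R : ℝ, 0 ≤ A ∧ ∀ n p, |sm n g p| ≤ A ∧ (R < ‖p‖ → sm n g p = 0) := by
  obtain ⟨A, hA⟩ := hc.exists_bound_of_continuous hg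
  obtain ⟨R, hR⟩ := (hc.isBounded).subset_closedBall (0 : ℝ × ℝ)
  have hA0 : 0 ≤ A := (norm_nonneg _).trans (hA 0)
  refine ⟨3 * A, R + 1, by positivity, ?_⟩
  intro n p
  constructor
  · have h1 := (phi n).dist_normed_convolution_le (μ := volume) (x₀ := p) (ε := 2 * A)
      hg.aestronglyMeasurable (fun x _ => by
        rw [Real.dist_eq]
        have h1 := hA x
        have h2 := hA p
        rw [Real.norm_eq_abs] at h1 h2
        calc |g x - g p| ≤ |g x| + |g p| := abs_sub _ _
          _ ≤ 2 * A := by linarith)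
    have h2 := hA p
    rw [Real.norm_eq_abs] at h2
    rw [Real.dist_eq] at h1
    have h3 : |sm n g p| ≤ |sm n g p - g p| + |g p| := by
      have := abs_add_le (sm n g p - g p) (g p)
      simpa using this
    have h4 : |sm n g p - g p| ≤ 2 * A := h1
    linarith
  · intro hp
    have hz : ∀ x ∈ ball p (phi n).rOut, g x = 0 := by
      intro x hx
      by_contra hne
      have : x ∈ tsupport g := subset_tsupport _ hne
      have h1 := hR this
      rw [mem_closedBall_zero_iff] at h1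
      rw [mem_ball, dist_comm, dist_eq_norm] at hx
      have h2 := phi_le n
      have h3 : ‖p‖ ≤ ‖p - x‖ + ‖x‖ := by
        have := norm_add_le (p - x) x
        simpa using this
      linarith
    have h1 := (phi n).dist_normed_convolution_le (μ := volume) (x₀ := p) (ε := 0)
      hg.aestronglyMeasurable (fun x hx => by
        rw [hz x hx, hz p (mem_ball_self (phi n).rOut_pos), dist_self])
    have h2 : dist (sm n g p) (g p) ≤ 0 := h1
    have h3 := dist_le_zero.1 h2
    rw [h3]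
    exact hz p (mem_ball_self (phi n).rOut_pos)

lemma sm_lim {X : Type*} [MeasurableSpace X] (μ : Measure X) (i : X → ℝ × ℝ) (hi : Measurable i)
    (hμ : ∀ R, μ (i ⁻¹' closedBall 0 R) < ⊤) {g w : ℝ × ℝ → ℝ} (hg : Continuous g)
    (hc : HasCompactSupport g) (hw : Continuous w) :
    (∀ n, Integrable (fun x => sm n g (i x) * w (i x)) μ) ∧
    Tendsto (fun n => ∫ x, sm n g (i x) * w (i x) ∂μ) atTop (𝓝 (∫ x, g (i x) * w (i x) ∂μ)) := by
  obtain ⟨A, R, hA0, hAR⟩ := sm_bound hg hc
  obtain ⟨W, hW⟩ := (isCompact_closedBall (0 : ℝ × ℝ) R).exists_bound_of_continuousOn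
    hw.continuousOn
  have hmeas : ∀ n, AEStronglyMeasurable (fun x => sm n g (i x) * w (i x)) μ := by
    intro n
    exact (((sm_contDiff n hg).continuous.measurable.comp hi).mul
      (hw.measurable.comp hi)).aestronglyMeasurable
  have hbd : ∀ n x, ‖sm n g (i x) * w (i x)‖ ≤
      (i ⁻¹' closedBall 0 R).indicator (fun _ => A * |W|) x := by
    intro n x
    by_cases hx : i x ∈ closedBall (0 : ℝ × ℝ) R
    · rw [indicator_of_mem (show x ∈ i ⁻¹' closedBall 0 R from hx), norm_mul]
      exact mul_le_mul (hAR n (i x)).1 ((hW _ hx).trans (le_abs_self W)) (norm_nonneg _) hA0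
    · rw [indicator_of_notMem (show x ∉ i ⁻¹' closedBall 0 R from hx)]
      rw [mem_closedBall_zero_iff, not_le] at hx
      rw [(hAR n (i x)).2 hx]
      simp
  have hint : Integrable ((i ⁻¹' closedBall 0 R).indicator (fun _ => A * |W|)) μ := by
    rw [integrable_indicator_iff (hi measurableSet_closedBall)]
    exact integrableOn_const (hμ R).ne
  constructor
  · intro n
    exact hint.mono' (hmeas n) (Eventually.of_forall (hbd n))
  · apply tendsto_integral_of_dominated_convergence _ hmeas hint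
      (fun n => Eventually.of_forall (hbd n))
    apply Eventually.of_forall
    intro x
    apply Tendsto.mul_const
    exact ContDiffBump.convolution_tendsto_right_of_continuous phi_tendsto hg (i x)

end FlatStokes

open FlatStokes Filter Topology Metric Set in
/-- Stokes for `u dv` on the upper half plane, both functions only C^1. -/
theorem flat_stokes (u v : ℝ × ℝ → ℝ) (hu : ContDiff ℝ 1 u) (hv : ContDiff ℝ 1 v)
    (hsupp : HasCompactSupport u) :
    ∫ p in {p : ℝ × ℝ | 0 < p.2},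
      (fderiv ℝ u p (1, 0) * fderiv ℝ v p (0, 1) - fderiv ℝ u p (0, 1) * fderiv ℝ v p (1, 0)) =
    ∫ t : ℝ, u (t, 0) * fderiv ℝ v (t, 0) (1, 0) := by
  have hcu : ∀ e : ℝ × ℝ, Continuous (fun p => fderiv ℝ u p e) := fun e =>
    (hu.continuous_fderiv one_ne_zero).clm_apply continuous_const
  have hcv : ∀ e : ℝ × ℝ, Continuous (fun p => fderiv ℝ v p e) := fun e =>
    (hv.continuous_fderiv one_ne_zero).clm_apply continuous_const
  have hsu : ∀ e : ℝ × ℝ, HasCompactSupport (fun p => fderiv ℝ u p e) := fun e =>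
    hsupp.fderiv_apply ℝ e
  set S : Set (ℝ × ℝ) := {p : ℝ × ℝ | 0 < p.2} with hS
  have hfin : ∀ R, (volume.restrict S) (id ⁻¹' closedBall (0 : ℝ × ℝ) R) < ⊤ := by
    intro R
    refine lt_of_le_of_lt (Measure.restrict_apply_le _ _) ?_
    exact measure_closedBall_lt_top
  have hfin1 : ∀ R, (volume : Measure ℝ) ((fun t : ℝ => (t, (0 : ℝ))) ⁻¹' closedBall (0 : ℝ × ℝ) R)
      < ⊤ := by
    intro R
    refine lt_of_le_of_lt (measure_mono (t := closedBall (0 : ℝ) R) ?_) measure_closedBall_lt_top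
    intro t ht
    rw [mem_preimage, mem_closedBall_zero_iff] at ht
    rw [mem_closedBall_zero_iff]
    exact (norm_fst_le (t, (0 : ℝ))).trans ht
  have L1 := sm_lim (volume.restrict S) id measurable_id hfin (hcu (1, 0)) (hsu (1, 0))
    (hcv (0, 1))
  have L2 := sm_lim (volume.restrict S) id measurable_id hfin (hcu (0, 1)) (hsu (0, 1))
    (hcv (1, 0))
  have L3 := sm_lim volume (fun t : ℝ => (t, (0 : ℝ)))
    (by fun_prop) hfin1 hu.continuous hsupp (hcv (1, 0))
  simp only [id] at L1 L2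
  have key : ∀ n, ∫ t : ℝ, sm n u (t, 0) * fderiv ℝ v (t, 0) (1, 0) =
      (∫ p in S, sm n (fun a => fderiv ℝ u a (1, 0)) p * fderiv ℝ v p (0, 1)) -
      (∫ p in S, sm n (fun a => fderiv ℝ u a (0, 1)) p * fderiv ℝ v p (1, 0)) := by
    intro n
    rw [← integral_sub (L1.1 n) (L2.1 n), ← smooth_case (sm n u) v
      (by exact_mod_cast (contDiff_infty.1 (sm_contDiff n hu.continuous) 2)) hv (sm_cs n hsupp)]
    simp only [sm_fderiv n hu hsupp]
    rfl
  have T := L1.2.sub L2.2
  simp only [← key] at T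
  have h := tendsto_nhds_unique T L3.2
  rw [← h]
  have i1 : Integrable (fun p => fderiv ℝ u p (1, 0) * fderiv ℝ v p (0, 1)) :=
    ((hcu _).mul (hcv _)).integrable_of_hasCompactSupport (hsu _).mul_right
  have i2 : Integrable (fun p => fderiv ℝ u p (0, 1) * fderiv ℝ v p (1, 0)) :=
    ((hcu _).mul (hcv _)).integrable_of_hasCompactSupport (hsu _).mul_right
  rw [integral_sub i1.integrableOn i2.integrableOn]

end Pool.Agent.Helper682.Coax.K3
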