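import Mathlib
set_option autoImplicit false
namespace Pool.Agent.Helper682.Coax.K4

namespace StrongMax

open InnerProductSpace Filter Topology

theorem harmonicOnNhd_of {U : Set ℂ} (hU : IsOpen U) {ψ : ℂ → ℝ} (hψ : ContDiff ℝ 2 ψ)
    (hharm : ∀ z ∈ U, iteratedFDeriv ℝ 2 ψ z ![(1 : ℂ), 1]
            + iteratedFDeriv ℝ 2 ψ z ![Complex.I, Complex.I] = 0) :
    HarmonicOnNhd ψ U := by
  intro z hz
  refine ⟨hψ.contDiffAt, ?_⟩
  filter_upwards [hU.mem_nhds hz] with w hw
  rw [laplacian_eq_iteratedFDeriv_complexPlane]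
  exact hharm w hw

theorem const_of_localMax {U : Set ℂ} (hU : IsOpen U) (hUc : IsConnected U) {ψ : ℂ → ℝ}
    (hψ : HarmonicOnNhd ψ U) {z₀ : ℂ} (hz₀ : z₀ ∈ U) (hmax : ∀ z ∈ U, ψ z ≤ ψ z₀) :
    ∀ z ∈ U, ψ z = ψ z₀ := by
  obtain ⟨ε, hε, hball⟩ := Metric.isOpen_iff.1 hU z₀ hz₀
  obtain ⟨F, hF1, hF2⟩ := HarmonicOnNhd.exists_analyticOnNhd_ball_re_eq (hψ.mono hball)
  have hnorm : ∀ z ∈ Metric.ball z₀ ε, ‖Complex.exp (F z)‖ = Real.exp (ψ z) := by
    intro z hz
    rw [Complex.norm_exp]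
    have := hF2 hz
    simp only at this
    rw [this]
  have hloc : IsLocalMax (norm ∘ fun z => Complex.exp (F z)) z₀ := by
    filter_upwards [Metric.ball_mem_nhds z₀ hε] with z hz
    simp only [Function.comp_apply]
    rw [hnorm z hz, hnorm z₀ (Metric.mem_ball_self hε)]
    exact Real.exp_le_exp.2 (hmax z (hball hz))
  have hd : ∀ᶠ z in 𝓝 z₀, DifferentiableAt ℂ (fun z => Complex.exp (F z)) z := by
    filter_upwards [Metric.ball_mem_nhds z₀ hε] with z hz
    exact (hF1 z hz).differentiableAt.cexp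
  have hev := Complex.eventually_eq_of_isLocalMax_norm hd hloc
  have hconst : ψ =ᶠ[𝓝 z₀] fun _ => ψ z₀ := by
    filter_upwards [hev, Metric.ball_mem_nhds z₀ hε] with z h1 h2
    have h3 := hnorm z h2
    rw [h1, hnorm z₀ (Metric.mem_ball_self hε)] at h3
    exact (Real.exp_injective h3).symm
  have hA : AnalyticOnNhd ℝ ψ U := fun z hz => HarmonicAt.analyticAt (hψ z hz)
  have hB : AnalyticOnNhd ℝ (fun _ : ℂ => ψ z₀) U := analyticOnNhd_const
  exact hA.eqOn_of_preconnected_of_eventuallyEq hB hUc.isPreconnected hz₀ hconst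

theorem lt_of_frontier {U : Set ℂ} (hU : IsOpen U) (hUc : IsConnected U)
    (hUb : Bornology.IsBounded U) {ψ : ℂ → ℝ} (hcont : Continuous ψ) (hψ : HarmonicOnNhd ψ U)
    {c : ℝ} (hle : ∀ z ∈ frontier U, ψ z ≤ c) (hne : ∃ z ∈ frontier U, ψ z < c) :
    ∀ z ∈ U, ψ z < c := by
  -- an interior maximum at least `c` is impossible
  have key : ∀ z₀ ∈ U, (∀ z ∈ U, ψ z ≤ ψ z₀) → c ≤ ψ z₀ → False := by
    intro z₀ hz₀ hmax hc
    have h1 := const_of_localMax hU hUc hψ hz₀ hmax
    obtain ⟨w, hw, hwc⟩ := hne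
    have h2 : w ∈ closure U := frontier_subset_closure hw
    have h3 : closure U ⊆ {z | ψ z = ψ z₀} :=
      closure_minimal h1 (isClosed_eq hcont continuous_const)
    have h4 : ψ w = ψ z₀ := h3 h2
    linarith
  intro z hz
  by_contra hcon
  rw [not_lt] at hcon
  have hcpt : IsCompact (closure U) := hUb.isCompact_closure
  obtain ⟨zm, hzm, hzmax⟩ := hcpt.exists_isMaxOn ⟨z, subset_closure hz⟩ hcont.continuousOn
  have hzm' : ∀ w ∈ closure U, ψ w ≤ ψ zm := fun w hw => hzmax hw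
  by_cases hin : zm ∈ U
  · exact key zm hin (fun w hw => hzm' w (subset_closure hw))
      (hcon.trans (hzm' z (subset_closure hz)))
  · have hfr : zm ∈ frontier U := ⟨hzm, by rwa [hU.interior_eq]⟩
    have h1 := hle zm hfr
    exact key z hz (fun w hw => (hzm' w (subset_closure hw)).trans (h1.trans hcon)) hcon

end StrongMax

/-- strong maximum principle: a `C^2` function on the plane, harmonic in a bounded connected open set,
with two constant boundary values on the boundary, is strictly between them inside. -/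
theorem strict_between {U A B : Set ℂ} (hU : IsOpen U) (hUc : IsConnected U)
    (hUb : Bornology.IsBounded U) (hfr : frontier U = A ∪ B) (hA : A.Nonempty) (hB : B.Nonempty)
    {ψ : ℂ → ℝ} (hψ : ContDiff ℝ 2 ψ)
    (hharm : ∀ z ∈ U, iteratedFDeriv ℝ 2 ψ z ![(1 : ℂ), 1]
            + iteratedFDeriv ℝ 2 ψ z ![Complex.I, Complex.I] = 0)
    {c₁ c₂ : ℝ} (hc : c₁ < c₂) (hA1 : ∀ z ∈ A, ψ z = c₁) (hB1 : ∀ z ∈ B, ψ z = c₂) :
    ∀ z ∈ U, c₁ < ψ z ∧ ψ z < c₂ := by
  have hh := StrongMax.harmonicOnNhd_of hU hψ hharm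
  obtain ⟨a, ha⟩ := hA
  obtain ⟨b, hb⟩ := hB
  have haf : a ∈ frontier U := by rw [hfr]; exact Or.inl ha
  have hbf : b ∈ frontier U := by rw [hfr]; exact Or.inr hb
  have h1 : ∀ z ∈ U, ψ z < c₂ := by
    apply StrongMax.lt_of_frontier hU hUc hUb hψ.continuous hh
    · intro z hz
      rw [hfr] at hz
      rcases hz with hz | hz
      · rw [hA1 z hz]; exact hc.le
      · rw [hB1 z hz]
    · exact ⟨a, haf, by rw [hA1 a ha]; exact hc⟩
  have h2 : ∀ z ∈ U, (-ψ) z < -c₁ := by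
    apply StrongMax.lt_of_frontier hU hUc hUb hψ.continuous.neg hh.neg
    · intro z hz
      rw [hfr] at hz
      rw [Pi.neg_apply]
      rcases hz with hz | hz
      · rw [hA1 z hz]
      · rw [hB1 z hz]; linarith
    · exact ⟨b, hbf, by rw [Pi.neg_apply, hB1 b hb]; linarith⟩
  intro z hz
  refine ⟨?_, h1 z hz⟩
  have := h2 z hz
  rw [Pi.neg_apply] at this
  linarith

/-- Hopf's lemma for a ball. -/
theorem hopf_ball {q p : ℂ} {r : ℝ} (hr : 0 < r) (hp : dist p q = r)
    {ψ : ℂ → ℝ} (hψ : ContDiff ℝ 2 ψ)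
    (hharm : ∀ z ∈ Metric.ball q r, iteratedFDeriv ℝ 2 ψ z ![(1 : ℂ), 1]
            + iteratedFDeriv ℝ 2 ψ z ![Complex.I, Complex.I] = 0)
    (hpos : ∀ z ∈ Metric.ball q r, ψ p < ψ z) :
    0 < fderiv ℝ ψ p (q - p) := by
  have hh := StrongMax.harmonicOnNhd_of Metric.isOpen_ball hψ hharm
  obtain ⟨F, hF1, hF2⟩ := InnerProductSpace.HarmonicOnNhd.exists_analyticOnNhd_ball_re_eq hh
  have hq : q ∈ Metric.ball q r := Metric.mem_ball_self hr
  have hRe : ∀ z ∈ Metric.ball q r, (F z).re = ψ z := fun z hz => hF2 hz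
  obtain ⟨a, ha⟩ : ∃ a, a = ψ q - ψ p := ⟨_, rfl⟩
  have ha0 : 0 < a := by rw [ha]; linarith [hpos q hq]
  -- Harnack inequality
  have harnack : ∀ z ∈ Metric.ball q r,
      a * (1 - dist z q / r) ≤ (ψ z - ψ p) * (1 + dist z q / r) := by
    intro z hz
    let G : ℂ → ℂ := fun w => F w - (ψ p : ℂ)
    let w₀ : ℂ := G q
    have hGre : ∀ w ∈ Metric.ball q r, (G w).re = ψ w - ψ p := by
      intro w hw
      simp only [G, Complex.sub_re, Complex.ofReal_re, hRe w hw]
    have hw₀ : w₀.re = a := by rw [ha]; exact hGre q hq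
    have hden : ∀ w ∈ Metric.ball q r, G w + (starRingEnd ℂ) w₀ ≠ 0 := by
      intro w hw h
      have h1 := congrArg Complex.re h
      rw [Complex.add_re, Complex.conj_re, hGre w hw, hw₀, Complex.zero_re] at h1
      have := hpos w hw
      linarith
    let φ : ℂ → ℂ := fun w => (G w - w₀) / (G w + (starRingEnd ℂ) w₀)
    have hφd : DifferentiableOn ℂ φ (Metric.ball q r) := by
      have hFd : DifferentiableOn ℂ F (Metric.ball q r) := hF1.differentiableOn
      have hGd : DifferentiableOn ℂ G (Metric.ball q r) := hFd.sub_const _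
      exact (hGd.sub_const _).div (hGd.add_const _) hden
    have hsq : ∀ w, Complex.normSq (G w - w₀) =
        ((G w).re - w₀.re) ^ 2 + ((G w).im - w₀.im) ^ 2 := by
      intro w
      rw [Complex.normSq_apply, Complex.sub_re, Complex.sub_im]; ring
    have hsq2 : ∀ w, Complex.normSq (G w + (starRingEnd ℂ) w₀) =
        ((G w).re + w₀.re) ^ 2 + ((G w).im - w₀.im) ^ 2 := by
      intro w
      rw [Complex.normSq_apply, Complex.add_re, Complex.add_im, Complex.conj_re, Complex.conj_im]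
      ring
    have hφq : φ q = 0 := by
      simp only [φ, w₀, sub_self, zero_div]
    have hmaps : Set.MapsTo φ (Metric.ball q r) (Metric.ball (φ q) 1) := by
      intro w hw
      rw [hφq, mem_ball_zero_iff]
      simp only [φ]
      rw [norm_div, div_lt_one (norm_pos_iff.2 (hden w hw))]
      rw [← sq_lt_sq₀ (norm_nonneg _) (norm_nonneg _), ← Complex.normSq_eq_norm_sq,
        ← Complex.normSq_eq_norm_sq, hsq, hsq2, hGre w hw, hw₀]
      have h1 := hpos w hw
      nlinarith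
    have hsch := Complex.dist_le_div_mul_dist_of_mapsTo_ball hφd
      (hmaps.mono_right Metric.ball_subset_closedBall) hz
    rw [hφq, dist_zero_right] at hsch
    have ht : ‖φ z‖ ≤ dist z q / r := by
      calc ‖φ z‖ ≤ 1 / r * dist z q := hsch
        _ = dist z q / r := by ring
    obtain ⟨t, htd⟩ : ∃ t, t = dist z q / r := ⟨_, rfl⟩
    rw [← htd] at ht ⊢
    have ht0 : 0 ≤ t := by rw [htd]; positivity
    have ht1 : t < 1 := by
      rw [htd, div_lt_one hr]
      exact hz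
    have hn : ‖G z - w₀‖ ≤ t * ‖G z + (starRingEnd ℂ) w₀‖ := by
      have h1 : ‖φ z‖ = ‖G z - w₀‖ / ‖G z + (starRingEnd ℂ) w₀‖ := by
        simp only [φ]; rw [norm_div]
      rw [h1, div_le_iff₀ (norm_pos_iff.2 (hden z hz))] at ht
      exact ht
    have hn2 : ‖G z - w₀‖ ^ 2 ≤ t ^ 2 * ‖G z + (starRingEnd ℂ) w₀‖ ^ 2 := by
      rw [← mul_pow]
      exact pow_le_pow_left₀ (norm_nonneg _) hn 2
    rw [← Complex.normSq_eq_norm_sq, ← Complex.normSq_eq_norm_sq, hsq, hsq2, hGre z hz, hw₀] at hn2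
    obtain ⟨u, hu⟩ : ∃ u, u = ψ z - ψ p := ⟨_, rfl⟩
    rw [← hu] at hn2 ⊢
    have hu0 : 0 < u := by rw [hu]; linarith [hpos z hz]
    have h5 : (u - a) ^ 2 ≤ (t * (u + a)) ^ 2 := by
      have h6 : 0 ≤ (1 - t ^ 2) * ((G z).im - w₀.im) ^ 2 := by
        apply mul_nonneg _ (sq_nonneg _)
        nlinarith
      nlinarith
    have h7 : |u - a| ≤ t * (u + a) := by
      have := sq_le_sq.1 h5
      rwa [abs_of_nonneg (show 0 ≤ t * (u + a) by positivity)] at this
    have h8 := (abs_le.1 h7).1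
    nlinarith
  -- differential quotient
  have hpq : ‖q - p‖ = r := by
    rw [← dist_eq_norm, dist_comm]; exact hp
  have hline : HasDerivAt (fun s : ℝ => ψ (p + (s : ℂ) * (q - p))) (fderiv ℝ ψ p (q - p)) 0 := by
    have h1 : HasFDerivAt ψ (fderiv ℝ ψ p) (p + ((0 : ℝ) : ℂ) * (q - p)) := by
      simpa using (hψ.differentiable (by norm_num) p).hasFDerivAt
    have h2 : HasDerivAt (fun s : ℝ => p + (s : ℂ) * (q - p)) (q - p) 0 := by
      have h3 : HasDerivAt (fun s : ℝ => (s : ℂ)) 1 (0 : ℝ) := Complex.ofRealCLM.hasDerivAt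
      have h4 := (h3.mul_const (q - p)).const_add p
      simpa using h4
    exact h1.comp_hasDerivAt (0 : ℝ) h2
  have hlow : ∀ s : ℝ, 0 < s → s < 1 → a / 2 ≤ s⁻¹ * (ψ (p + (s : ℂ) * (q - p)) - ψ p) := by
    intro s hs0 hs1
    have hdist : dist (p + (s : ℂ) * (q - p)) q = (1 - s) * r := by
      rw [dist_eq_norm, show p + (s : ℂ) * (q - p) - q = ((1 - s : ℝ) : ℂ) * (p - q) by
        push_cast; ring, norm_mul, Complex.norm_real, Real.norm_eq_abs,
        abs_of_pos (by linarith), ← dist_eq_norm, hp]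
    have hmem : p + (s : ℂ) * (q - p) ∈ Metric.ball q r := by
      rw [Metric.mem_ball, hdist]
      nlinarith
    have h1 := harnack _ hmem
    rw [hdist, mul_div_assoc, div_self hr.ne', mul_one] at h1
    have h2 : 0 < ψ (p + (s : ℂ) * (q - p)) - ψ p := by linarith [hpos _ hmem]
    rw [inv_mul_eq_div, le_div_iff₀ hs0]
    nlinarith
  have hslope := hline.tendsto_slope_zero_right
  have hge : a / 2 ≤ fderiv ℝ ψ p (q - p) := by
    refine ge_of_tendsto hslope ?_
    have h1 : ∀ᶠ s : ℝ in nhdsWithin 0 (Set.Ioi 0), s < 1 :=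
      mem_nhdsWithin_of_mem_nhds (Iio_mem_nhds (by norm_num))
    filter_upwards [h1, self_mem_nhdsWithin] with s hs1 hs0
    have h2 := hlow s hs0 hs1
    simpa using h2
  linarith

end Pool.Agent.Helper682.Coax.K4
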