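import Mathlib
set_option autoImplicit false
namespace Pool.Agent.Helper682.Coax.K5

/-- final calculus: rescaling the comparison annulus -/
theorem final_calc {τ L M V α : ℝ} (hτ : 0 < τ) (hL : 0 < L)
    (hV : Real.pi * τ ^ 2 * Real.exp (-2 * M) * (Real.exp (2 * L) - 1) / L ^ 2 ≤ V)
    (hα : (Real.exp M + Real.exp (M - L)) / τ ≤ α) :
    ∃ a b : ℝ, 0 < a ∧ a < b ∧ Real.pi * (b ^ 2 - a ^ 2) = V ∧
      (1 / a + 1 / b) / Real.log (b / a) ≤ α := by
  have hpi := Real.pi_pos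
  have hE : 0 < Real.exp (2 * L) - 1 := by
    have : 1 < Real.exp (2 * L) := Real.one_lt_exp_iff.2 (by linarith)
    linarith
  obtain ⟨r, hr⟩ : ∃ r, r = τ * Real.exp (-M) / L := ⟨_, rfl⟩
  have hr0 : 0 < r := by rw [hr]; positivity
  have hr2 : r ^ 2 = τ ^ 2 * Real.exp (-2 * M) / L ^ 2 := by
    rw [hr, div_pow, mul_pow, ← Real.exp_nat_mul]
    congr 3
    push_cast
    ring
  have hV1 : Real.pi * r ^ 2 * (Real.exp (2 * L) - 1) ≤ V := by
    rw [hr2]
    calc Real.pi * (τ ^ 2 * Real.exp (-2 * M) / L ^ 2) * (Real.exp (2 * L) - 1)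
        = Real.pi * τ ^ 2 * Real.exp (-2 * M) * (Real.exp (2 * L) - 1) / L ^ 2 := by ring
      _ ≤ V := hV
  have hD : 0 < Real.pi * r ^ 2 * (Real.exp (2 * L) - 1) := by positivity
  obtain ⟨s, hs⟩ : ∃ s, s = Real.sqrt (V / (Real.pi * r ^ 2 * (Real.exp (2 * L) - 1))) := ⟨_, rfl⟩
  have hs1 : 1 ≤ s := by
    rw [hs, Real.one_le_sqrt, one_le_div hD]
    exact hV1
  have hs0 : 0 < s := by linarith
  have hs2 : s ^ 2 * (Real.pi * r ^ 2 * (Real.exp (2 * L) - 1)) = V := by
    rw [hs, Real.sq_sqrt (div_nonneg (by linarith) hD.le)]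
    field_simp
  have ha0 : 0 < s * r := by positivity
  have hba : s * r * Real.exp L / (s * r) = Real.exp L := by
    field_simp
  refine ⟨s * r, s * r * Real.exp L, ha0, ?_, ?_, ?_⟩
  · have : 1 < Real.exp L := Real.one_lt_exp_iff.2 hL
    nlinarith
  · rw [← hs2]
    have : Real.exp (2 * L) = Real.exp L ^ 2 := by
      rw [← Real.exp_nat_mul]; push_cast; rfl
    rw [this]
    ring
  · rw [hba, Real.log_exp]
    have e1 : (1 / (s * r) + 1 / (s * r * Real.exp L)) / L =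
        ((Real.exp M + Real.exp (M - L)) / τ) / s := by
      rw [hr, Real.exp_neg, Real.exp_sub]
      field_simp
    rw [e1]
    have h0 : 0 ≤ (Real.exp M + Real.exp (M - L)) / τ := by positivity
    calc ((Real.exp M + Real.exp (M - L)) / τ) / s ≤ (Real.exp M + Real.exp (M - L)) / τ :=
          div_le_self h0 hs1
      _ ≤ α := hα

end Pool.Agent.Helper682.Coax.K5
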