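import Mathlib
import Pool.Agent.Helper682.Coax.K1
import Pool.Agent.Helper682.Coax.K2
import Pool.Agent.Helper682.Coax.K3
import Pool.Agent.Helper682.Coax.K4
import Pool.Agent.Helper682.Coax.K5
set_option autoImplicit false
open MeasureTheory
namespace Pool.Agent.Helper682.Coax

theorem umlauf (γ : ℝ → ℂ) (hγ : ContDiff ℝ 2 γ) (hper : Function.Periodic γ 1)
    (hinj : Set.InjOn γ (Set.Ico 0 1)) (hreg : ∀ t, deriv γ t ≠ 0) (t0 : ℝ)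
    (hmax : ∀ t, (γ t).re ≤ (γ t0).re) (hup : 0 < (deriv γ t0).im) :
    ∫ t in (0:ℝ)..1, (deriv (deriv γ) t / deriv γ t).im = 2 * Real.pi := by
  exact K1.umlauf γ hγ hper hinj hreg t0 hmax hup

theorem hausdorff_curve (γ : ℝ → ℂ) (hγ : ContDiff ℝ 1 γ) (hper : Function.Periodic γ 1)
    (hinj : Set.InjOn γ (Set.Ico 0 1)) (f : ℂ → ℝ) (hf : Continuous f) (hf0 : ∀ z, 0 ≤ f z) :
    IntegrableOn f (Set.range γ) (Measure.hausdorffMeasure 1) ∧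
    ∫ t in (0:ℝ)..1, f (γ t) * ‖deriv γ t‖ ≤
      ∫ z in Set.range γ, f z ∂(Measure.hausdorffMeasure 1) := by
  exact K2.hausdorff_curve γ hγ hper hinj f hf hf0

theorem flat_stokes (u v : ℝ × ℝ → ℝ) (hu : ContDiff ℝ 1 u) (hv : ContDiff ℝ 1 v)
    (hsupp : HasCompactSupport u) :
    ∫ p in {p : ℝ × ℝ | 0 < p.2},
      (fderiv ℝ u p (1, 0) * fderiv ℝ v p (0, 1) - fderiv ℝ u p (0, 1) * fderiv ℝ v p (1, 0)) =
    ∫ t : ℝ, u (t, 0) * fderiv ℝ v (t, 0) (1, 0) := by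
  exact K3.flat_stokes u v hu hv hsupp

theorem strict_between {U A B : Set ℂ} (hU : IsOpen U) (hUc : IsConnected U)
    (hUb : Bornology.IsBounded U) (hfr : frontier U = A ∪ B) (hA : A.Nonempty) (hB : B.Nonempty)
    {ψ : ℂ → ℝ} (hψ : ContDiff ℝ 2 ψ)
    (hharm : ∀ z ∈ U, iteratedFDeriv ℝ 2 ψ z ![(1 : ℂ), 1]
            + iteratedFDeriv ℝ 2 ψ z ![Complex.I, Complex.I] = 0)
    {c₁ c₂ : ℝ} (hc : c₁ < c₂) (hA1 : ∀ z ∈ A, ψ z = c₁) (hB1 : ∀ z ∈ B, ψ z = c₂) :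
    ∀ z ∈ U, c₁ < ψ z ∧ ψ z < c₂ := by
  exact K4.strict_between hU hUc hUb hfr hA hB hψ hharm hc hA1 hB1

theorem hopf_ball {q p : ℂ} {r : ℝ} (hr : 0 < r) (hp : dist p q = r)
    {ψ : ℂ → ℝ} (hψ : ContDiff ℝ 2 ψ)
    (hharm : ∀ z ∈ Metric.ball q r, iteratedFDeriv ℝ 2 ψ z ![(1 : ℂ), 1]
            + iteratedFDeriv ℝ 2 ψ z ![Complex.I, Complex.I] = 0)
    (hpos : ∀ z ∈ Metric.ball q r, ψ p < ψ z) :
    0 < fderiv ℝ ψ p (q - p) := by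
  exact K4.hopf_ball hr hp hψ hharm hpos

theorem final_calc {τ L M V α : ℝ} (hτ : 0 < τ) (hL : 0 < L)
    (hV : Real.pi * τ ^ 2 * Real.exp (-2 * M) * (Real.exp (2 * L) - 1) / L ^ 2 ≤ V)
    (hα : (Real.exp M + Real.exp (M - L)) / τ ≤ α) :
    ∃ a b : ℝ, 0 < a ∧ a < b ∧ Real.pi * (b ^ 2 - a ^ 2) = V ∧
      (1 / a + 1 / b) / Real.log (b / a) ≤ α := by
  exact K5.final_calc hτ hL hV hα

end Pool.Agent.Helper682.Coax
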