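import Mathlib

set_option autoImplicit false

namespace Pool.Agent.Helper682.Coax

open Set Filter Topology Metric MeasureTheory Complex

/-- simple closed regular smooth curve -/
structure Cv (γ : ℝ → ℂ) : Prop where
  smooth : ContDiff ℝ (⊤ : ℕ∞) γ
  per : Function.Periodic γ 1
  inj : InjOn γ (Ico 0 1)
  reg : ∀ t, deriv γ t ≠ 0

namespace Cv
variable {γ : ℝ → ℂ} (h : Cv γ)
include h

theorem diff : Differentiable ℝ γ := h.smooth.differentiable (by simp)
theorem cont : Continuous γ := h.smooth.continuous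
theorem hasDeriv (t : ℝ) : HasDerivAt γ (deriv γ t) t := (h.diff t).hasDerivAt
theorem smooth' : ContDiff ℝ (⊤ : ℕ∞) (deriv γ) := by
  have := h.smooth
  have h2 : ContDiff ℝ ((⊤ : ℕ∞) + 1) γ := by simpa using this
  exact (contDiff_succ_iff_deriv.1 h2).2.2
theorem diff' : Differentiable ℝ (deriv γ) := h.smooth'.differentiable (by simp)
theorem cont' : Continuous (deriv γ) := h.smooth'.continuous

theorem inj' {t t' : ℝ} (ht : γ t = γ t') : ∃ k : ℤ, t' = t + k := by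
  have h1 : γ (Int.fract t) = γ (Int.fract t') := by
    have e1 : ∀ s : ℝ, γ (Int.fract s) = γ s := by
      intro s
      have := h.per.sub_int_mul_eq (x := s) ⌊s⌋
      rw [mul_one] at this
      exact this
    rw [e1, e1, ht]
  have h2 := h.inj ⟨Int.fract_nonneg t, Int.fract_lt_one t⟩ ⟨Int.fract_nonneg t', Int.fract_lt_one t'⟩ h1
  obtain ⟨k, hk⟩ := Int.fract_eq_fract.1 h2.symm
  exact ⟨k, by linarith⟩

theorem compact : IsCompact (range γ) := by
  have : range γ = γ '' Icc 0 1 := by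
    apply subset_antisymm
    · rintro _ ⟨t, rfl⟩
      refine ⟨Int.fract t, ⟨Int.fract_nonneg t, (Int.fract_lt_one t).le⟩, ?_⟩
      have := h.per.sub_int_mul_eq (x := t) ⌊t⌋
      rw [mul_one] at this
      exact this
    · rintro _ ⟨t, _, rfl⟩; exact ⟨t, rfl⟩
  rw [this]
  exact isCompact_Icc.image h.cont

end Cv

/-- the real linear map `v ↦ v.re A + v.im B` -/
noncomputable def NN (A B : ℂ) : ℂ →L[ℝ] ℂ := reCLM.smulRight A + imCLM.smulRight B

theorem NN_apply (A B v : ℂ) : NN A B v = v.re * A + v.im * B := by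
  simp [NN]

theorem NN_det (A B : ℂ) : (NN A B).det = A.re * B.im - A.im * B.re := by
  have h : (NN A B).det = LinearMap.det (NN A B : ℂ →ₗ[ℝ] ℂ) := rfl
  rw [h, ← LinearMap.det_toMatrix basisOneI, Matrix.det_fin_two]
  simp only [LinearMap.toMatrix_apply, ContinuousLinearMap.coe_coe, NN_apply]
  simp only [coe_basisOneI, coe_basisOneI_repr, Matrix.cons_val_zero, Matrix.cons_val_one]
  simp
  ring

/-- chart -/
noncomputable def Ps (γ : ℝ → ℂ) (t0 : ℝ) (w : ℂ) : ℂ := γ w.re + w.im * (I * deriv γ t0)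

/-- open box -/
def Bx (t0 ε : ℝ) : Set ℂ := {w | |w.re - t0| < ε ∧ |w.im| < ε}

theorem Bx_open (t0 ε : ℝ) : IsOpen (Bx t0 ε) := by
  have h1 : IsOpen {w : ℂ | |w.re - t0| < ε} := isOpen_lt (by fun_prop) continuous_const
  have h2 : IsOpen {w : ℂ | |w.im| < ε} := isOpen_lt (by fun_prop) continuous_const
  exact h1.inter h2

theorem Ps_deriv {γ : ℝ → ℂ} (h : Cv γ) (t0 : ℝ) (w : ℂ) :
    HasStrictFDerivAt (Ps γ t0) (NN (deriv γ w.re) (I * deriv γ t0)) w := by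
  have h1 : HasStrictDerivAt γ (deriv γ w.re) w.re :=
    (h.smooth.contDiffAt.hasStrictDerivAt (by simp))
  have h2 : HasStrictFDerivAt (fun w : ℂ => γ w.re) (reCLM.smulRight (deriv γ w.re)) w := by
    have := h1.hasStrictFDerivAt.comp w reCLM.hasStrictFDerivAt
    refine this.congr_fderiv ?_
    ext v
    simp
  have h3 : HasStrictFDerivAt (fun w : ℂ => ((w.im : ℝ) : ℂ) * (I * deriv γ t0))
      (imCLM.smulRight (I * deriv γ t0)) w := by
    have := (ofRealCLM.hasStrictFDerivAt.comp w imCLM.hasStrictFDerivAt).mul_const' (I * deriv γ t0)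
    refine this.congr_fderiv ?_
    ext v
    simp
  exact h2.add h3

theorem Ps_det (γ : ℝ → ℂ) (t0 : ℝ) (w : ℂ) : (NN (deriv γ w.re) (I * deriv γ t0)).det =
    (deriv γ w.re).re * (deriv γ t0).re + (deriv γ w.re).im * (deriv γ t0).im := by
  rw [NN_det]
  simp

theorem map_nhds_of_det {f : ℂ → ℂ} {f' : ℂ →L[ℝ] ℂ} {z : ℂ} (h : HasStrictFDerivAt f f' z)
    (hd : f'.det ≠ 0) : map f (𝓝 z) = 𝓝 (f z) := by
  rw [← ContinuousLinearMap.coe_toContinuousLinearEquivOfDetNeZero f' hd] at h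
  exact h.map_nhds_eq_of_equiv

theorem injOn_nhds_of_det {f : ℂ → ℂ} {f' : ℂ →L[ℝ] ℂ} {z : ℂ} (h : HasStrictFDerivAt f f' z)
    (hd : f'.det ≠ 0) : ∃ s ∈ 𝓝 z, InjOn f s := by
  rw [← ContinuousLinearMap.coe_toContinuousLinearEquivOfDetNeZero f' hd] at h
  refine ⟨(h.toOpenPartialHomeomorph f).source, (h.toOpenPartialHomeomorph f).open_source.mem_nhds
    h.mem_toOpenPartialHomeomorph_source, ?_⟩
  exact (h.toOpenPartialHomeomorph f).injOn

theorem exists_Bx {t0 : ℝ} {s : Set ℂ} (hs : s ∈ 𝓝 (t0 : ℂ)) : ∃ ε > 0, Bx t0 ε ⊆ s := by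
  obtain ⟨δ, hδ, hb⟩ := Metric.mem_nhds_iff.1 hs
  refine ⟨δ / 2, by positivity, fun w hw => hb ?_⟩
  rw [mem_ball, dist_eq]
  have h1 := norm_le_abs_re_add_abs_im (w - t0)
  have h2 := hw.1
  have h3 := hw.2
  simp only [sub_re, ofReal_re, sub_im, ofReal_im, sub_zero] at h1
  linarith

theorem Bx_mono {t0 ε ε' : ℝ} (h : ε ≤ ε') : Bx t0 ε ⊆ Bx t0 ε' :=
  fun _ hw => ⟨hw.1.trans_le h, hw.2.trans_le h⟩

/-- local chart -/
structure Chart (γ : ℝ → ℂ) (t0 ε : ℝ) (F : Set ℂ) : Prop where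
  pos : 0 < ε
  small : ε ≤ 1 / 4
  inj : InjOn (Ps γ t0) (Bx t0 ε)
  det : ∀ w ∈ Bx t0 ε, 0 < (NN (deriv γ w.re) (I * deriv γ t0)).det
  cur : ∀ w ∈ Bx t0 ε, Ps γ t0 w ∈ range γ → w.im = 0
  far : ∀ w ∈ Bx t0 ε, Ps γ t0 w ∉ F

theorem Ps_real (γ : ℝ → ℂ) (t0 t : ℝ) : Ps γ t0 (t : ℂ) = γ t := by simp [Ps]

theorem exists_chart {γ : ℝ → ℂ} (h : Cv γ) (t0 : ℝ) {F : Set ℂ} (hF : IsClosed F) (hF0 : γ t0 ∉ F) :
    ∃ ε, Chart γ t0 ε F := by
  have hd0 : 0 < (NN (deriv γ (t0 : ℂ).re) (I * deriv γ t0)).det := by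
    rw [Ps_det, ofReal_re]
    have := h.reg t0
    have h2 : 0 < normSq (deriv γ t0) := normSq_pos.2 this
    rw [normSq_apply] at h2
    exact h2
  obtain ⟨s1, hs1, hinj⟩ := injOn_nhds_of_det (Ps_deriv h t0 t0) hd0.ne'
  have hdc : Continuous fun w : ℂ => (NN (deriv γ w.re) (I * deriv γ t0)).det := by
    simp only [Ps_det]
    have := h.cont'
    fun_prop
  have hs2 : {w : ℂ | 0 < (NN (deriv γ w.re) (I * deriv γ t0)).det} ∈ 𝓝 (t0 : ℂ) :=
    (isOpen_lt continuous_const hdc).mem_nhds hd0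
  obtain ⟨ε1, hε1, hb1⟩ := exists_Bx (inter_mem hs1 hs2)
  set ε2 := min ε1 (1 / 4) with hε2
  have hε2pos : 0 < ε2 := lt_min hε1 (by norm_num)
  -- far part of the curve
  set C := γ '' Icc (t0 + ε2) (t0 + 1 - ε2) with hC
  have hCc : IsCompact C := isCompact_Icc.image h.cont
  have hC0 : γ t0 ∉ C := by
    rintro ⟨t, ht, hte⟩
    obtain ⟨k, hk⟩ := h.inj' hte
    have hk1 : (k : ℝ) < 0 := by linarith [ht.1]
    have hk2 : (-1 : ℝ) < k := by linarith [ht.2]
    have hk3 : k < 0 := by exact_mod_cast hk1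
    have hk4 : -1 < k := by exact_mod_cast hk2
    omega
  have hPc : Continuous (Ps γ t0) := by
    unfold Ps
    have := h.cont
    fun_prop
  have hs3 : Ps γ t0 ⁻¹' (Cᶜ ∩ Fᶜ) ∈ 𝓝 (t0 : ℂ) := by
    apply hPc.continuousAt.preimage_mem_nhds
    rw [Ps_real]
    exact (hCc.isClosed.isOpen_compl.inter hF.isOpen_compl).mem_nhds ⟨hC0, hF0⟩
  obtain ⟨ε3, hε3, hb3⟩ := exists_Bx hs3
  refine ⟨min ε2 ε3, lt_min hε2pos hε3, (min_le_left _ _).trans (min_le_right _ _), ?_, ?_, ?_, ?_⟩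
  · exact hinj.mono fun w hw => (hb1 (Bx_mono ((min_le_left _ _).trans (min_le_left _ _)) hw)).1
  · intro w hw
    exact (hb1 (Bx_mono ((min_le_left _ _).trans (min_le_left _ _)) hw)).2
  · rintro w hw ⟨t, ht⟩
    -- reduce t modulo 1 to (t0 - 1/2, t0 + 1/2]
    have hw1 : w ∈ Bx t0 ε1 := Bx_mono ((min_le_left _ _).trans (min_le_left _ _)) hw
    have hw3 := hb3 (Bx_mono (min_le_right _ _) hw)
    set t' := toIcoMod (zero_lt_one' ℝ) t0 t with ht'
    have hmem := toIcoMod_mem_Ico (zero_lt_one' ℝ) t0 t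
    have hγt' : γ t' = Ps γ t0 w := by
      rw [← ht, ht', toIcoMod]
      have := h.per.sub_zsmul_eq (x := t) (toIcoDiv (zero_lt_one' ℝ) t0 t)
      exact this
    have hnC : Ps γ t0 w ∉ C := hw3.1
    rw [← hγt'] at hnC
    have hcase : t' < t0 + ε2 ∨ t0 + 1 - ε2 < t' := by
      by_contra hn
      push Not at hn
      exact hnC ⟨t', ⟨hn.1, hn.2⟩, rfl⟩
    rcases hcase with hc | hc
    · have hmem' : (t' : ℂ) ∈ Bx t0 ε1 := by
        refine ⟨?_, ?_⟩
        · rw [ofReal_re, abs_lt]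
          have : ε2 ≤ ε1 := min_le_left _ _
          constructor <;> linarith [hmem.1]
        · rw [ofReal_im, abs_zero]; exact hε1
      have := hinj (hb1 hmem').1 (hb1 hw1).1 (by rw [Ps_real, hγt'])
      rw [← this, ofReal_im]
    · have hmem' : ((t' - 1 : ℝ) : ℂ) ∈ Bx t0 ε1 := by
        refine ⟨?_, ?_⟩
        · rw [ofReal_re, abs_lt]
          have : ε2 ≤ ε1 := min_le_left _ _
          constructor <;> linarith [hmem.2]
        · rw [ofReal_im, abs_zero]; exact hε1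
      have hγ2 : γ (t' - 1) = Ps γ t0 w := by rw [← hγt']; exact h.per.sub_eq t'
      have := hinj (hb1 hmem').1 (hb1 hw1).1 (by rw [Ps_real, hγ2])
      rw [← this, ofReal_im]
  · intro w hw
    exact (hb3 (Bx_mono (min_le_right _ _) hw)).2

end Pool.Agent.Helper682.Coax
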