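import Mathlib
import Pool.Agent.Helper682.Coax.D0
import Pool.Agent.Helper682.Coax.D1

set_option autoImplicit false

namespace Pool.Agent.Helper682.Coax

open Set Filter Topology Metric MeasureTheory Complex

/-- jacobian bracket `u_x v_y - u_y v_x` -/
noncomputable def br (u v : ℂ → ℝ) (z : ℂ) : ℝ :=
  fderiv ℝ u z 1 * fderiv ℝ v z I - fderiv ℝ u z I * fderiv ℝ v z 1

theorem fd_apply (f : ℂ → ℝ) (z A : ℂ) : fderiv ℝ f z A = A.re * fderiv ℝ f z 1 + A.im * fderiv ℝ f z I := by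
  have h : A = (A.re : ℝ) • (1 : ℂ) + (A.im : ℝ) • I := by
    simp only [real_smul, mul_one]
    exact (re_add_im A).symm
  conv_lhs => rw [h]
  rw [map_add, map_smul, map_smul, smul_eq_mul, smul_eq_mul]

theorem br_cont {u v : ℂ → ℝ} (hu : ContDiff ℝ 1 u) (hv : ContDiff ℝ 1 v) : Continuous (br u v) := by
  unfold br
  have h1 := hu.continuous_fderiv (by simp)
  have h2 := hv.continuous_fderiv (by simp)
  fun_prop

theorem br_comp {u v : ℂ → ℝ} {f : ℂ → ℂ} {A B w : ℂ} (hu : DifferentiableAt ℝ u (f w))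
    (hv : DifferentiableAt ℝ v (f w)) (hf : HasFDerivAt f (NN A B) w) :
    br (u ∘ f) (v ∘ f) w = (NN A B).det * br u v (f w) := by
  unfold br
  rw [fderiv_comp w hu hf.differentiableAt, fderiv_comp w hv hf.differentiableAt, hf.fderiv, NN_det]
  simp only [ContinuousLinearMap.comp_apply, NN_apply, one_re, one_im, I_re, I_im, ofReal_one,
    ofReal_zero, one_mul, zero_mul, add_zero, zero_add]
  rw [fd_apply u (f w) A, fd_apply u (f w) B, fd_apply v (f w) A, fd_apply v (f w) B]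
  ring

theorem flat_up {u v : ℂ → ℝ} (hu : ContDiff ℝ 1 u) (hv : ContDiff ℝ 1 v) (hs : HasCompactSupport u) :
    ∫ w in {w : ℂ | 0 < w.im}, br u v w = ∫ t : ℝ, u t * fderiv ℝ v t 1 := by
  set e : (ℝ × ℝ) ≃L[ℝ] ℂ := equivRealProdCLM.symm with he
  have heapp : ∀ p : ℝ × ℝ, e p = p.1 + p.2 * I := by
    intro p
    simp [he, equivRealProdCLM_symm_apply]
  have h := flat_stokes (u ∘ e) (v ∘ e) (hu.comp e.contDiff) (hv.comp e.contDiff)
    (hs.comp_homeomorph e.toHomeomorph)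
  have e1 : ∀ (f : ℂ → ℝ) (hf : ContDiff ℝ 1 f) (p q : ℝ × ℝ), fderiv ℝ (f ∘ e) p q = fderiv ℝ f (e p) (e q) := by
    intro f hf p q
    rw [fderiv_comp p (hf.differentiable (by simp) _) e.differentiableAt, e.fderiv]
    rfl
  have e10 : e (1, 0) = 1 := by rw [heapp]; simp
  have e01 : e (0, 1) = I := by rw [heapp]; simp
  simp only [e1 u hu, e1 v hv, e10, e01] at h
  have e2 : ∀ t : ℝ, e (t, 0) = (t : ℂ) := by intro t; rw [heapp]; simp
  simp only [Function.comp_apply, e2] at h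
  rw [← h]
  have hmp := volume_preserving_equiv_real_prod.symm
  have hpre : {p : ℝ × ℝ | 0 < p.2} = measurableEquivRealProd.symm ⁻¹' {w : ℂ | 0 < w.im} := by
    ext p
    simp [measurableEquivRealProd]
  have hkey := hmp.setIntegral_preimage_emb measurableEquivRealProd.symm.measurableEmbedding
    (br u v) {w : ℂ | 0 < w.im}
  rw [← hpre] at hkey
  rw [← hkey]
  apply integral_congr_ae
  apply Filter.Eventually.of_forall
  intro p
  have : (measurableEquivRealProd.symm p : ℂ) = e p := by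
    rw [heapp]
    apply Complex.ext <;> simp [measurableEquivRealProd]
  simp only [this, br]

theorem conj_deriv (f : ℂ → ℝ) (hf : ContDiff ℝ 1 f) (w v : ℂ) :
    fderiv ℝ (f ∘ (starRingEnd ℂ)) w v = fderiv ℝ f ((starRingEnd ℂ) w) ((starRingEnd ℂ) v) := by
  have h1 : HasFDerivAt (fun z : ℂ => (starRingEnd ℂ) z) (conjCLE : ℂ →L[ℝ] ℂ) w := conjCLE.hasFDerivAt
  have h2 := ((hf.differentiable (by simp)) ((starRingEnd ℂ) w)).hasFDerivAt.comp w h1
  rw [HasFDerivAt.fderiv h2]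
  simp

theorem flat_down {u v : ℂ → ℝ} (hu : ContDiff ℝ 1 u) (hv : ContDiff ℝ 1 v) (hs : HasCompactSupport u) :
    ∫ w in {w : ℂ | w.im < 0}, br u v w = -∫ t : ℝ, u t * fderiv ℝ v t 1 := by
  have hcc : ContDiff ℝ 1 (fun z : ℂ => (starRingEnd ℂ) z) := (conjCLE : ℂ ≃L[ℝ] ℂ).contDiff
  have h := flat_up (hu.comp hcc) (hv.comp hcc) (hs.comp_homeomorph (conjCLE : ℂ ≃L[ℝ] ℂ).toHomeomorph)
  have hbr : ∀ w, br (u ∘ fun z : ℂ => (starRingEnd ℂ) z) (v ∘ fun z : ℂ => (starRingEnd ℂ) z) w =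
      -br u v ((starRingEnd ℂ) w) := by
    intro w
    have h1 := conj_deriv u hu w
    have h2 := conj_deriv v hv w
    unfold br
    have e1 : (u ∘ fun z : ℂ => (starRingEnd ℂ) z) = u ∘ (starRingEnd ℂ) := rfl
    have e2 : (v ∘ fun z : ℂ => (starRingEnd ℂ) z) = v ∘ (starRingEnd ℂ) := rfl
    rw [e1, e2, h1, h1, h2, h2]
    simp only [map_one, conj_I, map_neg]
    ring
  simp only [hbr] at h
  have h3 : ∀ t : ℝ, fderiv ℝ (v ∘ fun z : ℂ => (starRingEnd ℂ) z) (t : ℂ) 1 = fderiv ℝ v t 1 := by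
    intro t
    have := conj_deriv v hv t 1
    rw [conj_ofReal, show (starRingEnd ℂ) (1 : ℂ) = 1 from map_one _] at this
    exact this
  simp only [h3, Function.comp_apply, conj_ofReal] at h
  rw [← h, integral_neg, neg_neg]
  have hmp : MeasurePreserving (conjLIE : ℂ ≃ₗᵢ[ℝ] ℂ) := conjLIE.measurePreserving
  have hkey := hmp.setIntegral_preimage_emb (conjLIE.toHomeomorph.measurableEmbedding) (br u v) {w : ℂ | w.im < 0}
  have hpre : (conjLIE : ℂ ≃ₗᵢ[ℝ] ℂ) ⁻¹' {w : ℂ | w.im < 0} = {w : ℂ | 0 < w.im} := by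
    ext w
    simp
  rw [hpre] at hkey
  rw [← hkey]
  rfl

theorem volume_real_line : volume {w : ℂ | w.im = 0} = 0 := by
  have h : {w : ℂ | w.im = 0} = (LinearMap.ker (imCLM : ℂ →L[ℝ] ℝ).toLinearMap : Set ℂ) := by
    ext w; simp
  rw [h]
  apply Measure.addHaar_submodule
  intro h2
  have : (I : ℂ) ∈ LinearMap.ker (imCLM : ℂ →L[ℝ] ℝ).toLinearMap := by rw [h2]; trivial
  simp at this

theorem br_compact {u v : ℂ → ℝ} (hs : HasCompactSupport u) : HasCompactSupport (br u v) := by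
  have h : HasCompactSupport (fderiv ℝ u) := hs.fderiv ℝ
  apply HasCompactSupport.mono h
  intro z hz
  by_contra h0
  rw [Function.mem_support, not_not] at h0
  apply hz
  simp [br, h0]

theorem int_all {u v : ℂ → ℝ} (hu : ContDiff ℝ 1 u) (hv : ContDiff ℝ 1 v) (hs : HasCompactSupport u) :
    ∫ w, br u v w = 0 := by
  have hint : Integrable (br u v) := (br_cont hu hv).integrable_of_hasCompactSupport (br_compact hs)
  have h1 := flat_up hu hv hs
  have h2 := flat_down hu hv hs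
  have hsplit : ∫ w, br u v w = (∫ w in {w : ℂ | 0 < w.im}, br u v w) + ∫ w in {w : ℂ | 0 < w.im}ᶜ, br u v w :=
    (integral_add_compl (isOpen_lt continuous_const continuous_im).measurableSet hint).symm
  have h3 : ∫ w in {w : ℂ | 0 < w.im}ᶜ, br u v w = ∫ w in {w : ℂ | w.im < 0}, br u v w := by
    apply setIntegral_congr_set
    have : {w : ℂ | 0 < w.im}ᶜ = {w : ℂ | w.im < 0} ∪ {w : ℂ | w.im = 0} := by
      ext w
      simp only [mem_compl_iff, mem_ofPred_eq, not_lt, mem_union]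
      exact le_iff_lt_or_eq
    rw [this]
    exact union_ae_eq_left_of_ae_eq_empty (by rw [ae_eq_empty]; exact volume_real_line)
  rw [hsplit, h3, h1, h2]
  ring

end Pool.Agent.Helper682.Coax
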