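import Mathlib
import Pool.Agent.Helper682.Coax.D2

set_option autoImplicit false

namespace Pool.Agent.Helper682.Coax

open Set Filter Topology Metric MeasureTheory Complex

theorem pull_compact {f : ℂ → ℂ} {Q S : Set ℂ} (hinj : InjOn f Q) (hc : ContinuousOn f Q)
    (hopen : ∀ O ⊆ Q, IsOpen O → IsOpen (f '' O)) (hQ : IsOpen Q) (hS : IsCompact S) (hSQ : S ⊆ f '' Q) :
    IsCompact (Q ∩ f ⁻¹' S) := by
  set g : Q → ℂ := fun w => f w with hg
  have hgc : Continuous g := continuousOn_iff_continuous_domRestrict.1 hc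
  have hgi : Function.Injective g := fun a b hab => Subtype.ext (hinj a.2 b.2 hab)
  have hgo : IsOpenMap g := by
    intro O hO
    have h1 : IsOpen ((Subtype.val : Q → ℂ) '' O) := hQ.isOpenMap_subtype_val O hO
    have h2 := hopen _ (by rintro _ ⟨w, _, rfl⟩; exact w.2) h1
    rw [image_image] at h2
    exact h2
  have hemb := IsOpenEmbedding.of_continuous_injective_isOpenMap hgc hgi hgo
  have h3 : IsCompact (g ⁻¹' S) := by
    rw [hemb.isInducing.isCompact_iff, image_preimage_eq_inter_range]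
    have : S ∩ range g = S := by
      apply inter_eq_left.2
      intro x hx
      obtain ⟨w, hw, rfl⟩ := hSQ hx
      exact ⟨⟨w, hw⟩, rfl⟩
    rw [this]; exact hS
  have h4 : Q ∩ f ⁻¹' S = Subtype.val '' (g ⁻¹' S) := by
    ext w
    constructor
    · rintro ⟨hw, hw2⟩; exact ⟨⟨w, hw⟩, hw2, rfl⟩
    · rintro ⟨w', hw', rfl⟩; exact ⟨w'.2, hw'⟩
  rw [h4]
  exact h3.image continuous_subtype_val

theorem local_stokes {γ : ℝ → ℂ} (h : Cv γ) {t0 ε : ℝ} {F : Set ℂ} (hch : Chart γ t0 ε F) {U : Set ℂ}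
    (hU : MeasurableSet U) {σ : ℝ} (hσ : σ = 1 ∨ σ = -1)
    (hside : ∀ w ∈ Bx t0 ε, (Ps γ t0 w ∈ U ↔ 0 < σ * w.im)) {u v : ℂ → ℝ} (hu : ContDiff ℝ 1 u)
    (hv : ContDiff ℝ 1 v) (hs : HasCompactSupport u) (hsub : tsupport u ⊆ Ps γ t0 '' Bx t0 ε) :
    ∫ z in U, br u v z = σ * ∫ t in (t0 - 1 / 2)..(t0 + 1 / 2), u (γ t) * deriv (v ∘ γ) t := by
  set Q := Bx t0 ε with hQ
  set f := Ps γ t0 with hf
  have hQo : IsOpen Q := Bx_open _ _
  have hfd : ∀ w, HasStrictFDerivAt f (NN (deriv γ w.re) (I * deriv γ t0)) w := Ps_deriv h t0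
  have hfc : Continuous f := continuous_iff_continuousAt.2 fun w => (hfd w).continuousAt
  have hopen : ∀ O ⊆ Q, IsOpen O → IsOpen (f '' O) := by
    intro O hOQ hO
    rw [isOpen_iff_mem_nhds]
    rintro _ ⟨z, hz, rfl⟩
    rw [← map_nhds_of_det (hfd z) (hch.det z (hOQ hz)).ne']
    exact image_mem_map (hO.mem_nhds hz)
  have hfC : ContDiff ℝ 1 f := by
    rw [hf]
    unfold Ps
    have h1 : ContDiff ℝ 1 γ := h.smooth.of_le (by exact_mod_cast le_top)
    have h2 : ContDiff ℝ 1 (fun w : ℂ => γ w.re) := h1.comp reCLM.contDiff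
    have h3 : ContDiff ℝ 1 (fun w : ℂ => ((w.im : ℝ) : ℂ)) := ofRealCLM.contDiff.comp imCLM.contDiff
    exact h2.add (h3.mul contDiff_const)
  have hScpt : IsCompact (tsupport u) := hs
  have hK : IsCompact (Q ∩ f ⁻¹' (tsupport u)) :=
    pull_compact hch.inj hfc.continuousOn hopen hQo hScpt hsub
  set K := Q ∩ f ⁻¹' (tsupport u) with hKdef
  classical
  set ut : ℂ → ℝ := Q.indicator (u ∘ f) with hut
  have hutK : ∀ w ∉ K, ut w = 0 := by
    intro w hw
    by_cases hwQ : w ∈ Q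
    · rw [hut, indicator_of_mem hwQ]
      have : f w ∉ tsupport u := fun h' => hw ⟨hwQ, h'⟩
      exact image_eq_zero_of_notMem_tsupport (f := u) this
    · rw [hut, indicator_of_notMem hwQ]
  have hutC : ContDiff ℝ 1 ut := by
    rw [contDiff_iff_contDiffAt]
    intro w
    by_cases hwK : w ∈ K
    · have h1 : ContDiffAt ℝ 1 (u ∘ f) w := (hu.comp hfC).contDiffAt
      apply h1.congr_of_eventuallyEq
      filter_upwards [hQo.mem_nhds hwK.1] with x hx
      rw [hut, indicator_of_mem hx]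
    · have h1 : ContDiffAt ℝ 1 (fun _ : ℂ => (0:ℝ)) w := contDiffAt_const
      apply h1.congr_of_eventuallyEq
      filter_upwards [hK.isClosed.isOpen_compl.mem_nhds hwK] with x hx
      exact hutK x hx
  have hutS : HasCompactSupport ut := by
    apply HasCompactSupport.intro hK
    exact hutK
  have hvC : ContDiff ℝ 1 (v ∘ f) := hv.comp hfC
  -- local bracket
  have hbr : ∀ w ∈ Q, br ut (v ∘ f) w = |(NN (deriv γ w.re) (I * deriv γ t0)).det| • br u v (f w) := by
    intro w hw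
    have h1 : ut =ᶠ[𝓝 w] (u ∘ f) := by
      filter_upwards [hQo.mem_nhds hw] with x hx
      rw [hut, indicator_of_mem hx]
    have h2 : br ut (v ∘ f) w = br (u ∘ f) (v ∘ f) w := by
      unfold br
      rw [h1.fderiv_eq]
    rw [h2, br_comp (hu.differentiable (by simp) _) (hv.differentiable (by simp) _) (hfd w).hasFDerivAt,
      abs_of_pos (hch.det w hw), smul_eq_mul]
  have hbr0 : ∀ w ∉ Q, br ut (v ∘ f) w = 0 := by
    intro w hw
    have hwK : w ∉ K := fun h' => hw h'.1
    have h1 : ut =ᶠ[𝓝 w] fun _ => (0:ℝ) := by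
      filter_upwards [hK.isClosed.isOpen_compl.mem_nhds hwK] with x hx
      exact hutK x hx
    unfold br
    rw [h1.fderiv_eq]
    simp
  have hbrU : ∀ z ∉ f '' Q, br u v z = 0 := by
    intro z hz
    have hzS : z ∉ tsupport u := fun h' => hz (hsub h')
    have h1 : u =ᶠ[𝓝 z] fun _ => (0:ℝ) := by
      filter_upwards [(isClosed_tsupport u).isOpen_compl.mem_nhds hzS] with x hx
      exact image_eq_zero_of_notMem_tsupport hx
    unfold br
    rw [h1.fderiv_eq]
    simp
  set H : Set ℂ := {w | 0 < σ * w.im} with hH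
  have hHo : IsOpen H := isOpen_lt continuous_const (by fun_prop)
  have hUQ : U ∩ f '' Q = f '' (Q ∩ H) := by
    ext z
    constructor
    · rintro ⟨hzU, w, hw, rfl⟩
      exact ⟨w, ⟨hw, (hside w hw).1 hzU⟩, rfl⟩
    · rintro ⟨w, ⟨hw, hwH⟩, rfl⟩
      exact ⟨(hside w hw).2 hwH, w, hw, rfl⟩
  have e1 : ∫ z in U, br u v z = ∫ z in U ∩ f '' Q, br u v z := by
    rw [← integral_indicator hU, ← integral_indicator (hU.inter (hopen Q subset_rfl hQo).measurableSet)]
    congr 1
    funext z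
    by_cases hzU : z ∈ U <;> by_cases hzQ : z ∈ f '' Q
    · rw [indicator_of_mem hzU, indicator_of_mem (s := U ∩ f '' Q) ⟨hzU, hzQ⟩]
    · rw [indicator_of_mem hzU, indicator_of_notMem (fun h' : z ∈ U ∩ f '' Q => hzQ h'.2), hbrU z hzQ]
    · rw [indicator_of_notMem hzU, indicator_of_notMem (fun h' : z ∈ U ∩ f '' Q => hzU h'.1)]
    · rw [indicator_of_notMem hzU, indicator_of_notMem (fun h' : z ∈ U ∩ f '' Q => hzU h'.1)]
  have e2 : ∫ z in f '' (Q ∩ H), br u v z = ∫ w in Q ∩ H, br ut (v ∘ f) w := by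
    rw [integral_image_eq_integral_abs_det_fderiv_smul volume (hQo.inter hHo).measurableSet
      (fun x _ => (hfd x).hasFDerivAt.hasFDerivWithinAt) (hch.inj.mono inter_subset_left)]
    apply setIntegral_congr_fun (hQo.inter hHo).measurableSet
    intro w hw
    exact (hbr w hw.1).symm
  have e3 : ∫ w in Q ∩ H, br ut (v ∘ f) w = ∫ w in H, br ut (v ∘ f) w := by
    rw [← integral_indicator (hQo.inter hHo).measurableSet, ← integral_indicator hHo.measurableSet]
    congr 1
    funext z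
    by_cases hzU : z ∈ H <;> by_cases hzQ : z ∈ Q
    · rw [indicator_of_mem hzU, indicator_of_mem (s := Q ∩ H) ⟨hzQ, hzU⟩]
    · rw [indicator_of_mem hzU, indicator_of_notMem (fun h' : z ∈ Q ∩ H => hzQ h'.1), hbr0 z hzQ]
    · rw [indicator_of_notMem hzU, indicator_of_notMem (fun h' : z ∈ Q ∩ H => hzU h'.2)]
    · rw [indicator_of_notMem hzU, indicator_of_notMem (fun h' : z ∈ Q ∩ H => hzU h'.2)]
  have e4 : ∫ w in H, br ut (v ∘ f) w = σ * ∫ t : ℝ, ut t * fderiv ℝ (v ∘ f) t 1 := by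
    rcases hσ with rfl | rfl
    · have : H = {w : ℂ | 0 < w.im} := by ext w; simp [hH]
      rw [this, flat_up hutC hvC hutS, one_mul]
    · have : H = {w : ℂ | w.im < 0} := by ext w; simp [hH]
      rw [this, flat_down hutC hvC hutS]; ring
  rw [e1, hUQ, e2, e3, e4]
  congr 1
  -- boundary term
  have hder : ∀ t : ℝ, fderiv ℝ (v ∘ f) (t : ℂ) 1 = deriv (v ∘ γ) t := by
    intro t
    have h1 : HasFDerivAt (v ∘ f) (fderiv ℝ (v ∘ f) t) (t : ℂ) :=
      (hvC.differentiable (by simp) (t : ℂ)).hasFDerivAt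
    have h2 : HasDerivAt (fun t : ℝ => (t : ℂ)) 1 t := ofRealCLM.hasDerivAt
    have h3 := h1.comp_hasDerivAt t h2
    have h4 : ((v ∘ f) ∘ fun t : ℝ => (t : ℂ)) = v ∘ γ := by
      funext s
      simp only [Function.comp_apply, hf, Ps_real]
    rw [h4] at h3
    exact h3.deriv.symm
  have hutt : ∀ t : ℝ, t ∈ Ioc (t0 - 1 / 2) (t0 + 1 / 2) → ut t = u (γ t) := by
    intro t ht
    by_cases hq : (t : ℂ) ∈ Q
    · rw [hut, indicator_of_mem hq, Function.comp_apply, hf, Ps_real]
    · rw [hut, indicator_of_notMem hq]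
      symm
      apply image_eq_zero_of_notMem_tsupport
      intro hmem
      obtain ⟨w, hw, hwe⟩ := hsub hmem
      have him := hch.cur w hw (by rw [← hf, hwe]; exact ⟨t, rfl⟩)
      have hwe2 : γ w.re = γ t := by
        rw [← hwe, hf, Ps, him]; simp
      obtain ⟨k, hk⟩ := h.inj' hwe2
      have h1 := abs_lt.1 hw.1
      have h2 := hch.small
      have hk1 : (k : ℝ) < 1 := by linarith [ht.2]
      have hk2 : (-1 : ℝ) < k := by linarith [ht.1]
      have hk3 : k < 1 := by exact_mod_cast hk1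
      have hk4 : -1 < k := by exact_mod_cast hk2
      have hk0 : k = 0 := by omega
      apply hq
      have : t = w.re := by rw [hk, hk0]; simp
      refine ⟨?_, ?_⟩
      · rw [ofReal_re, this]; exact hw.1
      · rw [ofReal_im, abs_zero]; exact hch.pos
  have hut0 : ∀ t : ℝ, t ∉ Ioc (t0 - 1 / 2) (t0 + 1 / 2) → ut t = 0 := by
    intro t ht
    rw [hut]
    apply indicator_of_notMem
    intro hq
    have h1 := abs_lt.1 hq.1
    rw [ofReal_re] at h1
    have h2 := hch.small
    apply ht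
    exact ⟨by linarith, by linarith⟩
  rw [intervalIntegral.integral_of_le (by linarith), ← integral_indicator measurableSet_Ioc]
  congr 1
  funext t
  by_cases ht : t ∈ Ioc (t0 - 1 / 2) (t0 + 1 / 2)
  · rw [indicator_of_mem ht, hutt t ht, hder]
  · rw [indicator_of_notMem ht, hut0 t ht, zero_mul]

end Pool.Agent.Helper682.Coax
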