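import Mathlib
import Pool.Agent.Helper682.Coax.D3

set_option autoImplicit false

namespace Pool.Agent.Helper682.Coax

open Set Filter Topology Metric MeasureTheory Complex
open scoped Manifold ContDiff

theorem local_to_global (T : (ℂ → ℝ) → ℝ)
    (hadd : ∀ u1 u2 : ℂ → ℝ, ContDiff ℝ 1 u1 → HasCompactSupport u1 → ContDiff ℝ 1 u2 →
      HasCompactSupport u2 → T (u1 + u2) = T u1 + T u2)
    (hloc : ∀ z : ℂ, ∃ N : Set ℂ, IsOpen N ∧ z ∈ N ∧ ∀ u : ℂ → ℝ, ContDiff ℝ 1 u →
      HasCompactSupport u → tsupport u ⊆ N → T u = 0) :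
    ∀ u : ℂ → ℝ, ContDiff ℝ 1 u → HasCompactSupport u → T u = 0 := by
  intro u hu hs
  choose N hNo hN hNT using hloc
  have h0 : T 0 = 0 := by
    have := hadd 0 0 contDiff_const HasCompactSupport.zero contDiff_const HasCompactSupport.zero
    rw [add_zero] at this
    linarith
  obtain ⟨f, hf⟩ := SmoothPartitionOfUnity.exists_isSubordinate 𝓘(ℝ, ℂ) (isClosed_tsupport u) N hNo
    (fun z _ => mem_iUnion.2 ⟨z, hN z⟩)
  have hfin : {i | ((Function.support (f i)) ∩ tsupport u).Nonempty}.Finite :=
    f.locallyFinite.finite_nonempty_inter_compact hs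
  set S := hfin.toFinset with hS
  have hsum : u = ∑ i ∈ S, fun z => f i z * u z := by
    funext z
    rw [Finset.sum_apply, ← Finset.sum_mul]
    by_cases hz : z ∈ tsupport u
    · have h1 : ∑ᶠ i, f i z = 1 := f.sum_eq_one hz
      have h2 : ∑ᶠ i, f i z = ∑ i ∈ S, f i z := by
        apply finsum_eq_finsetSum_of_support_subset
        intro i hi
        rw [hS, Finite.coe_toFinset]
        exact ⟨z, hi, hz⟩
      rw [← h2, h1, one_mul]
    · rw [image_eq_zero_of_notMem_tsupport hz, mul_zero]
  have hC : ∀ i, ContDiff ℝ 1 (fun z => f i z * u z) := by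
    intro i
    have : ContDiff ℝ ∞ (f i) := (f i).contMDiff.contDiff
    exact (this.of_le (by exact_mod_cast le_top)).mul hu
  have hCS : ∀ i, HasCompactSupport (fun z => f i z * u z) := fun i => hs.mul_left
  have hTi : ∀ i, T (fun z => f i z * u z) = 0 := by
    intro i
    apply hNT i _ (hC i) (hCS i)
    exact (tsupport_mul_subset_left).trans (hf i)
  have hall : ∀ S' : Finset ℂ, ContDiff ℝ 1 (∑ i ∈ S', fun z => f i z * u z) ∧
      HasCompactSupport (∑ i ∈ S', fun z => f i z * u z) ∧ T (∑ i ∈ S', fun z => f i z * u z) = 0 := by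
    intro S'
    classical
    induction S' using Finset.induction_on with
    | empty => exact ⟨by rw [Finset.sum_empty]; exact contDiff_const, by rw [Finset.sum_empty]; exact HasCompactSupport.zero, by rw [Finset.sum_empty]; exact h0⟩
    | insert a S'' ha ih =>
      obtain ⟨i1, i2, i3⟩ := ih
      rw [Finset.sum_insert ha]
      refine ⟨(hC a).add i1, (hCS a).add i2, ?_⟩
      rw [hadd _ _ (hC a) (hCS a) i1 i2, hTi, i3, add_zero]
  rw [hsum]
  exact (hall S).2.2

end Pool.Agent.Helper682.Coax
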