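import Mathlib
import Pool.Agent.Helper682.Coax.D4

set_option autoImplicit false

namespace Pool.Agent.Helper682.Coax

open Set Filter Topology Metric MeasureTheory Complex

theorem Cv.per' {γ : ℝ → ℂ} (h : Cv γ) : Function.Periodic (deriv γ) 1 := by
  intro t
  have h1 : (fun s => γ (s + 1)) = γ := funext h.per
  have h2 : deriv (fun s => γ (s + 1)) t = deriv γ (t + 1) := deriv_comp_add_const γ 1 t
  rw [h1] at h2
  exact h2.symm

theorem Cv.per'' {γ : ℝ → ℂ} (h : Cv γ) : Function.Periodic (deriv (deriv γ)) 1 := by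
  intro t
  have h1 : (fun s => deriv γ (s + 1)) = deriv γ := funext h.per'
  have h2 : deriv (fun s => deriv γ (s + 1)) t = deriv (deriv γ) (t + 1) := deriv_comp_add_const (deriv γ) 1 t
  rw [h1] at h2
  exact h2.symm

theorem Cv.smooth'' {γ : ℝ → ℂ} (h : Cv γ) : ContDiff ℝ (⊤ : ℕ∞) (deriv (deriv γ)) := by
  have := h.smooth'
  have h2 : ContDiff ℝ ((⊤ : ℕ∞) + 1) (deriv γ) := by simpa using this
  exact (contDiff_succ_iff_deriv.1 h2).2.2

theorem Cv.cont'' {γ : ℝ → ℂ} (h : Cv γ) : Continuous (deriv (deriv γ)) := h.smooth''.continuous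

theorem taylor {γ : ℝ → ℂ} (h : Cv γ) : ∃ C > 0, ∀ t0 t : ℝ,
    ‖γ t - γ t0 - (t - t0 : ℝ) * deriv γ t0‖ ≤ C * (t - t0) ^ 2 := by
  obtain ⟨C, hC0, hC⟩ := (h.per''.isBounded_of_continuous one_ne_zero h.cont'').exists_pos_norm_le
  refine ⟨C, hC0, fun t0 t => ?_⟩
  have h1 : ∀ x y : ℝ, ‖deriv γ y - deriv γ x‖ ≤ C * ‖y - x‖ := fun x y =>
    convex_univ.norm_image_sub_le_of_norm_deriv_le (𝕜 := ℝ) (fun z _ => h.diff' z) (fun z _ => hC _ ⟨z, rfl⟩)
      (mem_univ x) (mem_univ y)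
  set g : ℝ → ℂ := fun s => γ s - ((s - t0 : ℝ) : ℂ) * deriv γ t0 with hg
  have hd : ∀ s, HasDerivAt g (deriv γ s - deriv γ t0) s := by
    intro s
    have h2 : HasDerivAt (fun s : ℝ => ((s - t0 : ℝ) : ℂ)) 1 s := by
      have : HasDerivAt (fun s : ℝ => s - t0) 1 s := (hasDerivAt_id s).sub_const t0
      simpa using this.ofReal_comp
    have h3 := (h.hasDeriv s).sub (h2.mul_const (deriv γ t0))
    rw [one_mul] at h3
    exact h3
  have h2 := (convex_uIcc t0 t).norm_image_sub_le_of_norm_deriv_le (𝕜 := ℝ) (f := g) (C := C * ‖t - t0‖)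
    (fun z _ => (hd z).differentiableAt) (fun z hz => by
      rw [(hd z).deriv]
      refine (h1 t0 z).trans ?_
      have := abs_sub_left_of_mem_uIcc hz
      rw [Real.norm_eq_abs, Real.norm_eq_abs]
      exact mul_le_mul_of_nonneg_left this hC0.le) left_mem_uIcc right_mem_uIcc
  have h3 : g t - g t0 = γ t - γ t0 - (t - t0 : ℝ) * deriv γ t0 := by
    simp only [hg, sub_self, ofReal_zero, zero_mul, sub_zero]
    ring
  rw [h3] at h2
  refine h2.trans (le_of_eq ?_)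
  rw [Real.norm_eq_abs, mul_assoc, ← sq, sq_abs]

theorem ball_ineq {s e1 e2 y r K σ : ℝ} (hK : 0 < K) (hr : 0 < r) (hσ : σ = 1 ∨ σ = -1)
    (hrK : 8 * K * r ≤ 1) (hs : K * |s| ≤ 1 / 2) (h1 : |e1| ≤ K * s ^ 2) (h2 : |e2| ≤ K * s ^ 2)
    (hy : σ * y ≤ 0) : r ^ 2 ≤ (s + e1) ^ 2 + (y - σ * r + e2) ^ 2 := by
  have ha : |s| / 2 ≤ |s + e1| := by
    have t1 : |s| ≤ |s + e1| + |e1| := by
      have := abs_sub (s + e1) e1
      rwa [add_sub_cancel_right] at this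
    have t2 : K * s ^ 2 ≤ |s| / 2 := by
      have : K * s ^ 2 = (K * |s|) * |s| := by rw [mul_assoc, ← sq, sq_abs]
      rw [this]
      nlinarith [abs_nonneg s]
    linarith
  have hb : s ^ 2 / 4 ≤ (s + e1) ^ 2 := by
    have := pow_le_pow_left₀ (by positivity) ha 2
    rw [sq_abs, div_pow, sq_abs] at this
    linarith
  have hσ2 : σ ^ 2 = 1 := by rcases hσ with rfl | rfl <;> norm_num
  have hσe : σ * e2 ≤ K * s ^ 2 := by
    rcases hσ with rfl | rfl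
    · rw [one_mul]; exact (le_abs_self _).trans h2
    · have := (neg_abs_le e2); linarith
  have hc : σ * (y - σ * r + e2) ≤ -r + K * s ^ 2 := by
    have : σ * (y - σ * r + e2) = σ * y - σ ^ 2 * r + σ * e2 := by ring
    rw [this, hσ2]
    linarith
  have hd : (y - σ * r + e2) ^ 2 = (σ * (y - σ * r + e2)) ^ 2 := by
    rw [mul_pow, hσ2, one_mul]
  rcases le_or_gt (K * s ^ 2) r with hh | hh
  · have h5 : (r - K * s ^ 2) ^ 2 ≤ (y - σ * r + e2) ^ 2 := by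
      rw [hd]
      nlinarith
    have h6 : 2 * r * (K * s ^ 2) ≤ s ^ 2 / 4 := by
      have : 2 * r * (K * s ^ 2) = (8 * K * r) * (s ^ 2 / 4) := by ring
      rw [this]
      nlinarith [sq_nonneg s]
    nlinarith [sq_nonneg (K * s ^ 2)]
  · have h7 : r ^ 2 ≤ s ^ 2 / 4 := by
      have : 8 * r ^ 2 * K ≤ s ^ 2 * K := by nlinarith
      have h8 : 8 * r ^ 2 ≤ s ^ 2 := le_of_mul_le_mul_right this hK
      nlinarith [sq_nonneg r]
    nlinarith [sq_nonneg (y - σ * r + e2)]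

theorem int_ball {γ : ℝ → ℂ} (h : Cv γ) {t0 ε : ℝ} {F : Set ℂ} (hch : Chart γ t0 ε F) {σ : ℝ}
    (hσ : σ = 1 ∨ σ = -1) : ∃ r > 0, ball (γ t0 + (σ * r : ℝ) * (I * deriv γ t0)) (r * ‖deriv γ t0‖) ⊆
      Ps γ t0 '' (Bx t0 ε ∩ {w | 0 < σ * w.im}) := by
  obtain ⟨C, hC0, hC⟩ := taylor h
  set A := deriv γ t0 with hA
  have hA0 : A ≠ 0 := h.reg t0
  have ha : 0 < ‖A‖ := norm_pos_iff.2 hA0
  set K := C / ‖A‖ with hK
  have hK0 : 0 < K := by positivity
  set ε' := min ε (1 / (2 * K)) with hε'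
  have hε'0 : 0 < ε' := lt_min hch.pos (by positivity)
  have hmem : (t0 : ℂ) ∈ Bx t0 ε := by
    refine ⟨?_, ?_⟩
    · rw [ofReal_re, sub_self, abs_zero]; exact hch.pos
    · rw [ofReal_im, abs_zero]; exact hch.pos
  have hmem' : (t0 : ℂ) ∈ Bx t0 ε' := by
    refine ⟨?_, ?_⟩
    · rw [ofReal_re, sub_self, abs_zero]; exact hε'0
    · rw [ofReal_im, abs_zero]; exact hε'0
  have hnb : Ps γ t0 '' Bx t0 ε' ∈ 𝓝 (γ t0) := by
    have h1 := map_nhds_of_det (Ps_deriv h t0 t0) (hch.det _ hmem).ne'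
    rw [Ps_real] at h1
    rw [← h1]
    exact image_mem_map ((Bx_open _ _).mem_nhds hmem')
  obtain ⟨δ, hδ, hb⟩ := Metric.mem_nhds_iff.1 hnb
  refine ⟨min (δ / (2 * ‖A‖)) (1 / (8 * K)), lt_min (by positivity) (by positivity), ?_⟩
  set r := min (δ / (2 * ‖A‖)) (1 / (8 * K)) with hr
  have hr0 : 0 < r := lt_min (by positivity) (by positivity)
  have hr1 : 2 * r * ‖A‖ ≤ δ := by
    have : r ≤ δ / (2 * ‖A‖) := min_le_left _ _
    rw [le_div_iff₀ (by positivity)] at this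
    linarith
  have hr2 : 8 * K * r ≤ 1 := by
    have : r ≤ 1 / (8 * K) := min_le_right _ _
    rw [le_div_iff₀ (by positivity)] at this
    linarith
  have hσa : |σ| = 1 := by rcases hσ with rfl | rfl <;> simp
  intro z hz
  have hzd : z ∈ ball (γ t0) δ := by
    rw [mem_ball] at hz ⊢
    have h1 : dist (γ t0 + (σ * r : ℝ) * (I * A)) (γ t0) = r * ‖A‖ := by
      rw [dist_eq, add_sub_cancel_left, norm_mul, norm_mul, norm_I, one_mul, norm_real, Real.norm_eq_abs, abs_mul, hσa,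
        one_mul, abs_of_pos hr0]
    have h2 := dist_triangle z (γ t0 + (σ * r : ℝ) * (I * A)) (γ t0)
    rw [h1] at h2
    linarith
  obtain ⟨w, hw, hwz⟩ := hb hzd
  refine ⟨w, ⟨Bx_mono (min_le_left _ _) hw, ?_⟩, hwz⟩
  rw [mem_ofPred_eq]
  by_contra hn
  push Not at hn
  set s := w.re - t0 with hs
  set E := γ w.re - γ t0 - (w.re - t0 : ℝ) * A with hE
  have hEn : ‖E‖ ≤ C * s ^ 2 := hC t0 w.re
  set e := E / A with he
  have hen : ‖e‖ ≤ K * s ^ 2 := by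
    rw [he, norm_div, hK, div_mul_eq_mul_div]
    gcongr
  have hEe : E = e * A := by rw [he]; field_simp
  have hkey : z - (γ t0 + (σ * r : ℝ) * (I * A)) = (s + e + (w.im - σ * r : ℝ) * I) * A := by
    rw [← hwz, Ps, ← hA]
    have h5 : γ w.re = γ t0 + (w.re - t0 : ℝ) * A + e * A := by rw [← hEe, hE]; ring
    rw [h5, hs]
    push_cast
    ring
  have hno : ‖(s + e + (w.im - σ * r : ℝ) * I : ℂ)‖ < r := by
    rw [mem_ball, dist_eq, hkey, norm_mul] at hz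
    exact lt_of_mul_lt_mul_right hz ha.le
  have hsq : ‖(s + e + (w.im - σ * r : ℝ) * I : ℂ)‖ ^ 2 = (s + e.re) ^ 2 + (w.im - σ * r + e.im) ^ 2 := by
    rw [Complex.sq_norm, normSq_apply]
    simp only [add_re, ofReal_re, mul_re, I_re, mul_zero, ofReal_im, I_im, mul_one, sub_self, add_zero,
      add_im, mul_im, zero_add]
    ring
  have hcon := ball_ineq (s := s) (e1 := e.re) (e2 := e.im) (y := w.im) hK0 hr0 hσ hr2 (by
    have h6 : |s| ≤ 1 / (2 * K) := (hw.1.trans_le (min_le_right _ _)).le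
    rw [le_div_iff₀ (by positivity)] at h6
    linarith) ((abs_re_le_norm e).trans hen) ((abs_im_le_norm e).trans hen) hn
  rw [← hsq] at hcon
  have := pow_lt_pow_left₀ hno (norm_nonneg _) (two_ne_zero)
  linarith

theorem conv_rect {s t : Set ℝ} (hs : Convex ℝ s) (ht : Convex ℝ t) : Convex ℝ (s ×ℂ t) := by
  intro x hx y hy a b ha hb hab
  rw [mem_reProdIm] at *
  refine ⟨?_, ?_⟩
  · have := hs hx.1 hy.1 ha hb hab
    simpa using this
  · have := ht hx.2 hy.2 ha hb hab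
    simpa using this

theorem preconn_frontier {U S : Set ℂ} (hU : IsOpen U) (hS : IsPreconnected S) (hSU : (S ∩ U).Nonempty)
    (hd : Disjoint S (frontier U)) : S ⊆ U := by
  apply hS.subset_left_of_subset_union hU (isClosed_closure (s := U)).isOpen_compl _ _ hSU
  · exact disjoint_compl_right.mono_left subset_closure
  · intro x hx
    by_cases hxU : x ∈ U
    · left; exact hxU
    · right
      intro hcl
      exact disjoint_left.1 hd hx (by rw [hU.frontier_eq]; exact ⟨hcl, hxU⟩)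

theorem half_preconn (γ : ℝ → ℂ) (h : Cv γ) (t0 ε : ℝ) {σ : ℝ} (hσ : σ = 1 ∨ σ = -1) :
    IsPreconnected (Ps γ t0 '' (Bx t0 ε ∩ {w | 0 < σ * w.im})) := by
  have hconv : Convex ℝ (Bx t0 ε ∩ {w | 0 < σ * w.im}) := by
    rcases hσ with rfl | rfl
    · have : Bx t0 ε ∩ {w : ℂ | 0 < 1 * w.im} = Ioo (t0 - ε) (t0 + ε) ×ℂ Ioo 0 ε := by
        ext w
        simp only [Bx, mem_inter_iff, mem_ofPred_eq, one_mul, mem_reProdIm, mem_Ioo, abs_lt]
        constructor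
        · rintro ⟨⟨h1, h2⟩, h3⟩
          exact ⟨⟨by linarith, by linarith⟩, h3, by linarith⟩
        · rintro ⟨⟨h1, h2⟩, h3, h4⟩
          exact ⟨⟨⟨by linarith, by linarith⟩, by linarith, h4⟩, h3⟩
      rw [this]
      exact conv_rect (convex_Ioo _ _) (convex_Ioo _ _)
    · have : Bx t0 ε ∩ {w : ℂ | 0 < -1 * w.im} = Ioo (t0 - ε) (t0 + ε) ×ℂ Ioo (-ε) 0 := by
        ext w
        simp only [Bx, mem_inter_iff, mem_ofPred_eq, mem_reProdIm, mem_Ioo, abs_lt]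
        constructor
        · rintro ⟨⟨h1, h2⟩, h3⟩
          exact ⟨⟨by linarith, by linarith⟩, by linarith, by linarith⟩
        · rintro ⟨⟨h1, h2⟩, h3, h4⟩
          exact ⟨⟨⟨by linarith, by linarith⟩, by linarith, by linarith⟩, by linarith⟩
      rw [this]
      exact conv_rect (convex_Ioo _ _) (convex_Ioo _ _)
  apply hconv.isPreconnected.image
  have : Continuous (Ps γ t0) := continuous_iff_continuousAt.2 fun w => (Ps_deriv h t0 w).continuousAt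
  exact this.continuousOn

abbrev Harm (U : Set ℂ) (ψ : ℂ → ℝ) : Prop := ∀ z ∈ U, iteratedFDeriv ℝ 2 ψ z ![(1 : ℂ), 1]
            + iteratedFDeriv ℝ 2 ψ z ![Complex.I, Complex.I] = 0

theorem side_local {γ : ℝ → ℂ} (h : Cv γ) {F U : Set ℂ} (hF : IsClosed F) (hd : Disjoint (range γ) F)
    (hU : IsOpen U) (hfr : frontier U = range γ ∪ F) {ψ : ℂ → ℝ} (hψ : ContDiff ℝ 2 ψ) (hharm : Harm U ψ)
    {c : ℝ} (hc : ∀ t, ψ (γ t) = c) (hpos : ∀ z ∈ U, c < ψ z) (t0 : ℝ) :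
    ∃ σ : ℝ, (σ = 1 ∨ σ = -1) ∧ 0 < σ * fderiv ℝ ψ (γ t0) (I * deriv γ t0) ∧
      ∃ ε, Chart γ t0 ε F ∧ ∀ w ∈ Bx t0 ε, (Ps γ t0 w ∈ U ↔ 0 < σ * w.im) := by
  obtain ⟨ε, hch⟩ := exists_chart h t0 hF (fun h' => hd.le_bot ⟨⟨t0, rfl⟩, h'⟩)
  have hhalf : ∀ σ : ℝ, (σ = 1 ∨ σ = -1) → (Ps γ t0 '' (Bx t0 ε ∩ {w | 0 < σ * w.im}) ⊆ U) ∨
      Disjoint (Ps γ t0 '' (Bx t0 ε ∩ {w | 0 < σ * w.im})) U := by
    intro σ hσ
    by_contra hn
    push Not at hn
    obtain ⟨h1, h2⟩ := hn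
    rw [Set.not_disjoint_iff] at h2
    obtain ⟨x, hx1, hx2⟩ := h2
    rw [Set.not_subset] at h1
    obtain ⟨y, hy1, hy2⟩ := h1
    apply hy2
    refine preconn_frontier hU (half_preconn γ h t0 ε hσ) ⟨x, hx1, hx2⟩ ?_ hy1
    rw [Set.disjoint_left]
    rintro z hz1 hz2
    obtain ⟨w, ⟨hw1, hw2⟩, rfl⟩ := hz1
    rw [hfr] at hz2
    rcases hz2 with hz2 | hz2
    · have := hch.cur w hw1 hz2
      rw [mem_ofPred_eq, this, mul_zero] at hw2
      exact lt_irrefl _ hw2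
    · exact hch.far w hw1 hz2
  have hhopf : ∀ σ : ℝ, (σ = 1 ∨ σ = -1) → (Ps γ t0 '' (Bx t0 ε ∩ {w | 0 < σ * w.im}) ⊆ U) →
      0 < σ * fderiv ℝ ψ (γ t0) (I * deriv γ t0) := by
    intro σ hσ hsub
    obtain ⟨r, hr, hb⟩ := int_ball h hch hσ
    have hσa : |σ| = 1 := by rcases hσ with rfl | rfl <;> simp
    set q := γ t0 + (σ * r : ℝ) * (I * deriv γ t0) with hq
    have hR : 0 < r * ‖deriv γ t0‖ := mul_pos hr (norm_pos_iff.2 (h.reg t0))
    have hdist : dist (γ t0) q = r * ‖deriv γ t0‖ := by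
      rw [dist_comm, hq, dist_eq, add_sub_cancel_left, norm_mul, norm_mul, norm_I, one_mul, norm_real,
        Real.norm_eq_abs, abs_mul, hσa, one_mul, abs_of_pos hr]
    have h1 := hopf_ball hR hdist hψ (fun z hz => hharm z (hsub (hb hz)))
      (fun z hz => by rw [hc t0]; exact hpos z (hsub (hb hz)))
    have h2 : q - γ t0 = (σ * r) • (I * deriv γ t0) := by
      rw [hq, add_sub_cancel_left, real_smul]
    rw [h2, map_smul, smul_eq_mul] at h1
    have h3 : σ * r * fderiv ℝ ψ (γ t0) (I * deriv γ t0) = r * (σ * fderiv ℝ ψ (γ t0) (I * deriv γ t0)) := by ring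
    rw [h3] at h1
    exact (mul_pos_iff_of_pos_left hr).1 h1
  have hUfr : ∀ z ∈ frontier U, z ∉ U := by
    intro z hz hzU
    rw [hU.frontier_eq] at hz
    exact hz.2 hzU
  have hzero : ∀ w : ℂ, w.im = 0 → Ps γ t0 w ∉ U := by
    intro w hw
    apply hUfr
    rw [hfr]
    left
    exact ⟨w.re, by simp [Ps, hw]⟩
  -- one of the sides is inside
  have hone : ∃ σ : ℝ, (σ = 1 ∨ σ = -1) ∧ (Ps γ t0 '' (Bx t0 ε ∩ {w | 0 < σ * w.im}) ⊆ U) := by
    by_contra hn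
    push Not at hn
    have h1 := (hhalf 1 (Or.inl rfl)).resolve_left (hn 1 (Or.inl rfl))
    have h2 := (hhalf (-1) (Or.inr rfl)).resolve_left (hn (-1) (Or.inr rfl))
    have hmem : (t0 : ℂ) ∈ Bx t0 ε := by
      refine ⟨?_, ?_⟩
      · rw [ofReal_re, sub_self, abs_zero]; exact hch.pos
      · rw [ofReal_im, abs_zero]; exact hch.pos
    have hnb : Ps γ t0 '' Bx t0 ε ∈ 𝓝 (γ t0) := by
      have h1 := map_nhds_of_det (Ps_deriv h t0 t0) (hch.det _ hmem).ne'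
      rw [Ps_real] at h1
      rw [← h1]
      exact image_mem_map ((Bx_open _ _).mem_nhds hmem)
    have hcl : γ t0 ∈ closure U := by
      apply frontier_subset_closure
      rw [hfr]; left; exact ⟨t0, rfl⟩
    rw [mem_closure_iff_nhds] at hcl
    obtain ⟨z, ⟨w, hw, rfl⟩, hzU⟩ := hcl _ hnb
    rcases lt_trichotomy w.im 0 with h3 | h3 | h3
    · exact Set.disjoint_left.1 h2 ⟨w, ⟨hw, by rw [mem_ofPred_eq]; linarith⟩, rfl⟩ hzU
    · exact hzero w h3 hzU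
    · exact Set.disjoint_left.1 h1 ⟨w, ⟨hw, by rw [mem_ofPred_eq]; linarith⟩, rfl⟩ hzU
  obtain ⟨σ, hσ, hsub⟩ := hone
  have hρ := hhopf σ hσ hsub
  refine ⟨σ, hσ, hρ, ε, hch, ?_⟩
  intro w hw
  constructor
  · intro hwU
    by_contra hn
    push Not at hn
    rcases hn.lt_or_eq with hn | hn
    · have hσ' : -σ = 1 ∨ -σ = -1 := by rcases hσ with rfl | rfl <;> simp
      rcases hhalf (-σ) hσ' with h5 | h5
      · have := hhopf (-σ) hσ' h5
        linarith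
      · exact Set.disjoint_left.1 h5 ⟨w, ⟨hw, by rw [mem_ofPred_eq]; linarith⟩, rfl⟩ hwU
    · have : w.im = 0 := by
        rcases hσ with rfl | rfl <;> linarith
      exact hzero w this hwU
  · intro hwp
    exact hsub ⟨w, ⟨hw, hwp⟩, rfl⟩

/-- normal derivative -/
noncomputable def rho (γ : ℝ → ℂ) (ψ : ℂ → ℝ) (t : ℝ) : ℝ := fderiv ℝ ψ (γ t) (I * deriv γ t)

theorem rho_cont {γ : ℝ → ℂ} (h : Cv γ) {ψ : ℂ → ℝ} (hψ : ContDiff ℝ 2 ψ) : Continuous (rho γ ψ) := by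
  unfold rho
  have h1 : Continuous (fderiv ℝ ψ) := hψ.continuous_fderiv (by simp)
  have h2 := h.cont
  have h3 := h.cont'
  exact (h1.comp h2).clm_apply (by fun_prop)

theorem sides {γ : ℝ → ℂ} (h : Cv γ) {F U : Set ℂ} (hF : IsClosed F) (hd : Disjoint (range γ) F)
    (hU : IsOpen U) (hfr : frontier U = range γ ∪ F) {ψ : ℂ → ℝ} (hψ : ContDiff ℝ 2 ψ) (hharm : Harm U ψ)
    {c : ℝ} (hc : ∀ t, ψ (γ t) = c) (hpos : ∀ z ∈ U, c < ψ z) :
    ∃ σ : ℝ, (σ = 1 ∨ σ = -1) ∧ (∀ t, 0 < σ * rho γ ψ t) ∧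
      ∀ t0, ∃ ε, Chart γ t0 ε F ∧ ∀ w ∈ Bx t0 ε, (Ps γ t0 w ∈ U ↔ 0 < σ * w.im) := by
  have hloc := side_local h hF hd hU hfr hψ hharm hc hpos
  obtain ⟨σ, hσ, hρ, -⟩ := hloc 0
  have hcont := rho_cont h hψ
  have hall : ∀ t, 0 < σ * rho γ ψ t := by
    intro t
    by_contra hn
    push Not at hn
    have hf : Continuous fun t => σ * rho γ ψ t := continuous_const.mul hcont
    obtain ⟨s, hs⟩ := mem_range_of_exists_le_of_exists_ge hf ⟨t, hn⟩ ⟨0, hρ.le⟩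
    obtain ⟨σ', hσ', hρ', -⟩ := hloc s
    have hne : rho γ ψ s ≠ 0 := by
      intro h0
      change 0 < σ' * rho γ ψ s at hρ'
      rw [h0, mul_zero] at hρ'
      exact lt_irrefl _ hρ'
    have hσ0 : σ ≠ 0 := by rcases hσ with rfl | rfl <;> norm_num
    exact (mul_ne_zero hσ0 hne) hs
  refine ⟨σ, hσ, hall, fun t0 => ?_⟩
  obtain ⟨σ', hσ', hρ', ε, hch, hs⟩ := hloc t0
  have : σ' = σ := by
    have h1 := hall t0
    change 0 < σ' * rho γ ψ t0 at hρ'
    rcases hσ with rfl | rfl <;> rcases hσ' with rfl | rfl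
    · rfl
    · linarith
    · linarith
    · rfl
  rw [this] at hs
  exact ⟨ε, hch, hs⟩

end Pool.Agent.Helper682.Coax
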