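import Mathlib
import Pool.Agent.Helper682.Coax.D5

set_option autoImplicit false

namespace Pool.Agent.Helper682.Coax

open Set Filter Topology Metric MeasureTheory Complex

theorem br_zero_off {u v : ℂ → ℝ} {z : ℂ} (hz : z ∉ tsupport u) : br u v z = 0 := by
  have h1 : u =ᶠ[𝓝 z] fun _ => (0:ℝ) := by
    filter_upwards [(isClosed_tsupport u).isOpen_compl.mem_nhds hz] with x hx
    exact image_eq_zero_of_notMem_tsupport hx
  unfold br
  rw [h1.fderiv_eq]
  simp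

theorem bd_cont {γ : ℝ → ℂ} (h : Cv γ) {u v : ℂ → ℝ} (hu : Continuous u) (hv : ContDiff ℝ 1 v) :
    Continuous fun t => u (γ t) * deriv (v ∘ γ) t := by
  have h1 : ContDiff ℝ 1 γ := h.smooth.of_le (by exact_mod_cast le_top)
  have h2 : Continuous (deriv (v ∘ γ)) := (hv.comp h1).continuous_deriv (by simp)
  exact (hu.comp h.cont).mul h2

theorem bd_per {γ : ℝ → ℂ} (h : Cv γ) (u v : ℂ → ℝ) :
    Function.Periodic (fun t => u (γ t) * deriv (v ∘ γ) t) 1 := by
  intro t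
  have h1 : (fun s => (v ∘ γ) (s + 1)) = v ∘ γ := by
    funext s; simp only [Function.comp_apply, h.per s]
  have h2 : deriv (fun s => (v ∘ γ) (s + 1)) t = deriv (v ∘ γ) (t + 1) := deriv_comp_add_const (v ∘ γ) 1 t
  rw [h1] at h2
  simp only [h.per t, h2]

theorem stokes_loc {γ γ' : ℝ → ℂ} (h : Cv γ) {t0 ε : ℝ} (hch : Chart γ t0 ε (range γ')) {U : Set ℂ}
    (hU : IsOpen U) {σ : ℝ} (hσ : σ = 1 ∨ σ = -1)
    (hside : ∀ w ∈ Bx t0 ε, (Ps γ t0 w ∈ U ↔ 0 < σ * w.im)) {u v : ℂ → ℝ} (hu : ContDiff ℝ 1 u)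
    (hv : ContDiff ℝ 1 v) (hs : HasCompactSupport u) (hsub : tsupport u ⊆ Ps γ t0 '' Bx t0 ε) :
    ∫ z in U, br u v z = σ * (∫ t in (0:ℝ)..1, u (γ t) * deriv (v ∘ γ) t) ∧ ∀ t, u (γ' t) = 0 := by
  constructor
  · rw [local_stokes h hch hU.measurableSet hσ hside hu hv hs hsub]
    have := (bd_per h u v).intervalIntegral_add_eq (t0 - 1 / 2) 0
    rw [zero_add, show t0 - 1 / 2 + 1 = t0 + 1 / 2 by ring] at this
    rw [this]
  · intro t
    apply image_eq_zero_of_notMem_tsupport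
    intro hm
    obtain ⟨w, hw, he⟩ := hsub hm
    exact hch.far w hw (by rw [he]; exact ⟨t, rfl⟩)

theorem stokes_cpt {γ1 γ2 : ℝ → ℂ} (h1 : Cv γ1) (h2 : Cv γ2) {U : Set ℂ} (hU : IsOpen U)
    (hfr : frontier U = range γ1 ∪ range γ2) {σ1 σ2 : ℝ} (hσ1 : σ1 = 1 ∨ σ1 = -1) (hσ2 : σ2 = 1 ∨ σ2 = -1)
    (s1 : ∀ t0, ∃ ε, Chart γ1 t0 ε (range γ2) ∧ ∀ w ∈ Bx t0 ε, (Ps γ1 t0 w ∈ U ↔ 0 < σ1 * w.im))
    (s2 : ∀ t0, ∃ ε, Chart γ2 t0 ε (range γ1) ∧ ∀ w ∈ Bx t0 ε, (Ps γ2 t0 w ∈ U ↔ 0 < σ2 * w.im))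
    {v : ℂ → ℝ} (hv : ContDiff ℝ 1 v) (u : ℂ → ℝ) (hu : ContDiff ℝ 1 u) (hs : HasCompactSupport u) :
    ∫ z in U, br u v z = σ1 * (∫ t in (0:ℝ)..1, u (γ1 t) * deriv (v ∘ γ1) t) +
      σ2 * (∫ t in (0:ℝ)..1, u (γ2 t) * deriv (v ∘ γ2) t) := by
  have hUfr : ∀ z ∈ frontier U, z ∉ U := by
    intro z hz hzU
    rw [hU.frontier_eq] at hz
    exact hz.2 hzU
  have f1 : ∀ t, γ1 t ∈ frontier U := fun t => by rw [hfr]; left; exact ⟨t, rfl⟩
  have f2 : ∀ t, γ2 t ∈ frontier U := fun t => by rw [hfr]; right; exact ⟨t, rfl⟩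
  have key := local_to_global (fun u => (∫ z in U, br u v z) - (σ1 * (∫ t in (0:ℝ)..1, u (γ1 t) * deriv (v ∘ γ1) t) +
      σ2 * (∫ t in (0:ℝ)..1, u (γ2 t) * deriv (v ∘ γ2) t))) ?_ ?_ u hu hs
  · linarith
  · intro u1 u2 c1 k1 c2 k2
    have e1 : ∫ z in U, br (u1 + u2) v z = (∫ z in U, br u1 v z) + ∫ z in U, br u2 v z := by
      rw [← integral_add]
      · congr 1
        funext z
        unfold br
        rw [fderiv_add (c1.differentiable (by simp) z) (c2.differentiable (by simp) z)]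
        simp only [_root_.add_apply]
        ring
      · exact ((br_cont c1 hv).integrable_of_hasCompactSupport (br_compact k1)).integrableOn
      · exact ((br_cont c2 hv).integrable_of_hasCompactSupport (br_compact k2)).integrableOn
    have e2 : ∀ γ : ℝ → ℂ, Cv γ → ∫ t in (0:ℝ)..1, (u1 + u2) (γ t) * deriv (v ∘ γ) t =
        (∫ t in (0:ℝ)..1, u1 (γ t) * deriv (v ∘ γ) t) + ∫ t in (0:ℝ)..1, u2 (γ t) * deriv (v ∘ γ) t := by
      intro γ h
      rw [← intervalIntegral.integral_add]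
      · congr 1
        funext t
        simp only [Pi.add_apply]
        ring
      · exact (bd_cont h c1.continuous hv).intervalIntegrable _ _
      · exact (bd_cont h c2.continuous hv).intervalIntegrable _ _
    rw [e1, e2 γ1 h1, e2 γ2 h2]
    ring
  · intro z
    by_cases hz1 : z ∈ range γ1
    · obtain ⟨t0, rfl⟩ := hz1
      obtain ⟨ε, hch, hside⟩ := s1 t0
      refine ⟨Ps γ1 t0 '' Bx t0 ε, ?_, ⟨t0, ⟨by rw [ofReal_re, sub_self, abs_zero]; exact hch.pos,
        by rw [ofReal_im, abs_zero]; exact hch.pos⟩, Ps_real _ _ _⟩, ?_⟩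
      · rw [isOpen_iff_mem_nhds]
        rintro _ ⟨z, hz, rfl⟩
        rw [← map_nhds_of_det (Ps_deriv h1 t0 z) (hch.det z hz).ne']
        exact image_mem_map ((Bx_open _ _).mem_nhds hz)
      · intro u cu ku su
        obtain ⟨i1, i2⟩ := stokes_loc h1 hch hU hσ1 hside cu hv ku su
        simp only [i1, i2, zero_mul, intervalIntegral.integral_zero]
        ring
    by_cases hz2 : z ∈ range γ2
    · obtain ⟨t0, rfl⟩ := hz2
      obtain ⟨ε, hch, hside⟩ := s2 t0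
      refine ⟨Ps γ2 t0 '' Bx t0 ε, ?_, ⟨t0, ⟨by rw [ofReal_re, sub_self, abs_zero]; exact hch.pos,
        by rw [ofReal_im, abs_zero]; exact hch.pos⟩, Ps_real _ _ _⟩, ?_⟩
      · rw [isOpen_iff_mem_nhds]
        rintro _ ⟨z, hz, rfl⟩
        rw [← map_nhds_of_det (Ps_deriv h2 t0 z) (hch.det z hz).ne']
        exact image_mem_map ((Bx_open _ _).mem_nhds hz)
      · intro u cu ku su
        obtain ⟨i1, i2⟩ := stokes_loc h2 hch hU hσ2 hside cu hv ku su
        simp only [i1, i2, zero_mul, intervalIntegral.integral_zero]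
        ring
    have hzf : z ∉ frontier U := by
      rw [hfr]
      rintro (h | h)
      · exact hz1 h
      · exact hz2 h
    by_cases hzU : z ∈ U
    · refine ⟨U, hU, hzU, ?_⟩
      intro u cu ku su
      have b1 : ∀ z ∈ frontier U, u z = 0 := fun z hz =>
        image_eq_zero_of_notMem_tsupport fun hm => hUfr z hz (su hm)
      have e1 : ∫ z in U, br u v z = 0 := by
        rw [← integral_indicator hU.measurableSet, ← int_all cu hv ku]
        congr 1
        funext x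
        by_cases hx : x ∈ U
        · rw [indicator_of_mem hx]
        · rw [indicator_of_notMem hx, br_zero_off (fun hm => hx (su hm))]
      simp only [e1, b1 _ (f1 _), b1 _ (f2 _), zero_mul, intervalIntegral.integral_zero]
      ring
    · have hzc : z ∉ closure U := by
        intro hc
        apply hzf
        rw [hU.frontier_eq]
        exact ⟨hc, hzU⟩
      refine ⟨(closure U)ᶜ, isClosed_closure.isOpen_compl, hzc, ?_⟩
      intro u cu ku su
      have b1 : ∀ z ∈ closure U, u z = 0 := fun z hz =>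
        image_eq_zero_of_notMem_tsupport fun hm => (su hm) hz
      have e1 : ∫ z in U, br u v z = 0 := by
        apply setIntegral_eq_zero_of_forall_eq_zero
        intro x hx
        exact br_zero_off (fun hm => (su hm) (subset_closure hx))
      simp only [e1, b1 _ (frontier_subset_closure (f1 _)), b1 _ (frontier_subset_closure (f2 _)), zero_mul,
        intervalIntegral.integral_zero]
      ring

theorem stokes {γ1 γ2 : ℝ → ℂ} (h1 : Cv γ1) (h2 : Cv γ2) {U : Set ℂ} (hU : IsOpen U)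
    (hb : Bornology.IsBounded U)
    (hfr : frontier U = range γ1 ∪ range γ2) {σ1 σ2 : ℝ} (hσ1 : σ1 = 1 ∨ σ1 = -1) (hσ2 : σ2 = 1 ∨ σ2 = -1)
    (s1 : ∀ t0, ∃ ε, Chart γ1 t0 ε (range γ2) ∧ ∀ w ∈ Bx t0 ε, (Ps γ1 t0 w ∈ U ↔ 0 < σ1 * w.im))
    (s2 : ∀ t0, ∃ ε, Chart γ2 t0 ε (range γ1) ∧ ∀ w ∈ Bx t0 ε, (Ps γ2 t0 w ∈ U ↔ 0 < σ2 * w.im))
    {u v : ℂ → ℝ} (hu : ContDiff ℝ 1 u) (hv : ContDiff ℝ 1 v) :
    ∫ z in U, br u v z = σ1 * (∫ t in (0:ℝ)..1, u (γ1 t) * deriv (v ∘ γ1) t) +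
      σ2 * (∫ t in (0:ℝ)..1, u (γ2 t) * deriv (v ∘ γ2) t) := by
  obtain ⟨R, hR0, hR⟩ : ∃ R > 0, closure U ⊆ ball (0:ℂ) R := by
    obtain ⟨R, hR⟩ := hb.closure.subset_ball (0:ℂ)
    refine ⟨max R 1, by positivity, hR.trans (ball_subset_ball (le_max_left _ _))⟩
  set f : ContDiffBump (0:ℂ) := ⟨R, R + 1, hR0, by linarith⟩ with hf
  have f1 : ∀ z ∈ ball (0:ℂ) R, f z = 1 := fun z hz => f.one_of_mem_closedBall (ball_subset_closedBall hz)
  have cf : ContDiff ℝ 1 (f : ℂ → ℝ) := f.contDiff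
  have kf : HasCompactSupport (f : ℂ → ℝ) := f.hasCompactSupport
  have key := stokes_cpt h1 h2 hU hfr hσ1 hσ2 s1 s2 hv (fun z => f z * u z) (cf.mul hu) kf.mul_right
  have g1 : ∀ z ∈ closure U, f z * u z = u z := fun z hz => by rw [f1 z (hR hz), one_mul]
  have e1 : ∫ z in U, br (fun z => f z * u z) v z = ∫ z in U, br u v z := by
    apply setIntegral_congr_fun hU.measurableSet
    intro z hz
    have : (fun z => f z * u z) =ᶠ[𝓝 z] u := by
      filter_upwards [isOpen_ball.mem_nhds (hR (subset_closure hz))] with x hx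
      rw [f1 x hx, one_mul]
    simp only [br]
    rw [this.fderiv_eq]
  have b1 : ∀ t, γ1 t ∈ closure U := fun t => frontier_subset_closure (by rw [hfr]; left; exact ⟨t, rfl⟩)
  have b2 : ∀ t, γ2 t ∈ closure U := fun t => frontier_subset_closure (by rw [hfr]; right; exact ⟨t, rfl⟩)
  rw [e1] at key
  simp only [g1 _ (b1 _), g1 _ (b2 _)] at key
  exact key

end Pool.Agent.Helper682.Coax
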