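import Mathlib
import Pool.Agent.Helper682.Coax.D6

set_option autoImplicit false

namespace Pool.Agent.Helper682.Coax

open Set Filter Topology Metric MeasureTheory Complex

theorem umlauf_neg {γ : ℝ → ℂ} (h : Cv γ) (t0 : ℝ) (hmax : ∀ t, (γ t).re ≤ (γ t0).re)
    (hdn : (deriv γ t0).im < 0) :
    ∫ t in (0:ℝ)..1, (deriv (deriv γ) t / deriv γ t).im = 2 * Real.pi * (-1) := by
  set g : ℝ → ℂ := fun t => γ (-t) with hg
  have d1 : deriv g = fun t => -deriv γ (-t) := by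
    funext t
    exact deriv_comp_neg γ t
  have d2 : deriv (deriv g) = fun t => deriv (deriv γ) (-t) := by
    rw [d1]
    funext t
    rw [deriv.fun_neg, deriv_comp_neg (deriv γ) t, neg_neg]
  have hsm : ContDiff ℝ 2 g := by
    have : ContDiff ℝ 2 γ := contDiff_infty.1 h.smooth 2
    exact this.comp contDiff_neg
  have hper : Function.Periodic g 1 := by
    intro t
    have := h.per (-(t + 1))
    simp only [hg]
    rw [← this]
    congr 1
    ring
  have hinj : InjOn g (Ico 0 1) := by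
    intro a ha b hb hab
    obtain ⟨k, hk⟩ := h.inj' hab
    have h1 : (k : ℝ) < 1 := by linarith [ha.1, ha.2, hb.1, hb.2]
    have h2 : (-1 : ℝ) < k := by linarith [ha.1, ha.2, hb.1, hb.2]
    have h3 : k < 1 := by exact_mod_cast h1
    have h4 : -1 < k := by exact_mod_cast h2
    have h5 : k = 0 := by omega
    rw [h5] at hk
    simp at hk
    exact hk.symm
  have hreg : ∀ t, deriv g t ≠ 0 := by
    intro t
    rw [d1]
    exact neg_ne_zero.2 (h.reg _)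
  have key := umlauf g hsm hper hinj hreg (-t0) (fun t => by simp only [hg, neg_neg]; exact hmax _) (by
    rw [d1]
    simp only [neg_neg, neg_im]
    linarith)
  have e1 : ∀ t, (deriv (deriv g) t / deriv g t).im = -(deriv (deriv γ) (-t) / deriv γ (-t)).im := by
    intro t
    rw [d2, d1]
    simp only [div_neg, neg_im]
  simp only [e1] at key
  rw [intervalIntegral.integral_neg, intervalIntegral.integral_comp_neg (fun t => (deriv (deriv γ) t / deriv γ t).im)] at key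
  have hp : Function.Periodic (fun t => (deriv (deriv γ) t / deriv γ t).im) 1 := by
    intro t
    simp only [h.per' t, h.per'' t]
  have := hp.intervalIntegral_add_eq (-1) 0
  rw [neg_add_cancel, zero_add] at this
  rw [neg_zero, this] at key
  linarith

theorem umlauf_sign {γ : ℝ → ℂ} (h : Cv γ) : ∃ τ : ℝ, (τ = 1 ∨ τ = -1) ∧
    ∫ t in (0:ℝ)..1, (deriv (deriv γ) t / deriv γ t).im = 2 * Real.pi * τ ∧
    ∀ t0, (∀ t, (γ t).re ≤ (γ t0).re) → 0 < τ * (deriv γ t0).im := by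
  have hall : ∀ t0, (∀ t, (γ t).re ≤ (γ t0).re) → ∃ τ : ℝ, (τ = 1 ∨ τ = -1) ∧
      ∫ t in (0:ℝ)..1, (deriv (deriv γ) t / deriv γ t).im = 2 * Real.pi * τ ∧ 0 < τ * (deriv γ t0).im := by
    intro t0 hmax
    have hre : (deriv γ t0).re = 0 := by
      have h1 : HasDerivAt (fun t => (γ t).re) (deriv γ t0).re t0 :=
        reCLM.hasFDerivAt.comp_hasDerivAt t0 (h.hasDeriv t0)
      have h2 : IsLocalMax (fun t => (γ t).re) t0 := Filter.Eventually.of_forall hmax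
      exact h2.hasDerivAt_eq_zero h1
    have him : (deriv γ t0).im ≠ 0 := by
      intro h0
      exact h.reg t0 (Complex.ext (by simpa using hre) (by simpa using h0))
    rcases lt_or_gt_of_ne him with hlt | hgt
    · exact ⟨-1, Or.inr rfl, umlauf_neg h t0 hmax hlt, by linarith⟩
    · refine ⟨1, Or.inl rfl, ?_, by linarith⟩
      rw [mul_one]
      exact umlauf γ (contDiff_infty.1 h.smooth 2) h.per h.inj h.reg t0 hmax hgt
  obtain ⟨p, ⟨t0, rfl⟩, hp⟩ := h.compact.exists_isMaxOn ⟨γ 0, ⟨0, rfl⟩⟩ continuous_re.continuousOn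
  obtain ⟨τ, hτ, hI, -⟩ := hall t0 (fun t => hp ⟨t, rfl⟩)
  refine ⟨τ, hτ, hI, fun t1 ht1 => ?_⟩
  obtain ⟨τ', hτ', hI', h'⟩ := hall t1 ht1
  have : τ' = τ := by
    rw [hI] at hI'
    have hpi := Real.pi_pos
    have : 2 * Real.pi * (τ - τ') = 0 := by linarith
    rcases mul_eq_zero.1 this with h0 | h0
    · linarith
    · linarith
  rwa [this] at h'

theorem orient_aux {γ : ℝ → ℂ} {F U : Set ℂ} {σ τ : ℝ} (hσ : σ = 1 ∨ σ = -1) (hτ : τ = 1 ∨ τ = -1)
    (hτ2 : ∀ t0, (∀ t, (γ t).re ≤ (γ t0).re) → 0 < τ * (deriv γ t0).im)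
    (s : ∀ t0, ∃ ε, Chart γ t0 ε F ∧ ∀ w ∈ Bx t0 ε, (Ps γ t0 w ∈ U ↔ 0 < σ * w.im))
    (t0 : ℝ) (hmaxU : ∀ z ∈ closure U, z.re ≤ (γ t0).re) (hcl : ∀ t, γ t ∈ closure U) : σ * τ = 1 := by
  have h1 := hτ2 t0 (fun t => hmaxU _ (hcl t))
  obtain ⟨ε, hch, hs⟩ := s t0
  have hε := hch.pos
  set w : ℂ := ⟨t0, σ * (ε / 2)⟩ with hw
  have hσa : |σ| = 1 := by rcases hσ with rfl | rfl <;> simp
  have hσ2 : σ * σ = 1 := by rcases hσ with rfl | rfl <;> norm_num
  have hwB : w ∈ Bx t0 ε := by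
    refine ⟨by simp [hw, hε], ?_⟩
    simp only [hw, abs_mul, hσa, one_mul]
    rw [abs_of_pos (by linarith)]
    linarith
  have hwU : Ps γ t0 w ∈ U := (hs w hwB).2 (by
    simp only [hw]
    rw [← mul_assoc, hσ2]
    linarith)
  have h2 := hmaxU _ (subset_closure hwU)
  have h3 : (Ps γ t0 w).re = (γ t0).re - σ * (ε / 2) * (deriv γ t0).im := by
    simp only [Ps, hw, add_re, mul_re, ofReal_re, ofReal_im, I_re, I_im, mul_im]
    ring
  rw [h3] at h2
  have h4 : 0 ≤ σ * (deriv γ t0).im := by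
    have : 0 ≤ (ε / 2) * (σ * (deriv γ t0).im) := by linarith
    exact nonneg_of_mul_nonneg_right this (by linarith)
  rcases hσ with rfl | rfl <;> rcases hτ with rfl | rfl
  · norm_num
  · linarith
  · linarith
  · norm_num

theorem orient {γ1 γ2 : ℝ → ℂ} {U : Set ℂ} (hU : IsOpen U) (hne : U.Nonempty)
    (hb : Bornology.IsBounded U) (hfr : frontier U = range γ1 ∪ range γ2) {σ1 σ2 τ1 τ2 : ℝ}
    (hσ1 : σ1 = 1 ∨ σ1 = -1) (hσ2 : σ2 = 1 ∨ σ2 = -1) (hτ1 : τ1 = 1 ∨ τ1 = -1) (hτ2 : τ2 = 1 ∨ τ2 = -1)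
    (t1 : ∀ t0, (∀ t, (γ1 t).re ≤ (γ1 t0).re) → 0 < τ1 * (deriv γ1 t0).im)
    (t2 : ∀ t0, (∀ t, (γ2 t).re ≤ (γ2 t0).re) → 0 < τ2 * (deriv γ2 t0).im)
    (s1 : ∀ t0, ∃ ε, Chart γ1 t0 ε (range γ2) ∧ ∀ w ∈ Bx t0 ε, (Ps γ1 t0 w ∈ U ↔ 0 < σ1 * w.im))
    (s2 : ∀ t0, ∃ ε, Chart γ2 t0 ε (range γ1) ∧ ∀ w ∈ Bx t0 ε, (Ps γ2 t0 w ∈ U ↔ 0 < σ2 * w.im)) :
    σ1 * τ1 = 1 ∨ σ2 * τ2 = 1 := by
  have hcpt : IsCompact (closure U) := hb.isCompact_closure
  obtain ⟨p, hp, hmax⟩ := hcpt.exists_isMaxOn hne.closure continuous_re.continuousOn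
  have hpU : p ∉ U := by
    intro hpU
    obtain ⟨δ, hδ, hball⟩ := Metric.isOpen_iff.1 hU p hpU
    have h1 : p + (δ / 2 : ℝ) ∈ U := hball (by
      rw [mem_ball, dist_eq, add_sub_cancel_left, norm_real, Real.norm_eq_abs, abs_of_pos (by linarith)]
      linarith)
    have h2 : (p + (δ / 2 : ℝ)).re ≤ p.re := hmax (subset_closure h1)
    rw [add_re, ofReal_re] at h2
    linarith
  have hpf : p ∈ frontier U := by
    rw [hU.frontier_eq]; exact ⟨hp, hpU⟩
  have c1 : ∀ t, γ1 t ∈ closure U := fun t => frontier_subset_closure (by rw [hfr]; left; exact ⟨t, rfl⟩)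
  have c2 : ∀ t, γ2 t ∈ closure U := fun t => frontier_subset_closure (by rw [hfr]; right; exact ⟨t, rfl⟩)
  rw [hfr] at hpf
  rcases hpf with ⟨t0, rfl⟩ | ⟨t0, rfl⟩
  · left
    exact orient_aux hσ1 hτ1 t1 s1 t0 (fun z hz => hmax hz) c1
  · right
    exact orient_aux hσ2 hτ2 t2 s2 t0 (fun z hz => hmax hz) c2

end Pool.Agent.Helper682.Coax
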