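import Mathlib
import Pool.Agent.Helper682.Coax.D7

set_option autoImplicit false

namespace Pool.Agent.Helper682.Coax

open Set Filter Topology Metric MeasureTheory Complex

noncomputable def px (ψ : ℂ → ℝ) (z : ℂ) : ℝ := fderiv ℝ ψ z 1
noncomputable def py (ψ : ℂ → ℝ) (z : ℂ) : ℝ := fderiv ℝ ψ z I
/-- squared gradient -/
noncomputable def nn (ψ : ℂ → ℝ) (z : ℂ) : ℝ := px ψ z ^ 2 + py ψ z ^ 2
noncomputable def qq (ψ : ℂ → ℝ) (ε : ℝ) (z : ℂ) : ℝ := nn ψ z + ε ^ 2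
noncomputable def hh (ψ : ℂ → ℝ) (ε : ℝ) (z : ℂ) : ℝ := (1 / 2) * Real.log (qq ψ ε z)
noncomputable def gd (k ψ : ℂ → ℝ) (z : ℂ) : ℝ := fderiv ℝ k z 1 * px ψ z + fderiv ℝ k z I * py ψ z
noncomputable def jj (ψ : ℂ → ℝ) (z : ℂ) : ℝ := fderiv ℝ (px ψ) z 1 ^ 2 + fderiv ℝ (px ψ) z I ^ 2

section
variable {ψ : ℂ → ℝ} (hψ : ContDiff ℝ 2 ψ)
include hψ

theorem px_C1 : ContDiff ℝ 1 (px ψ) := by
  have : ContDiff ℝ 1 (fderiv ℝ ψ) := hψ.fderiv_right (by norm_num)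
  exact this.clm_apply contDiff_const

theorem py_C1 : ContDiff ℝ 1 (py ψ) := by
  have : ContDiff ℝ 1 (fderiv ℝ ψ) := hψ.fderiv_right (by norm_num)
  exact this.clm_apply contDiff_const

theorem nn_C1 : ContDiff ℝ 1 (nn ψ) := ((px_C1 hψ).pow 2).add ((py_C1 hψ).pow 2)

theorem qq_C1 (ε : ℝ) : ContDiff ℝ 1 (qq ψ ε) := (nn_C1 hψ).add contDiff_const

omit hψ in
theorem nn_nonneg (z : ℂ) : 0 ≤ nn ψ z := by unfold nn; positivity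

omit hψ in
theorem qq_pos {ε : ℝ} (hε : 0 < ε) (z : ℂ) : 0 < qq ψ ε z := by
  unfold qq
  have := nn_nonneg (ψ := ψ) z
  positivity

theorem hh_C1 {ε : ℝ} (hε : 0 < ε) : ContDiff ℝ 1 (hh ψ ε) := by
  unfold hh
  exact contDiff_const.mul ((qq_C1 hψ ε).log fun z => (qq_pos hε z).ne')

theorem second (z v w : ℂ) : fderiv ℝ (fun z => fderiv ℝ ψ z v) z w = iteratedFDeriv ℝ 2 ψ z ![w, v] := by
  have h1 : ContDiff ℝ 1 (fderiv ℝ ψ) := hψ.fderiv_right (by norm_num)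
  have h2 : DifferentiableAt ℝ (fderiv ℝ ψ) z := h1.differentiable (by simp) z
  rw [iteratedFDeriv_two_apply]
  rw [fderiv_clm_apply h2 (differentiableAt_const v)]
  simp

theorem hess_symm (z : ℂ) : fderiv ℝ (py ψ) z 1 = fderiv ℝ (px ψ) z I := by
  have h1 : fderiv ℝ (py ψ) z 1 = iteratedFDeriv ℝ 2 ψ z ![1, I] := second hψ z I 1
  have h2 : fderiv ℝ (px ψ) z I = iteratedFDeriv ℝ 2 ψ z ![I, 1] := second hψ z 1 I
  have h3 : IsSymmSndFDerivAt ℝ ψ z := hψ.contDiffAt.isSymmSndFDerivAt (by simp)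
  rw [h1, h2, iteratedFDeriv_two_apply, iteratedFDeriv_two_apply]
  exact h3 1 I

theorem hess_harm {U : Set ℂ} (hh : Harm U ψ) {z : ℂ} (hz : z ∈ U) :
    fderiv ℝ (py ψ) z I = -fderiv ℝ (px ψ) z 1 := by
  have h1 : fderiv ℝ (py ψ) z I = iteratedFDeriv ℝ 2 ψ z ![I, I] := second hψ z I I
  have h2 : fderiv ℝ (px ψ) z 1 = iteratedFDeriv ℝ 2 ψ z ![1, 1] := second hψ z 1 1
  have := hh z hz
  rw [h1, h2]
  linarith

theorem fd_mul {k p : ℂ → ℝ} (hk : ContDiff ℝ 1 k) (hp : ContDiff ℝ 1 p) (z e : ℂ) :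
    fderiv ℝ (fun z => k z * p z) z e = fderiv ℝ k z e * p z + k z * fderiv ℝ p z e := by
  rw [fderiv_fun_mul (hk.differentiable (by simp) z) (hp.differentiable (by simp) z)]
  simp only [_root_.add_apply, _root_.smul_apply, smul_eq_mul]
  ring

theorem fd_nn (z e : ℂ) : fderiv ℝ (nn ψ) z e = 2 * px ψ z * fderiv ℝ (px ψ) z e + 2 * py ψ z * fderiv ℝ (py ψ) z e := by
  have h1 : HasFDerivAt (px ψ) (fderiv ℝ (px ψ) z) z := ((px_C1 hψ).differentiable (by simp) z).hasFDerivAt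
  have h2 : HasFDerivAt (py ψ) (fderiv ℝ (py ψ) z) z := ((py_C1 hψ).differentiable (by simp) z).hasFDerivAt
  have h3 := (h1.pow 2).add (h2.pow 2)
  have h4 : fderiv ℝ (nn ψ) z = _ := h3.fderiv
  rw [h4]
  simp

theorem fd_qq (ε : ℝ) (z e : ℂ) : fderiv ℝ (qq ψ ε) z e = fderiv ℝ (nn ψ) z e := by
  have : fderiv ℝ (qq ψ ε) z = fderiv ℝ (nn ψ) z := by
    unfold qq
    exact fderiv_add_const (ε ^ 2)
  rw [this]

theorem fd_hh {ε : ℝ} (hε : 0 < ε) (z e : ℂ) :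
    fderiv ℝ (hh ψ ε) z e = (1 / 2) * (fderiv ℝ (nn ψ) z e / qq ψ ε z) := by
  have h1 : HasFDerivAt (qq ψ ε) (fderiv ℝ (qq ψ ε) z) z := ((qq_C1 hψ ε).differentiable (by simp) z).hasFDerivAt
  have h2 := (h1.log (qq_pos hε z).ne').const_mul (1 / 2)
  have h3 : fderiv ℝ (hh ψ ε) z = _ := h2.fderiv
  rw [h3, ← fd_qq hψ ε z e]
  simp only [_root_.smul_apply, smul_eq_mul]
  ring

/-- the multiplier `G(ψ)/q` -/
noncomputable def KK (G : ℝ → ℝ) (ψ : ℂ → ℝ) (ε : ℝ) (z : ℂ) : ℝ := G (ψ z) / qq ψ ε z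

theorem KK_C1 {G : ℝ → ℝ} (hG : ContDiff ℝ 1 G) {ε : ℝ} (hε : 0 < ε) : ContDiff ℝ 1 (KK G ψ ε) := by
  unfold KK
  exact (hG.comp (hψ.of_le (by norm_num))).div (qq_C1 hψ ε) fun z => (qq_pos hε z).ne'

theorem fd_comp {G : ℝ → ℝ} (hG : ContDiff ℝ 1 G) (z e : ℂ) :
    fderiv ℝ (fun z => G (ψ z)) z e = deriv G (ψ z) * fderiv ℝ ψ z e := by
  have h1 : HasFDerivAt ψ (fderiv ℝ ψ z) z := (hψ.differentiable (by simp) z).hasFDerivAt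
  have h2 : HasDerivAt G (deriv G (ψ z)) (ψ z) := (hG.differentiable (by simp) _).hasDerivAt
  have h3 := h2.comp_hasFDerivAt z h1
  have h4 : fderiv ℝ (fun z => G (ψ z)) z = _ := h3.fderiv
  rw [h4]
  simp

theorem fd_KK {G : ℝ → ℝ} (hG : ContDiff ℝ 1 G) {ε : ℝ} (hε : 0 < ε) (z e : ℂ) :
    fderiv ℝ (KK G ψ ε) z e = (deriv G (ψ z) * fderiv ℝ ψ z e * qq ψ ε z - G (ψ z) * fderiv ℝ (nn ψ) z e)
      / qq ψ ε z ^ 2 := by
  have hq := (qq_pos (ψ := ψ) hε z).ne'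
  have h1 : ContDiff ℝ 1 fun z => G (ψ z) := hG.comp (hψ.of_le (by norm_num))
  have h2 : (fun z => G (ψ z)) = fun z => KK G ψ ε z * qq ψ ε z := by
    funext z
    unfold KK
    rw [div_mul_cancel₀ _ (qq_pos hε z).ne']
  have h3 := fd_mul hψ (KK_C1 hψ hG hε) (qq_C1 hψ ε) z e
  rw [← h2, fd_comp hψ hG, fd_qq hψ] at h3
  have h4 : KK G ψ ε z = G (ψ z) / qq ψ ε z := rfl
  rw [h4] at h3
  field_simp
  field_simp at h3
  linarith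

theorem pointB {U : Set ℂ} (hharm : Harm U ψ) {z : ℂ} (hz : z ∈ U) {G : ℝ → ℝ} (hG : ContDiff ℝ 1 G)
    {ε : ℝ} (hε : 0 < ε) :
    br (fun z => KK G ψ ε z * px ψ z) (fun z => -py ψ z) z - br (fun z => KK G ψ ε z * (-py ψ z)) (px ψ) z =
      G (ψ z) * (2 * ε ^ 2 * jj ψ z / qq ψ ε z ^ 2) + deriv G (ψ z) * gd (hh ψ ε) ψ z := by
  have hq := (qq_pos (ψ := ψ) hε z).ne'
  have hneg : ∀ e, fderiv ℝ (fun z => -py ψ z) z e = -fderiv ℝ (py ψ) z e := by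
    intro e
    rw [fderiv_fun_neg]
    rfl
  unfold br gd
  rw [fd_mul hψ (KK_C1 hψ hG hε) (px_C1 hψ), fd_mul hψ (KK_C1 hψ hG hε) (px_C1 hψ),
    fd_mul hψ (KK_C1 hψ hG hε) (py_C1 hψ).neg, fd_mul hψ (KK_C1 hψ hG hε) (py_C1 hψ).neg,
    hneg, hneg, fd_KK hψ hG hε, fd_KK hψ hG hε, fd_hh hψ hε, fd_hh hψ hε, fd_nn hψ, fd_nn hψ,
    hess_symm hψ, hess_harm hψ hharm hz]
  have e1 : fderiv ℝ ψ z 1 = px ψ z := rfl
  have e2 : fderiv ℝ ψ z I = py ψ z := rfl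
  rw [e1, e2]
  unfold KK jj
  have hqe : ε ^ 2 = qq ψ ε z - (px ψ z ^ 2 + py ψ z ^ 2) := by unfold qq nn; ring
  rw [hqe]
  set a := fderiv ℝ (px ψ) z 1
  set b := fderiv ℝ (px ψ) z I
  set p := px ψ z
  set r := py ψ z
  set q := qq ψ ε z
  field_simp
  ring

end

end Pool.Agent.Helper682.Coax
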