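import Mathlib
import Pool.Agent.Helper682.Coax.D8

set_option autoImplicit false

namespace Pool.Agent.Helper682.Coax

open Set Filter Topology Metric MeasureTheory Complex

section
variable {γ : ℝ → ℂ} (h : Cv γ) {ψ : ℂ → ℝ} (hψ : ContDiff ℝ 2 ψ)
include h hψ

theorem tan_eq {c : ℝ} (hc : ∀ t, ψ (γ t) = c) (t : ℝ) :
    px ψ (γ t) * (deriv γ t).re + py ψ (γ t) * (deriv γ t).im = 0 := by
  have h1 : HasFDerivAt ψ (fderiv ℝ ψ (γ t)) (γ t) := (hψ.differentiable (by simp) _).hasFDerivAt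
  have h2 := h1.comp_hasDerivAt t (h.hasDeriv t)
  have h3 : ψ ∘ γ = fun _ => c := funext hc
  rw [h3] at h2
  have h4 := h2.unique (hasDerivAt_const t c)
  rw [fd_apply] at h4
  unfold px py
  linarith

omit h hψ in
theorem rho_eq (γ : ℝ → ℂ) (ψ : ℂ → ℝ) (t : ℝ) : rho γ ψ t = py ψ (γ t) * (deriv γ t).re - px ψ (γ t) * (deriv γ t).im := by
  unfold rho
  rw [fd_apply]
  simp only [mul_re, I_re, zero_mul, I_im, one_mul, zero_sub, mul_im, zero_add]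
  unfold px py
  ring

theorem nn_rho {c : ℝ} (hc : ∀ t, ψ (γ t) = c) (t : ℝ) :
    nn ψ (γ t) * ‖deriv γ t‖ ^ 2 = rho γ ψ t ^ 2 := by
  have h1 := tan_eq h hψ hc t
  rw [rho_eq, Complex.sq_norm, normSq_apply]
  unfold nn
  linear_combination (px ψ (γ t) * (deriv γ t).re + py ψ (γ t) * (deriv γ t).im) * h1

omit hψ in
theorem deriv_comp' {u : ℂ → ℝ} (hu : ContDiff ℝ 1 u) (t : ℝ) :
    HasDerivAt (u ∘ γ) (deriv (u ∘ γ) t) t := by
  have h1 : ContDiff ℝ 1 γ := h.smooth.of_le (by exact_mod_cast le_top)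
  exact ((hu.comp h1).differentiable (by simp) t).hasDerivAt

theorem bd_B {c : ℝ} (hc : ∀ t, ψ (γ t) = c) (t : ℝ) :
    px ψ (γ t) * deriv ((fun z => -py ψ z) ∘ γ) t - (-py ψ (γ t)) * deriv (px ψ ∘ γ) t =
      -(deriv (deriv γ) t / deriv γ t).im * nn ψ (γ t) := by
  have h1 : HasDerivAt (px ψ ∘ γ) (deriv (px ψ ∘ γ) t) t := deriv_comp' h (px_C1 hψ) t
  have h2 : HasDerivAt (py ψ ∘ γ) (deriv (py ψ ∘ γ) t) t := deriv_comp' h (py_C1 hψ) t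
  have h3 : deriv ((fun z => -py ψ z) ∘ γ) t = -deriv (py ψ ∘ γ) t := h2.neg.deriv
  have hd : HasDerivAt (deriv γ) (deriv (deriv γ) t) t := (h.diff' t).hasDerivAt
  have h4 : HasDerivAt (fun t => (deriv γ t).re) (deriv (deriv γ) t).re t :=
    reCLM.hasFDerivAt.comp_hasDerivAt t hd
  have h5 : HasDerivAt (fun t => (deriv γ t).im) (deriv (deriv γ) t).im t :=
    imCLM.hasFDerivAt.comp_hasDerivAt t hd
  have h6 := (h1.mul h4).add (h2.mul h5)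
  have h7 : (px ψ ∘ γ * (fun t => (deriv γ t).re) + py ψ ∘ γ * fun t => (deriv γ t).im) = fun _ => (0:ℝ) := by
    funext s
    simp only [Pi.add_apply, Pi.mul_apply, Function.comp_apply]
    exact tan_eq h hψ hc s
  rw [h7] at h6
  have h8 := h6.unique (hasDerivAt_const t (0:ℝ))
  have h9 := tan_eq h hψ hc t
  simp only [Function.comp_apply] at h8
  rw [h3]
  have hN : 0 < normSq (deriv γ t) := normSq_pos.2 (h.reg t)
  rw [div_im]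
  rw [normSq_apply] at hN ⊢
  unfold nn
  set p := px ψ (γ t)
  set r := py ψ (γ t)
  set p' := deriv (px ψ ∘ γ) t
  set r' := deriv (py ψ ∘ γ) t
  set A1 := (deriv γ t).re
  set A2 := (deriv γ t).im
  set B1 := (deriv (deriv γ) t).re
  set B2 := (deriv (deriv γ) t).im
  obtain ⟨l, hl⟩ : ∃ l, l * (A1 * A1 + A2 * A2) = r * A1 - p * A2 :=
    ⟨(r * A1 - p * A2) / (A1 * A1 + A2 * A2), div_mul_cancel₀ _ hN.ne'⟩
  have hp : p = -l * A2 := by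
    apply mul_right_cancel₀ hN.ne'
    linear_combination A1 * h9 + A2 * hl
  have hr : r = l * A1 := by
    apply mul_right_cancel₀ hN.ne'
    linear_combination A2 * h9 - A1 * hl
  rw [hp, hr] at h8 ⊢
  have h10 : l * (p' * A1 + r' * A2) = l ^ 2 * (A2 * B1 - A1 * B2) := by
    linear_combination l * h8
  have hN2 : (A1 * A1 + A2 * A2) ≠ 0 := hN.ne'
  apply mul_right_cancel₀ hN2
  have h11 : B2 * A1 / (A1 * A1 + A2 * A2) * (A1 * A1 + A2 * A2) = B2 * A1 := div_mul_cancel₀ _ hN2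
  have h12 : B1 * A2 / (A1 * A1 + A2 * A2) * (A1 * A1 + A2 * A2) = B1 * A2 := div_mul_cancel₀ _ hN2
  linear_combination (A1 * A1 + A2 * A2) * h10 + ((-l * A2) ^ 2 + (l * A1) ^ 2) * (h11 - h12)

end

/-- the analytic setting -/
structure Ann (γ1 γ2 : ℝ → ℂ) (U : Set ℂ) (ψ : ℂ → ℝ) (c1 c2 σ1 σ2 τ1 τ2 : ℝ) : Prop where
  h1 : Cv γ1
  h2 : Cv γ2
  opn : IsOpen U
  ne : U.Nonempty
  bdd : Bornology.IsBounded U
  sm : ContDiff ℝ 2 ψ
  harm : Harm U ψ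
  lt : c1 < c2
  v1 : ∀ t, ψ (γ1 t) = c1
  v2 : ∀ t, ψ (γ2 t) = c2
  btw : ∀ z ∈ U, c1 < ψ z ∧ ψ z < c2
  ρ1 : ∀ t, 0 < σ1 * rho γ1 ψ t
  ρ2 : ∀ t, 0 < -(σ2 * rho γ2 ψ t)
  s1 : σ1 = 1 ∨ σ1 = -1
  s2 : σ2 = 1 ∨ σ2 = -1
  t1 : τ1 = 1 ∨ τ1 = -1
  t2 : τ2 = 1 ∨ τ2 = -1
  stokes : ∀ {u v : ℂ → ℝ}, ContDiff ℝ 1 u → ContDiff ℝ 1 v →
    ∫ z in U, br u v z = σ1 * (∫ t in (0:ℝ)..1, u (γ1 t) * deriv (v ∘ γ1) t) +
      σ2 * (∫ t in (0:ℝ)..1, u (γ2 t) * deriv (v ∘ γ2) t)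
  um1 : ∫ t in (0:ℝ)..1, (deriv (deriv γ1) t / deriv γ1 t).im = 2 * Real.pi * τ1
  um2 : ∫ t in (0:ℝ)..1, (deriv (deriv γ2) t / deriv γ2 t).im = 2 * Real.pi * τ2
  ori : σ1 * τ1 = 1 ∨ σ2 * τ2 = 1
  fr : frontier U = range γ1 ∪ range γ2
  disj : Disjoint (range γ1) (range γ2)

theorem mk_Ann {γ1 γ2 : ℝ → ℂ} (h1 : Cv γ1) (h2 : Cv γ2) (hd : Disjoint (range γ1) (range γ2))
    {U : Set ℂ} (hU : IsOpen U) (hUc : IsConnected U) (hb : Bornology.IsBounded U)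
    (hfr : frontier U = range γ1 ∪ range γ2) {ψ : ℂ → ℝ} (hψ : ContDiff ℝ 2 ψ) (hharm : Harm U ψ)
    {c1 c2 : ℝ} (hc : c1 < c2) (v1 : ∀ t, ψ (γ1 t) = c1) (v2 : ∀ t, ψ (γ2 t) = c2) :
    ∃ σ1 σ2 τ1 τ2, Ann γ1 γ2 U ψ c1 c2 σ1 σ2 τ1 τ2 := by
  have hbtw := strict_between hU hUc hb hfr ⟨γ1 0, 0, rfl⟩ ⟨γ2 0, 0, rfl⟩ hψ hharm hc
    (by rintro _ ⟨t, rfl⟩; exact v1 t) (by rintro _ ⟨t, rfl⟩; exact v2 t)
  obtain ⟨σ1, hσ1, hρ1, hs1⟩ := sides h1 h2.compact.isClosed hd hU hfr hψ hharm v1 (fun z hz => (hbtw z hz).1)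
  have hneg : ContDiff ℝ 2 (fun z => -ψ z) := hψ.neg
  have hharm' : Harm U (fun z => -ψ z) := by
    intro z hz
    have := hharm z hz
    have e : iteratedFDeriv ℝ 2 (fun z => -ψ z) z = -iteratedFDeriv ℝ 2 ψ z := iteratedFDeriv_neg_apply (f := ψ)
    rw [e]
    simp only [_root_.neg_apply]
    linarith
  obtain ⟨σ2, hσ2, hρ2, hs2⟩ := sides (c := -c2) h2 h1.compact.isClosed hd.symm hU (by rw [hfr, union_comm]) hneg hharm'
    (fun t => by rw [v2 t]) (fun z hz => by linarith [(hbtw z hz).2])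
  obtain ⟨τ1, ht1, hu1, hm1⟩ := umlauf_sign h1
  obtain ⟨τ2, ht2, hu2, hm2⟩ := umlauf_sign h2
  refine ⟨σ1, σ2, τ1, τ2, ?_⟩
  exact {
    h1 := h1
    h2 := h2
    opn := hU
    ne := hUc.nonempty
    bdd := hb
    sm := hψ
    harm := hharm
    lt := hc
    v1 := v1
    v2 := v2
    btw := hbtw
    ρ1 := hρ1
    ρ2 := by
      intro t
      have := hρ2 t
      have e : rho γ2 (fun z => -ψ z) t = -rho γ2 ψ t := by
        unfold rho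
        rw [fderiv_fun_neg]
        rfl
      rw [e] at this
      linarith
    s1 := hσ1
    s2 := hσ2
    t1 := ht1
    t2 := ht2
    stokes := fun hu hv => stokes h1 h2 hU hb hfr hσ1 hσ2 hs1 hs2 hu hv
    um1 := hu1
    um2 := hu2
    ori := orient hU hUc.nonempty hb hfr hσ1 hσ2 ht1 ht2 hm1 hm2 hs1 hs2
    fr := hfr
    disj := hd }

namespace Ann
variable {γ1 γ2 : ℝ → ℂ} {U : Set ℂ} {ψ : ℂ → ℝ} {c1 c2 σ1 σ2 τ1 τ2 : ℝ}
  (H : Ann γ1 γ2 U ψ c1 c2 σ1 σ2 τ1 τ2)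
include H

theorem cint {f : ℂ → ℝ} (hf : Continuous f) : IntegrableOn f U := by
  have h1 : IntegrableOn f (closure U) := hf.continuousOn.integrableOn_compact H.bdd.isCompact_closure
  exact h1.mono_set subset_closure

omit H in
theorem br_im {u : ℂ → ℝ} (z : ℂ) : br u im z = fderiv ℝ u z 1 := by
  have : fderiv ℝ im z = imCLM := imCLM.fderiv
  unfold br
  rw [this]
  simp

omit H in
theorem br_re {u : ℂ → ℝ} (z : ℂ) : br u re z = -fderiv ℝ u z I := by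
  have : fderiv ℝ re z = reCLM := reCLM.fderiv
  unfold br
  rw [this]
  simp

theorem idA {k : ℂ → ℝ} (hk : ContDiff ℝ 1 k) : ∫ z in U, gd k ψ z =
    (∫ t in (0:ℝ)..1, k (γ2 t) * (-(σ2 * rho γ2 ψ t))) - ∫ t in (0:ℝ)..1, k (γ1 t) * (σ1 * rho γ1 ψ t) := by
  have cx := px_C1 H.sm
  have cy := py_C1 H.sm
  have S1 := H.stokes (hk.mul cx) imCLM.contDiff
  have S2 := H.stokes (hk.mul cy) reCLM.contDiff
  have i1 : ContDiff ℝ 1 (im : ℂ → ℝ) := imCLM.contDiff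
  have i2 : ContDiff ℝ 1 (re : ℂ → ℝ) := reCLM.contDiff
  have e1 : ∫ z in U, gd k ψ z = (∫ z in U, br (fun z => k z * px ψ z) im z) - ∫ z in U, br (fun z => k z * py ψ z) re z := by
    rw [← integral_sub (H.cint (br_cont (hk.mul cx) i1)) (H.cint (br_cont (hk.mul cy) i2))]
    apply setIntegral_congr_fun H.opn.measurableSet
    intro z hz
    simp only [br_im, br_re]
    rw [fd_mul H.sm hk cx, fd_mul H.sm hk cy, hess_harm H.sm H.harm hz]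
    unfold gd
    ring
  have e2 : ∀ γ : ℝ → ℂ, Cv γ → ∀ t, deriv (im ∘ γ) t = (deriv γ t).im := fun γ h t =>
    (imCLM.hasFDerivAt.comp_hasDerivAt t (h.hasDeriv t)).deriv
  have e3 : ∀ γ : ℝ → ℂ, Cv γ → ∀ t, deriv (re ∘ γ) t = (deriv γ t).re := fun γ h t =>
    (reCLM.hasFDerivAt.comp_hasDerivAt t (h.hasDeriv t)).deriv
  have e4 : ∀ (γ : ℝ → ℂ) (h : Cv γ) (σ : ℝ), σ * (∫ t in (0:ℝ)..1, (k (γ t) * px ψ (γ t)) * deriv (im ∘ γ) t) -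
      σ * (∫ t in (0:ℝ)..1, (k (γ t) * py ψ (γ t)) * deriv (re ∘ γ) t) =
      - ∫ t in (0:ℝ)..1, k (γ t) * (σ * rho γ ψ t) := by
    intro γ h σ
    rw [← mul_sub, ← intervalIntegral.integral_sub, ← intervalIntegral.integral_const_mul,
      ← intervalIntegral.integral_neg]
    · congr 1
      funext t
      rw [e2 γ h, e3 γ h, rho_eq]
      ring
    · exact (bd_cont h (hk.mul cx).continuous i1).intervalIntegrable _ _
    · exact (bd_cont h (hk.mul cy).continuous i2).intervalIntegrable _ _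
  have e5 := e4 γ1 H.h1 σ1
  have e6 := e4 γ2 H.h2 σ2
  change ∫ z in U, br (fun z => k z * px ψ z) im z = σ1 * (∫ t in (0:ℝ)..1, (k (γ1 t) * px ψ (γ1 t)) * deriv (im ∘ γ1) t) +
    σ2 * (∫ t in (0:ℝ)..1, (k (γ2 t) * px ψ (γ2 t)) * deriv (im ∘ γ2) t) at S1
  change ∫ z in U, br (fun z => k z * py ψ z) re z = σ1 * (∫ t in (0:ℝ)..1, (k (γ1 t) * py ψ (γ1 t)) * deriv (re ∘ γ1) t) +
    σ2 * (∫ t in (0:ℝ)..1, (k (γ2 t) * py ψ (γ2 t)) * deriv (re ∘ γ2) t) at S2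
  have e7 : ∫ t in (0:ℝ)..1, k (γ2 t) * (-(σ2 * rho γ2 ψ t)) = - ∫ t in (0:ℝ)..1, k (γ2 t) * (σ2 * rho γ2 ψ t) := by
    rw [← intervalIntegral.integral_neg]
    congr 1
    funext t
    ring
  rw [e1, e7, S1, S2]
  linarith

/-- boundary argument integral -/
noncomputable def Om (γ : ℝ → ℂ) (ψ : ℂ → ℝ) (ε : ℝ) : ℝ :=
  ∫ t in (0:ℝ)..1, -(deriv (deriv γ) t / deriv γ t).im * (nn ψ (γ t) / qq ψ ε (γ t))

theorem idB {G : ℝ → ℝ} (hG : ContDiff ℝ 1 G) {ε : ℝ} (hε : 0 < ε) :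
    ∫ z in U, (G (ψ z) * (2 * ε ^ 2 * jj ψ z / qq ψ ε z ^ 2) + deriv G (ψ z) * gd (hh ψ ε) ψ z) =
      σ1 * (G c1 * Om γ1 ψ ε) + σ2 * (G c2 * Om γ2 ψ ε) := by
  have cx := px_C1 H.sm
  have cy := py_C1 H.sm
  have cK := KK_C1 H.sm hG hε
  have S1 := H.stokes (cK.mul cx) cy.neg
  have S2 := H.stokes (cK.mul cy.neg) cx
  have e1 : ∫ z in U, (G (ψ z) * (2 * ε ^ 2 * jj ψ z / qq ψ ε z ^ 2) + deriv G (ψ z) * gd (hh ψ ε) ψ z) =
      (∫ z in U, br (fun z => KK G ψ ε z * px ψ z) (fun z => -py ψ z) z) -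
        ∫ z in U, br (fun z => KK G ψ ε z * (-py ψ z)) (px ψ) z := by
    rw [← integral_sub (H.cint (br_cont (cK.mul cx) cy.neg)) (H.cint (br_cont (cK.mul cy.neg) cx))]
    apply setIntegral_congr_fun H.opn.measurableSet
    intro z hz
    exact (pointB H.sm H.harm hz hG hε).symm
  have e4 : ∀ (γ : ℝ → ℂ) (h : Cv γ) (c : ℝ) (hc : ∀ t, ψ (γ t) = c) (σ : ℝ),
      σ * (∫ t in (0:ℝ)..1, (KK G ψ ε (γ t) * px ψ (γ t)) * deriv ((fun z => -py ψ z) ∘ γ) t) -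
      σ * (∫ t in (0:ℝ)..1, (KK G ψ ε (γ t) * (-py ψ (γ t))) * deriv (px ψ ∘ γ) t) =
      σ * (G c * Om γ ψ ε) := by
    intro γ h c hc σ
    unfold Om
    rw [← mul_sub, ← intervalIntegral.integral_sub]
    · congr 1
      rw [← intervalIntegral.integral_const_mul]
      congr 1
      funext t
      have := bd_B h H.sm hc t
      unfold KK
      rw [hc t]
      have h2 : G c / qq ψ ε (γ t) * px ψ (γ t) * deriv ((fun z => -py ψ z) ∘ γ) t -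
          G c / qq ψ ε (γ t) * (-py ψ (γ t)) * deriv (px ψ ∘ γ) t = G c / qq ψ ε (γ t) *
          (px ψ (γ t) * deriv ((fun z => -py ψ z) ∘ γ) t - (-py ψ (γ t)) * deriv (px ψ ∘ γ) t) := by ring
      rw [h2, this]
      ring
    · exact (bd_cont h (cK.mul cx).continuous cy.neg).intervalIntegrable _ _
    · exact (bd_cont h (cK.mul cy.neg).continuous cx).intervalIntegrable _ _
  have e5 := e4 γ1 H.h1 c1 H.v1 σ1
  have e6 := e4 γ2 H.h2 c2 H.v2 σ2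
  change ∫ z in U, br (fun z => KK G ψ ε z * px ψ z) (fun z => -py ψ z) z =
    σ1 * (∫ t in (0:ℝ)..1, (KK G ψ ε (γ1 t) * px ψ (γ1 t)) * deriv ((fun z => -py ψ z) ∘ γ1) t) +
    σ2 * (∫ t in (0:ℝ)..1, (KK G ψ ε (γ2 t) * px ψ (γ2 t)) * deriv ((fun z => -py ψ z) ∘ γ2) t) at S1
  change ∫ z in U, br (fun z => KK G ψ ε z * (-py ψ z)) (px ψ) z =
    σ1 * (∫ t in (0:ℝ)..1, (KK G ψ ε (γ1 t) * (-py ψ (γ1 t))) * deriv (px ψ ∘ γ1) t) +
    σ2 * (∫ t in (0:ℝ)..1, (KK G ψ ε (γ2 t) * (-py ψ (γ2 t))) * deriv (px ψ ∘ γ2) t) at S2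
  rw [e1, S1, S2]
  linarith

end Ann

end Pool.Agent.Helper682.Coax
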