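import Mathlib
import Pool.Agent.Helper682.Coax.D9

set_option autoImplicit false

namespace Pool.Agent.Helper682.Coax

open Set Filter Topology Metric MeasureTheory Complex

section
variable {γ : ℝ → ℂ} (h : Cv γ) {ψ : ℂ → ℝ} (hψ : ContDiff ℝ 2 ψ)
include h hψ

theorem lim_h {r : ℝ → ℝ} (hr : Continuous r) (hpos : ∀ t, 0 < nn ψ (γ t)) :
    Tendsto (fun ε => ∫ t in (0:ℝ)..1, hh ψ ε (γ t) * r t) (𝓝[>] 0)
      (𝓝 (∫ t in (0:ℝ)..1, (1 / 2) * Real.log (nn ψ (γ t)) * r t)) := by
  have hn : Continuous fun t => nn ψ (γ t) := (nn_C1 hψ).continuous.comp h.cont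
  have hc : Continuous (Function.uncurry fun (ε : ℝ) (t : ℝ) => (1 / 2) * Real.log (nn ψ (γ t) + ε ^ 2) * r t) := by
    apply Continuous.mul
    · apply Continuous.mul continuous_const
      apply Continuous.log
      · exact (hn.comp continuous_snd).add (continuous_fst.pow 2)
      · rintro ⟨ε, t⟩
        have := hpos t
        simp only
        positivity
    · fun_prop
  have h1 := intervalIntegral.continuous_parametric_intervalIntegral_of_continuous' (μ := volume) hc 0 1
  have h2 := (h1.tendsto 0).mono_left (nhdsWithin_le_nhds (s := Ioi (0:ℝ)))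
  have e : (∫ t in (0:ℝ)..1, (1 / 2) * Real.log (nn ψ (γ t) + (0:ℝ) ^ 2) * r t) =
      ∫ t in (0:ℝ)..1, (1 / 2) * Real.log (nn ψ (γ t)) * r t := by
    congr 1
    funext t
    rw [zero_pow two_ne_zero, add_zero]
  rw [e] at h2
  exact h2

theorem lim_Om {τ : ℝ} (hpos : ∀ t, 0 < nn ψ (γ t))
    (hum : ∫ t in (0:ℝ)..1, (deriv (deriv γ) t / deriv γ t).im = 2 * Real.pi * τ) :
    Tendsto (fun ε => Ann.Om γ ψ ε) (𝓝[>] 0) (𝓝 (-(2 * Real.pi * τ))) := by
  have hn : Continuous fun t => nn ψ (γ t) := (nn_C1 hψ).continuous.comp h.cont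
  have hg : Continuous fun t => (deriv (deriv γ) t / deriv γ t).im :=
    continuous_im.comp (h.cont''.div h.cont' h.reg)
  have hc : Continuous (Function.uncurry fun (ε : ℝ) (t : ℝ) => -(deriv (deriv γ) t / deriv γ t).im *
      (nn ψ (γ t) / (nn ψ (γ t) + ε ^ 2))) := by
    apply Continuous.mul
    · exact (hg.comp continuous_snd).neg
    · apply Continuous.div
      · exact hn.comp continuous_snd
      · exact (hn.comp continuous_snd).add (continuous_fst.pow 2)
      · rintro ⟨ε, t⟩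
        have := hpos t
        simp only
        positivity
  have h1 := intervalIntegral.continuous_parametric_intervalIntegral_of_continuous' (μ := volume) hc 0 1
  have h2 := (h1.tendsto 0).mono_left (nhdsWithin_le_nhds (s := Ioi (0:ℝ)))
  have e : (∫ t in (0:ℝ)..1, -(deriv (deriv γ) t / deriv γ t).im * (nn ψ (γ t) / (nn ψ (γ t) + (0:ℝ) ^ 2))) =
      -(2 * Real.pi * τ) := by
    rw [← hum, ← intervalIntegral.integral_neg]
    congr 1
    funext t
    rw [zero_pow two_ne_zero, add_zero, div_self (hpos t).ne', mul_one]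
  rw [e] at h2
  exact h2

theorem bd_low {c : ℝ} (hc : ∀ t, ψ (γ t) = c) {r : ℝ → ℝ} (hr : Continuous r) (hrpos : ∀ t, 0 < r t)
    (hr2 : ∀ t, r t ^ 2 = rho γ ψ t ^ 2) {Φ m : ℝ}
    (hΦ : ∫ t in (0:ℝ)..1, r t = Φ) (hm : ∫ t in (0:ℝ)..1, (1 / 2) * Real.log (nn ψ (γ t)) * r t = Φ * m) :
    Φ * Real.exp m ≤ ∫ t in (0:ℝ)..1, nn ψ (γ t) * ‖deriv γ t‖ := by
  have hpos : ∀ t, 0 < nn ψ (γ t) := by
    intro t
    have h1 := nn_rho h hψ hc t
    rw [← hr2] at h1
    have h2 : 0 < r t ^ 2 := pow_pos (hrpos t) 2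
    by_contra hn
    push Not at hn
    have : nn ψ (γ t) * ‖deriv γ t‖ ^ 2 ≤ 0 := mul_nonpos_of_nonpos_of_nonneg hn (by positivity)
    linarith
  have hn : Continuous fun t => nn ψ (γ t) := (nn_C1 hψ).continuous.comp h.cont
  have hl : Continuous fun t => (1 / 2) * Real.log (nn ψ (γ t)) :=
    continuous_const.mul (hn.log fun t => (hpos t).ne')
  have hpt : ∀ t, Real.exp m * (r t + (1 / 2) * Real.log (nn ψ (γ t)) * r t - m * r t) ≤ nn ψ (γ t) * ‖deriv γ t‖ := by
    intro t
    set x := (1 / 2) * Real.log (nn ψ (γ t)) with hx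
    have h1 : nn ψ (γ t) * ‖deriv γ t‖ = Real.exp x * r t := by
      have h2 : Real.exp x ^ 2 = nn ψ (γ t) := by
        rw [← Real.exp_nat_mul, hx]
        push_cast
        rw [← mul_assoc, show (2:ℝ) * (1 / 2) = 1 by norm_num, one_mul, Real.exp_log (hpos t)]
      have h3 : (Real.exp x * ‖deriv γ t‖) ^ 2 = r t ^ 2 := by
        rw [mul_pow, h2, hr2, nn_rho h hψ hc]
      have h4 : Real.exp x * ‖deriv γ t‖ = r t := by
        exact (pow_left_inj₀ (by positivity) (hrpos t).le two_ne_zero).1 h3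
      rw [← h2, ← h4]
      ring
    rw [h1]
    have h5 := Real.add_one_le_exp (x - m)
    have h6 : Real.exp x = Real.exp m * Real.exp (x - m) := by
      rw [← Real.exp_add]
      congr 1
      ring
    rw [h6]
    have h7 : Real.exp m * (r t + x * r t - m * r t) = Real.exp m * (x - m + 1) * r t := by ring
    rw [h7]
    apply mul_le_mul_of_nonneg_right _ (hrpos t).le
    exact mul_le_mul_of_nonneg_left h5 (Real.exp_pos m).le
  have hint := intervalIntegral.integral_mono_on (a := (0:ℝ)) (b := 1) (μ := volume) zero_le_one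
    (f := fun t => Real.exp m * (r t + (1 / 2) * Real.log (nn ψ (γ t)) * r t - m * r t))
    (g := fun t => nn ψ (γ t) * ‖deriv γ t‖)
    (Continuous.intervalIntegrable (continuous_const.mul ((hr.add (hl.mul hr)).sub (continuous_const.mul hr))) _ _)
    (Continuous.intervalIntegrable (hn.mul h.cont'.norm) _ _) (fun t _ => hpt t)
  refine le_trans (le_of_eq ?_) hint
  rw [intervalIntegral.integral_const_mul, intervalIntegral.integral_sub, intervalIntegral.integral_add,
    intervalIntegral.integral_const_mul, hΦ, hm]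
  · ring
  · exact hr.intervalIntegrable _ _
  · exact (hl.mul hr).intervalIntegrable _ _
  · exact (hr.add (hl.mul hr)).intervalIntegrable _ _
  · exact (continuous_const.mul hr).intervalIntegrable _ _

end

theorem norm_fderiv (ψ : ℂ → ℝ) (z : ℂ) : ‖fderiv ℝ ψ z‖ ^ 2 = nn ψ z := by
  have hn := nn_nonneg (ψ := ψ) z
  have hv : ∀ v, fderiv ℝ ψ z v = v.re * px ψ z + v.im * py ψ z := fun v => fd_apply ψ z v
  have h1 : ‖fderiv ℝ ψ z‖ ≤ Real.sqrt (nn ψ z) := by
    apply ContinuousLinearMap.opNorm_le_bound _ (Real.sqrt_nonneg _)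
    intro v
    rw [hv, Real.norm_eq_abs]
    apply abs_le_of_sq_le_sq _ (by positivity)
    rw [mul_pow, Real.sq_sqrt hn, Complex.sq_norm, normSq_apply]
    unfold nn
    nlinarith [sq_nonneg (v.re * py ψ z - v.im * px ψ z)]
  have h2 : nn ψ z ≤ ‖fderiv ℝ ψ z‖ * Real.sqrt (nn ψ z) := by
    have h3 := (fderiv ℝ ψ z).le_opNorm (px ψ z + py ψ z * I)
    rw [hv] at h3
    have h4 : ‖(px ψ z + py ψ z * I : ℂ)‖ = Real.sqrt (nn ψ z) := by
      rw [Complex.norm_add_mul_I]
      rfl
    rw [h4] at h3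
    refine le_trans (le_of_eq ?_) ((le_abs_self _).trans h3)
    simp only [add_re, ofReal_re, mul_re, I_re, mul_zero, ofReal_im, I_im, mul_one, sub_self, add_zero,
      add_im, mul_im, zero_add]
    unfold nn
    ring
  rcases hn.eq_or_lt with h0 | h0
  · rw [← h0, Real.sqrt_zero] at h1
    have : ‖fderiv ℝ ψ z‖ = 0 := le_antisymm h1 (norm_nonneg _)
    rw [this, ← h0]
    norm_num
  · have h5 : Real.sqrt (nn ψ z) ≤ ‖fderiv ℝ ψ z‖ := by
      have hs := Real.sqrt_pos.2 h0
      have h6 : Real.sqrt (nn ψ z) * Real.sqrt (nn ψ z) ≤ ‖fderiv ℝ ψ z‖ * Real.sqrt (nn ψ z) := by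
        rw [Real.mul_self_sqrt hn]; exact h2
      exact le_of_mul_le_mul_right h6 hs
    rw [le_antisymm h1 h5, Real.sq_sqrt hn]

end Pool.Agent.Helper682.Coax
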