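import Mathlib
import Pool.Agent.Helper682.Coax.D10

set_option autoImplicit false

namespace Pool.Agent.Helper682.Coax

open Set Filter Topology Metric MeasureTheory Complex

namespace Ann
variable {γ1 γ2 : ℝ → ℂ} {U : Set ℂ} {ψ : ℂ → ℝ} {c1 c2 σ1 σ2 τ1 τ2 : ℝ}
  (H : Ann γ1 γ2 U ψ c1 c2 σ1 σ2 τ1 τ2)
include H

omit H in
theorem gd_self (z : ℂ) : gd ψ ψ z = nn ψ z := by
  unfold gd nn px py
  ring

theorem gd_C {k : ℂ → ℝ} (hk : ContDiff ℝ 1 k) : Continuous (gd k ψ) := by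
  unfold gd
  have h1 := hk.continuous_fderiv (by simp)
  have h2 := (px_C1 H.sm).continuous
  have h3 := (py_C1 H.sm).continuous
  exact ((h1.clm_apply continuous_const).mul h2).add ((h1.clm_apply continuous_const).mul h3)

theorem jj_C : Continuous (jj ψ) := by
  unfold jj
  have h1 := (px_C1 H.sm).continuous_fderiv (by simp)
  exact ((h1.clm_apply continuous_const).pow 2).add ((h1.clm_apply continuous_const).pow 2)

theorem JC {ε : ℝ} (hε : 0 < ε) : Continuous fun z => 2 * ε ^ 2 * jj ψ z / qq ψ ε z ^ 2 :=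
  (continuous_const.mul H.jj_C).div ((qq_C1 H.sm ε).continuous.pow 2) fun z => (pow_pos (qq_pos hε z) 2).ne'

theorem psiC1 : ContDiff ℝ 1 ψ := H.sm.of_le (by norm_num)

theorem pos1 (t : ℝ) : 0 < nn ψ (γ1 t) := by
  have h1 := nn_rho H.h1 H.sm H.v1 t
  have h2 : rho γ1 ψ t ≠ 0 := by
    intro h0
    have := H.ρ1 t
    rw [h0, mul_zero] at this
    exact lt_irrefl _ this
  have h3 : 0 < rho γ1 ψ t ^ 2 := by positivity
  by_contra hn
  push Not at hn
  have : nn ψ (γ1 t) * ‖deriv γ1 t‖ ^ 2 ≤ 0 := mul_nonpos_of_nonpos_of_nonneg hn (by positivity)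
  linarith

theorem pos2 (t : ℝ) : 0 < nn ψ (γ2 t) := by
  have h1 := nn_rho H.h2 H.sm H.v2 t
  have h2 : rho γ2 ψ t ≠ 0 := by
    intro h0
    have := H.ρ2 t
    rw [h0, mul_zero, neg_zero] at this
    exact lt_irrefl _ this
  have h3 : 0 < rho γ2 ψ t ^ 2 := by positivity
  by_contra hn
  push Not at hn
  have : nn ψ (γ2 t) * ‖deriv γ2 t‖ ^ 2 ≤ 0 := mul_nonpos_of_nonpos_of_nonneg hn (by positivity)
  linarith

theorem r1c : Continuous fun t => σ1 * rho γ1 ψ t := continuous_const.mul (rho_cont H.h1 H.sm)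
theorem r2c : Continuous fun t => -(σ2 * rho γ2 ψ t) := (continuous_const.mul (rho_cont H.h2 H.sm)).neg

/-- the flux -/
noncomputable def Ph (γ : ℝ → ℂ) (ψ : ℂ → ℝ) (σ : ℝ) : ℝ := ∫ t in (0:ℝ)..1, σ * rho γ ψ t

theorem flux_pos : 0 < Ph γ1 ψ σ1 := by
  unfold Ph
  apply intervalIntegral.intervalIntegral_pos_of_pos_on (H.r1c.intervalIntegrable _ _) (fun t _ => H.ρ1 t) zero_lt_one

theorem flux_eq : ∫ t in (0:ℝ)..1, -(σ2 * rho γ2 ψ t) = Ph γ1 ψ σ1 := by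
  have h1 := H.idA (k := fun _ => 1) contDiff_const
  have h2 : ∀ z, gd (fun _ => (1:ℝ)) ψ z = 0 := by
    intro z
    unfold gd
    simp
  simp only [h2, integral_zero, one_mul] at h1
  unfold Ph
  linarith

theorem idF {F : ℝ → ℝ} (hF : ContDiff ℝ 1 F) :
    ∫ z in U, deriv F (ψ z) * nn ψ z = (F c2 - F c1) * Ph γ1 ψ σ1 := by
  have h1 := H.idA (k := fun z => F (ψ z)) (hF.comp H.psiC1)
  have h2 : ∀ z, gd (fun z => F (ψ z)) ψ z = deriv F (ψ z) * nn ψ z := by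
    intro z
    unfold gd
    rw [fd_comp H.sm hF, fd_comp H.sm hF]
    unfold nn px py
    ring
  simp only [h2, H.v1, H.v2] at h1
  rw [intervalIntegral.integral_const_mul, intervalIntegral.integral_const_mul, H.flux_eq] at h1
  rw [h1]
  unfold Ph
  ring

theorem energy : ∫ z in U, nn ψ z = (c2 - c1) * Ph γ1 ψ σ1 := by
  have := H.idF (F := fun x => x) contDiff_id
  simpa using this

/-- J-integral -/
noncomputable def JI (U : Set ℂ) (ψ : ℂ → ℝ) (ε : ℝ) : ℝ := ∫ z in U, 2 * ε ^ 2 * jj ψ z / qq ψ ε z ^ 2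

theorem JI_eq {ε : ℝ} (hε : 0 < ε) : JI U ψ ε = σ1 * Om γ1 ψ ε + σ2 * Om γ2 ψ ε := by
  have := H.idB (G := fun _ => 1) contDiff_const hε
  simp only [one_mul, deriv_const, zero_mul, add_zero] at this
  exact this

omit H in
theorem JI_nonneg (ε : ℝ) : 0 ≤ JI U ψ ε := by
  unfold JI
  apply integral_nonneg
  intro z
  have : 0 ≤ jj ψ z := by unfold jj; positivity
  simp only [Pi.zero_apply]
  positivity

theorem limOm1 : Tendsto (fun ε => Om γ1 ψ ε) (𝓝[>] 0) (𝓝 (-(2 * Real.pi * τ1))) := lim_Om H.h1 H.sm H.pos1 H.um1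
theorem limOm2 : Tendsto (fun ε => Om γ2 ψ ε) (𝓝[>] 0) (𝓝 (-(2 * Real.pi * τ2))) := lim_Om H.h2 H.sm H.pos2 H.um2

theorem JI_lim' : Tendsto (fun ε => JI U ψ ε) (𝓝[>] 0) (𝓝 (σ1 * -(2 * Real.pi * τ1) + σ2 * -(2 * Real.pi * τ2))) := by
  have h1 := (H.limOm1.const_mul σ1).add (H.limOm2.const_mul σ2)
  apply h1.congr'
  filter_upwards [self_mem_nhdsWithin] with ε hε
  exact (H.JI_eq hε).symm

theorem sum_zero : σ1 * τ1 + σ2 * τ2 = 0 := by
  have h1 : 0 ≤ σ1 * -(2 * Real.pi * τ1) + σ2 * -(2 * Real.pi * τ2) :=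
    ge_of_tendsto' H.JI_lim' fun ε => JI_nonneg ε
  have h2 : σ1 * τ1 + σ2 * τ2 ≤ 0 := by
    have hp := Real.pi_pos
    by_contra hn
    push Not at hn
    have : 0 < (2 * Real.pi) * (σ1 * τ1 + σ2 * τ2) := by positivity
    linarith
  have hori := H.ori
  rcases H.s1 with a | a <;> rcases H.s2 with b | b <;> rcases H.t1 with c | c <;> rcases H.t2 with d | d <;>
    rw [a, b, c, d] at h2 hori ⊢ <;>
    first
    | (norm_num; done)
    | (exfalso; linarith)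
    | (exfalso; revert hori; norm_num; done)

theorem JI_lim : Tendsto (fun ε => JI U ψ ε) (𝓝[>] 0) (𝓝 0) := by
  have h1 := H.JI_lim'
  have h2 : σ1 * -(2 * Real.pi * τ1) + σ2 * -(2 * Real.pi * τ2) = 0 := by
    linear_combination (-(2 * Real.pi)) * H.sum_zero
  rw [h2] at h1
  exact h1

theorem limG {G : ℝ → ℝ} (hG : ContDiff ℝ 1 G) :
    Tendsto (fun ε => ∫ z in U, deriv G (ψ z) * gd (hh ψ ε) ψ z) (𝓝[>] 0)
      (𝓝 (-(2 * Real.pi * (σ2 * τ2)) * (G c2 - G c1))) := by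
  -- bound for G on the range
  obtain ⟨C, hC⟩ : ∃ C, ∀ z ∈ U, |G (ψ z)| ≤ C := by
    have hcont : Continuous fun z => G (ψ z) := hG.continuous.comp H.sm.continuous
    obtain ⟨C, hC⟩ := H.bdd.isCompact_closure.exists_bound_of_continuousOn hcont.continuousOn
    exact ⟨C, fun z hz => hC z (subset_closure hz)⟩
  have hC0 : 0 ≤ C := by
    obtain ⟨z, hz⟩ := H.ne
    exact (abs_nonneg _).trans (hC z hz)
  have hGC : Continuous fun z => G (ψ z) := hG.continuous.comp H.sm.continuous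
  have hGC' : Continuous fun z => deriv G (ψ z) := (hG.continuous_deriv (by simp)).comp H.sm.continuous
  have hrem : Tendsto (fun ε => ∫ z in U, G (ψ z) * (2 * ε ^ 2 * jj ψ z / qq ψ ε z ^ 2)) (𝓝[>] 0) (𝓝 0) := by
    apply squeeze_zero_norm' (a := fun ε => C * JI U ψ ε)
    · filter_upwards [self_mem_nhdsWithin] with ε hε
      have h1 : C * JI U ψ ε = ∫ z in U, C * (2 * ε ^ 2 * jj ψ z / qq ψ ε z ^ 2) := by
        rw [integral_const_mul]; rfl
      rw [h1]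
      apply norm_integral_le_of_norm_le (H.cint (continuous_const.mul (H.JC hε)))
      rw [ae_restrict_iff' H.opn.measurableSet]
      apply Filter.Eventually.of_forall
      intro z hz
      have h2 : 0 ≤ 2 * ε ^ 2 * jj ψ z / qq ψ ε z ^ 2 := by
        have : 0 ≤ jj ψ z := by unfold jj; positivity
        positivity
      rw [Real.norm_eq_abs, abs_mul, abs_of_nonneg h2]
      exact mul_le_mul_of_nonneg_right (hC z hz) h2
    · have := H.JI_lim.const_mul C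
      rwa [mul_zero] at this
  have hmain : Tendsto (fun ε => σ1 * (G c1 * Om γ1 ψ ε) + σ2 * (G c2 * Om γ2 ψ ε)) (𝓝[>] 0)
      (𝓝 (σ1 * (G c1 * -(2 * Real.pi * τ1)) + σ2 * (G c2 * -(2 * Real.pi * τ2)))) :=
    ((H.limOm1.const_mul (G c1)).const_mul σ1).add ((H.limOm2.const_mul (G c2)).const_mul σ2)
  have h3 := hmain.sub hrem
  have h4 : σ1 * (G c1 * -(2 * Real.pi * τ1)) + σ2 * (G c2 * -(2 * Real.pi * τ2)) - 0 =
      -(2 * Real.pi * (σ2 * τ2)) * (G c2 - G c1) := by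
    linear_combination (-(2 * Real.pi) * G c1) * H.sum_zero
  rw [h4] at h3
  apply h3.congr'
  filter_upwards [self_mem_nhdsWithin] with ε hε
  have hε' : (0:ℝ) < ε := hε
  have h5 := H.idB hG hε'
  have i1 : IntegrableOn (fun z => G (ψ z) * (2 * ε ^ 2 * jj ψ z / qq ψ ε z ^ 2)) U := H.cint (hGC.mul (H.JC hε'))
  have i2 : IntegrableOn (fun z => deriv G (ψ z) * gd (hh ψ ε) ψ z) U :=
    H.cint (hGC'.mul (H.gd_C (hh_C1 H.sm hε')))
  rw [integral_add i1 i2] at h5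
  linarith

/-- boundary mean of log gradient -/
noncomputable def ML (γ : ℝ → ℂ) (ψ : ℂ → ℝ) (σ : ℝ) : ℝ :=
  ∫ t in (0:ℝ)..1, (1 / 2) * Real.log (nn ψ (γ t)) * (σ * rho γ ψ t)

theorem limh1 : Tendsto (fun ε => ∫ t in (0:ℝ)..1, hh ψ ε (γ1 t) * (σ1 * rho γ1 ψ t)) (𝓝[>] 0)
    (𝓝 (ML γ1 ψ σ1)) := lim_h H.h1 H.sm H.r1c H.pos1

theorem limh2 : Tendsto (fun ε => ∫ t in (0:ℝ)..1, hh ψ ε (γ2 t) * (-(σ2 * rho γ2 ψ t))) (𝓝[>] 0)
    (𝓝 (ML γ2 ψ (-σ2))) := by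
  have := lim_h H.h2 H.sm H.r2c H.pos2
  unfold ML
  simpa only [neg_mul] using this

theorem m_rel : ML γ2 ψ (-σ2) - ML γ1 ψ σ1 = -(2 * Real.pi * (σ2 * τ2)) * (c2 - c1) := by
  have h1 := H.limG (G := fun x => x) contDiff_id
  have h2 := H.limh2.sub H.limh1
  apply tendsto_nhds_unique h2
  apply h1.congr'
  filter_upwards [self_mem_nhdsWithin] with ε hε
  have hε' : (0:ℝ) < ε := hε
  have h3 := H.idA (hh_C1 H.sm hε')
  simp only [deriv_id'', one_mul]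
  exact h3

/-- weighted log-gradient integral limit -/
theorem limW {g P G2 : ℝ → ℝ} (hP : ContDiff ℝ 1 P) (hG : ContDiff ℝ 1 G2) (dP : ∀ x, deriv P x = g x)
    (dG : ∀ x, deriv G2 x = P x) :
    Tendsto (fun ε => ∫ z in U, g (ψ z) * nn ψ z * hh ψ ε z) (𝓝[>] 0)
      (𝓝 (P c2 * ML γ2 ψ (-σ2) - P c1 * ML γ1 ψ σ1 - (-(2 * Real.pi * (σ2 * τ2)) * (G2 c2 - G2 c1)))) := by
  have h1 := H.limG hG
  have h2 := ((H.limh2.const_mul (P c2)).sub (H.limh1.const_mul (P c1))).sub h1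
  apply h2.congr'
  filter_upwards [self_mem_nhdsWithin] with ε hε
  have hε' : (0:ℝ) < ε := hε
  have ck := hh_C1 H.sm hε'
  have cP : ContDiff ℝ 1 fun z => P (ψ z) := hP.comp H.psiC1
  have h3 := H.idA (cP.mul ck)
  have h4 : ∀ z, gd (fun z => P (ψ z) * hh ψ ε z) ψ z = g (ψ z) * nn ψ z * hh ψ ε z + deriv G2 (ψ z) * gd (hh ψ ε) ψ z := by
    intro z
    unfold gd
    rw [fd_mul H.sm cP ck, fd_mul H.sm cP ck, fd_comp H.sm hP, fd_comp H.sm hP, dP, dG]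
    unfold nn px py
    ring
  have cg : Continuous fun z => g (ψ z) := by
    have : g = deriv P := funext fun x => (dP x).symm
    rw [this]
    exact (hP.continuous_deriv (by simp)).comp H.sm.continuous
  have cG' : Continuous fun z => deriv G2 (ψ z) := (hG.continuous_deriv (by simp)).comp H.sm.continuous
  change ∫ z in U, gd (fun z => P (ψ z) * hh ψ ε z) ψ z = (∫ t in (0:ℝ)..1, P (ψ (γ2 t)) * hh ψ ε (γ2 t) * (-(σ2 * rho γ2 ψ t)))
    - ∫ t in (0:ℝ)..1, P (ψ (γ1 t)) * hh ψ ε (γ1 t) * (σ1 * rho γ1 ψ t) at h3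
  simp only [h4, H.v1, H.v2] at h3
  have i1 : IntegrableOn (fun z => g (ψ z) * nn ψ z * hh ψ ε z) U :=
    H.cint ((cg.mul (nn_C1 H.sm).continuous).mul ck.continuous)
  have i2 : IntegrableOn (fun z => deriv G2 (ψ z) * gd (hh ψ ε) ψ z) U := H.cint (cG'.mul (H.gd_C ck))
  rw [integral_add i1 i2] at h3
  have h5 : ∫ t in (0:ℝ)..1, P c2 * hh ψ ε (γ2 t) * (-(σ2 * rho γ2 ψ t)) =
      P c2 * ∫ t in (0:ℝ)..1, hh ψ ε (γ2 t) * (-(σ2 * rho γ2 ψ t)) := by
    rw [← intervalIntegral.integral_const_mul]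
    congr 1
    funext t
    ring
  have h6 : ∫ t in (0:ℝ)..1, P c1 * hh ψ ε (γ1 t) * (σ1 * rho γ1 ψ t) =
      P c1 * ∫ t in (0:ℝ)..1, hh ψ ε (γ1 t) * (σ1 * rho γ1 ψ t) := by
    rw [← intervalIntegral.integral_const_mul]
    congr 1
    funext t
    ring
  rw [h5, h6] at h3
  linarith

end Ann

end Pool.Agent.Helper682.Coax
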