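import Mathlib
import Pool.Agent.Helper682.Coax.D11

set_option autoImplicit false

namespace Pool.Agent.Helper682.Coax

open Set Filter Topology Metric MeasureTheory Complex

namespace Ann
variable {γ1 γ2 : ℝ → ℂ} {U : Set ℂ} {ψ : ℂ → ℝ} {c1 c2 σ1 σ2 τ1 τ2 : ℝ}
  (H : Ann γ1 γ2 U ψ c1 c2 σ1 σ2 τ1 τ2)
include H

theorem area {Φ κ m1 m2 : ℝ} (hΦ : Ph γ1 ψ σ1 = Φ) (hκ : κ * Φ = 2 * Real.pi * (σ2 * τ2))
    (hm1 : ML γ1 ψ σ1 = Φ * m1) (hm2 : ML γ2 ψ (-σ2) = Φ * m2) :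
    m2 = m1 - κ * (c2 - c1) ∧ Φ * (Real.exp (-2 * m2) - Real.exp (-2 * m1)) / (2 * κ) ≤ (volume U).toReal := by
  have hΦ0 : 0 < Φ := by rw [← hΦ]; exact H.flux_pos
  have hκ0 : κ ≠ 0 := by
    intro h0
    rw [h0, zero_mul] at hκ
    have hp := Real.pi_pos
    have : σ2 * τ2 ≠ 0 := by
      rcases H.s2 with a | a <;> rcases H.t2 with b | b <;> rw [a, b] <;> norm_num
    have h2 : 2 * Real.pi * (σ2 * τ2) ≠ 0 := mul_ne_zero (by positivity) this
    exact h2 hκ.symm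
  have hrel : m2 = m1 - κ * (c2 - c1) := by
    have h1 := H.m_rel
    rw [hm1, hm2, ← hκ] at h1
    apply mul_left_cancel₀ hΦ0.ne'
    linarith
  refine ⟨hrel, ?_⟩
  set m : ℝ → ℝ := fun x => m1 - κ * (x - c1) with hm
  set g : ℝ → ℝ := fun x => Real.exp (-2 * m x) with hg
  set P : ℝ → ℝ := fun x => g x / (2 * κ) with hP
  set G2 : ℝ → ℝ := fun x => g x / (4 * κ ^ 2) with hG2
  set F1 : ℝ → ℝ := fun x => g x * (m x + 1) / κ with hF1
  have mC : ContDiff ℝ 1 m := by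
    rw [hm]
    exact contDiff_const.sub (contDiff_const.mul (contDiff_id.sub contDiff_const))
  have gC : ContDiff ℝ 1 g := by
    rw [hg]
    exact (contDiff_const.mul mC).exp
  have PC : ContDiff ℝ 1 P := gC.div_const _
  have G2C : ContDiff ℝ 1 G2 := gC.div_const _
  have F1C : ContDiff ℝ 1 F1 := (gC.mul (mC.add contDiff_const)).div_const _
  have dm : ∀ x, HasDerivAt m (-κ) x := by
    intro x
    have h1 : HasDerivAt (fun x : ℝ => x - c1) 1 x := (hasDerivAt_id x).sub_const c1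
    have h2 := (h1.const_mul κ).const_sub m1
    rw [mul_one] at h2
    exact h2
  have dg : ∀ x, HasDerivAt g (g x * (2 * κ)) x := by
    intro x
    have h2 := ((dm x).const_mul (-2)).exp
    have h3 : Real.exp (-2 * m x) * (-2 * -κ) = g x * (2 * κ) := by rw [hg]; ring
    rw [h3] at h2
    exact h2
  have dP : ∀ x, deriv P x = g x := by
    intro x
    have h2 := ((dg x).div_const (2 * κ)).deriv
    have h3 : deriv P x = g x * (2 * κ) / (2 * κ) := h2
    rw [h3]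
    field_simp
  have dG : ∀ x, deriv G2 x = P x := by
    intro x
    have h2 := ((dg x).div_const (4 * κ ^ 2)).deriv
    have h3 : deriv G2 x = g x * (2 * κ) / (4 * κ ^ 2) := h2
    rw [h3, hP]
    field_simp
    ring
  have dF : ∀ x, deriv F1 x = g x * (1 + 2 * m x) := by
    intro x
    have h2 := (((dg x).mul ((dm x).add_const 1)).div_const κ).deriv
    have h3 : deriv F1 x = (g x * (2 * κ) * (m x + 1) + g x * -κ) / κ := h2
    rw [h3]
    field_simp
    ring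
  have mc1 : m c1 = m1 := by simp [hm]
  have mc2 : m c2 = m2 := by rw [hm, hrel]
  have key : ∀ ε : ℝ, 0 < ε → (F1 c2 - F1 c1) * Φ - 2 * (∫ z in U, g (ψ z) * nn ψ z * hh ψ ε z) ≤ (volume U).toReal := by
    intro ε hε
    have h1 := H.idF F1C
    rw [hΦ] at h1
    simp only [dF] at h1
    rw [← h1, ← integral_const_mul]
    have gCc : Continuous fun z => g (ψ z) := gC.continuous.comp H.sm.continuous
    have mCc : Continuous fun z => m (ψ z) := mC.continuous.comp H.sm.continuous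
    have nC := (nn_C1 H.sm).continuous
    have i1 : IntegrableOn (fun z => g (ψ z) * (1 + 2 * m (ψ z)) * nn ψ z) U :=
      H.cint ((gCc.mul (continuous_const.add (continuous_const.mul mCc))).mul nC)
    have i2 : IntegrableOn (fun z => 2 * (g (ψ z) * nn ψ z * hh ψ ε z)) U :=
      H.cint (continuous_const.mul ((gCc.mul nC).mul (hh_C1 H.sm hε).continuous))
    rw [← integral_sub i1 i2]
    have h2 : (volume U).toReal = ∫ z in U, (1:ℝ) := by
      rw [setIntegral_const, smul_eq_mul, mul_one]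
      rfl
    rw [h2]
    apply integral_mono (i1.sub i2) (H.cint continuous_const)
    intro z
    have hq := qq_pos (ψ := ψ) hε z
    have hn := nn_nonneg (ψ := ψ) z
    simp only
    have h3 : Real.exp (-2 * hh ψ ε z) = (qq ψ ε z)⁻¹ := by
      unfold hh
      rw [show -2 * (1 / 2 * Real.log (qq ψ ε z)) = -Real.log (qq ψ ε z) by ring, Real.exp_neg, Real.exp_log hq]
    have h4 : g (ψ z) * (1 + 2 * m (ψ z) - 2 * hh ψ ε z) ≤ (qq ψ ε z)⁻¹ := by
      rw [← h3]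
      have h5 := Real.add_one_le_exp (2 * m (ψ z) - 2 * hh ψ ε z)
      have h6 : Real.exp (-2 * hh ψ ε z) = g (ψ z) * Real.exp (2 * m (ψ z) - 2 * hh ψ ε z) := by
        rw [hg, ← Real.exp_add]
        congr 1
        ring
      rw [h6]
      apply mul_le_mul_of_nonneg_left _ (Real.exp_pos _).le
      linarith
    have h7 : g (ψ z) * (1 + 2 * m (ψ z)) * nn ψ z - 2 * (g (ψ z) * nn ψ z * hh ψ ε z) =
        nn ψ z * (g (ψ z) * (1 + 2 * m (ψ z) - 2 * hh ψ ε z)) := by ring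
    change g (ψ z) * (1 + 2 * m (ψ z)) * nn ψ z - 2 * (g (ψ z) * nn ψ z * hh ψ ε z) ≤ 1
    rw [h7]
    calc nn ψ z * (g (ψ z) * (1 + 2 * m (ψ z) - 2 * hh ψ ε z)) ≤ nn ψ z * (qq ψ ε z)⁻¹ :=
          mul_le_mul_of_nonneg_left h4 hn
      _ ≤ 1 := by
          rw [← div_eq_mul_inv, div_le_one hq]
          unfold qq
          nlinarith [sq_nonneg ε]
  have hlim := H.limW PC G2C dP dG
  have hlim2 : Tendsto (fun ε => (F1 c2 - F1 c1) * Φ - 2 * (∫ z in U, g (ψ z) * nn ψ z * hh ψ ε z)) (𝓝[>] 0)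
      (𝓝 ((F1 c2 - F1 c1) * Φ - 2 * (P c2 * ML γ2 ψ (-σ2) - P c1 * ML γ1 ψ σ1 -
        (-(2 * Real.pi * (σ2 * τ2)) * (G2 c2 - G2 c1))))) :=
    tendsto_const_nhds.sub (hlim.const_mul 2)
  have hfin : (F1 c2 - F1 c1) * Φ - 2 * (P c2 * ML γ2 ψ (-σ2) - P c1 * ML γ1 ψ σ1 -
        (-(2 * Real.pi * (σ2 * τ2)) * (G2 c2 - G2 c1))) ≤ (volume U).toReal := by
    apply le_of_tendsto hlim2
    filter_upwards [self_mem_nhdsWithin] with ε hε
    exact key ε hε
  refine le_trans (le_of_eq ?_) hfin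
  rw [hm1, hm2, ← hκ]
  have e1 : g c1 = Real.exp (-2 * m1) := by rw [hg]; simp only [mc1]
  have e2 : g c2 = Real.exp (-2 * m2) := by rw [hg]; simp only [mc2]
  simp only [hF1, hP, hG2, mc1, mc2, e1, e2]
  field_simp
  ring

theorem boundary {Φ m1 m2 : ℝ} (hΦ : Ph γ1 ψ σ1 = Φ)
    (hm1 : ML γ1 ψ σ1 = Φ * m1) (hm2 : ML γ2 ψ (-σ2) = Φ * m2) :
    Φ * (Real.exp m1 + Real.exp m2) ≤ ∫ z in frontier U, ‖fderiv ℝ ψ z‖ ^ 2 ∂(Measure.hausdorffMeasure 1) := by
  have hc : Continuous fun z => ‖fderiv ℝ ψ z‖ ^ 2 := ((H.sm.continuous_fderiv (by simp)).norm).pow 2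
  have g1 : ContDiff ℝ 1 γ1 := H.h1.smooth.of_le (by exact_mod_cast le_top)
  have g2 : ContDiff ℝ 1 γ2 := H.h2.smooth.of_le (by exact_mod_cast le_top)
  obtain ⟨i1, b1⟩ := hausdorff_curve γ1 g1 H.h1.per H.h1.inj _ hc (fun z => by positivity)
  obtain ⟨i2, b2⟩ := hausdorff_curve γ2 g2 H.h2.per H.h2.inj _ hc (fun z => by positivity)
  rw [H.fr, setIntegral_union H.disj H.h2.compact.isClosed.measurableSet i1 i2]
  have hs1 : σ1 ^ 2 = 1 := by rcases H.s1 with a | a <;> rw [a] <;> norm_num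
  have hs2 : σ2 ^ 2 = 1 := by rcases H.s2 with a | a <;> rw [a] <;> norm_num
  have l1 := bd_low H.h1 H.sm H.v1 H.r1c H.ρ1 (fun t => by rw [mul_pow, hs1, one_mul]) hΦ hm1
  have l2 := bd_low (m := m2) H.h2 H.sm H.v2 H.r2c H.ρ2 (fun t => by rw [neg_sq, mul_pow, hs2, one_mul])
    (H.flux_eq.trans hΦ) (by
      rw [← hm2]
      unfold ML
      simp only [neg_mul])
  simp only [norm_fderiv] at b1 b2 ⊢
  linarith

theorem final : ∃ a b : ℝ, 0 < a ∧ a < b ∧ Real.pi * (b ^ 2 - a ^ 2) = (volume U).toReal ∧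
    (1 / a + 1 / b) / Real.log (b / a) ≤
      (∫ z in frontier U, ‖fderiv ℝ ψ z‖ ^ 2 ∂(Measure.hausdorffMeasure 1)) / (∫ z in U, ‖fderiv ℝ ψ z‖ ^ 2) := by
  set Φ := Ph γ1 ψ σ1 with hΦ
  have hΦ0 : 0 < Φ := H.flux_pos
  have hpi := Real.pi_pos
  set τ := c2 - c1 with hτ
  have hτ0 : 0 < τ := by linarith [H.lt]
  set m1 := ML γ1 ψ σ1 / Φ with hm1
  set m2 := ML γ2 ψ (-σ2) / Φ with hm2
  have em1 : ML γ1 ψ σ1 = Φ * m1 := by rw [hm1]; field_simp
  have em2 : ML γ2 ψ (-σ2) = Φ * m2 := by rw [hm2]; field_simp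
  set k := σ2 * τ2 with hk
  have hk1 : k = 1 ∨ k = -1 := by
    rw [hk]
    rcases H.s2 with a | a <;> rcases H.t2 with b | b <;> rw [a, b] <;> norm_num
  obtain ⟨hrel, harea⟩ := H.area (κ := 2 * Real.pi * k / Φ) hΦ.symm (by rw [div_mul_cancel₀ _ hΦ0.ne']) em1 em2
  have hbd := H.boundary hΦ.symm em1 em2
  have hD : ∫ z in U, ‖fderiv ℝ ψ z‖ ^ 2 = τ * Φ := by
    simp only [norm_fderiv]
    exact H.energy
  set L := 2 * Real.pi * τ / Φ with hL
  have hL0 : 0 < L := by positivity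
  have hΦL : Φ = 2 * Real.pi * τ / L := by rw [hL]; field_simp
  rw [hD]
  have hα : (Real.exp m1 + Real.exp m2) / τ ≤
      (∫ z in frontier U, ‖fderiv ℝ ψ z‖ ^ 2 ∂(Measure.hausdorffMeasure 1)) / (τ * Φ) := by
    rw [div_le_div_iff₀ hτ0 (by positivity)]
    have : (Real.exp m1 + Real.exp m2) * (τ * Φ) = τ * (Φ * (Real.exp m1 + Real.exp m2)) := by ring
    rw [this, mul_comm _ τ]
    exact mul_le_mul_of_nonneg_left hbd hτ0.le
  rcases hk1 with hk1 | hk1
  · -- M = m1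
    have e2 : m2 = m1 - L := by
      rw [hrel, hk1, hL]
      ring
    apply final_calc (M := m1) (L := L) hτ0 hL0
    · refine le_trans (le_of_eq ?_) harea
      rw [e2, hk1, hΦL]
      have e3 : Real.exp (-2 * (m1 - L)) = Real.exp (-2 * m1) * Real.exp (2 * L) := by
        rw [← Real.exp_add]; congr 1; ring
      rw [e3]
      field_simp
    · rw [← e2]; exact hα
  · have e2 : m1 = m2 - L := by
      rw [hrel, hk1, hL]
      ring
    apply final_calc (M := m2) (L := L) hτ0 hL0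
    · refine le_trans (le_of_eq ?_) harea
      rw [e2, hk1, hΦL]
      have e3 : Real.exp (-2 * (m2 - L)) = Real.exp (-2 * m2) * Real.exp (2 * L) := by
        rw [← Real.exp_add]; congr 1; ring
      rw [e3]
      field_simp
      ring
    · rw [← e2, add_comm]; exact hα

end Ann

end Pool.Agent.Helper682.Coax
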